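import Pool.Agent.R988.NQ.Ctr

/-! # Approximation of covariant fields by continuous local observables -/

set_option autoImplicit false

open MeasureTheory Filter Topology
open scoped BigOperators ENNReal NNReal InnerProductSpace ComplexConjugate

namespace Pool.Agent.R988.NQ

open Pool.Agent.H5R2.NB Pool.Agent.H5R2.NBA Pool.Agent.H5R2.NB.MOM
open Pool.Agent.Y662.ERG (Obs shf)

section app

variable {d : ℕ}

/-- the indicator of a finite set -/
noncomputable def chi (F : Finset (Site d)) (x : Site d) : ℝ := by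
  classical exact if x ∈ F then 1 else 0

theorem chi_abs (F : Finset (Site d)) (x : Site d) : |chi F x| ≤ 1 := by
  unfold chi
  split_ifs <;> simp

/-- restriction of the potential -/
noncomputable def rr (F : Finset (Site d)) (V : Site d → ℝ) : Site d → ℝ :=
  fun x => chi F x * V x

theorem rr_cont (F : Finset (Site d)) : Continuous (rr F) := by
  unfold rr
  fun_prop

theorem rr_congr {F : Finset (Site d)} {V V' : Site d → ℝ} (h : ∀ x ∈ F, V x = V' x) :
    rr F V = rr F V' := by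
  funext x
  unfold rr chi
  by_cases hx : x ∈ F
  · rw [h x hx]
  · simp [hx]

/-- the projection on a finite set -/
noncomputable def pf (F : Finset (Site d)) : L2 (Site d) →L[ℂ] L2 (Site d) :=
  mulop (chi F) 1 (chi_abs F)

theorem pf_apply (F : Finset (Site d)) (ψ : L2 (Site d)) (x : Site d) :
    (pf F ψ) x = (chi F x : ℂ) * ψ x := rfl

theorem pf_le (F : Finset (Site d)) (ψ : L2 (Site d)) : ‖pf F ψ‖ ≤ ‖ψ‖ := by
  have := mulop_norm_le (chi F) 1 (chi_abs F) ψ
  rwa [one_mul] at this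

theorem exhaust : ∃ F : ℕ → Finset (Site d), ∀ x : Site d, ∀ᶠ n in atTop, x ∈ F n := by
  classical
  obtain ⟨e, he⟩ := exists_surjective_nat (Site d)
  refine ⟨fun n => (Finset.range n).image e, fun x => ?_⟩
  obtain ⟨m, rfl⟩ := he x
  filter_upwards [eventually_gt_atTop m] with n hn
  exact Finset.mem_image_of_mem e (Finset.mem_range.2 hn)

variable {ν : Measure ℝ} [IsProbabilityMeasure ν]

/-- continuous cylinder approximation -/
theorem cyl_app {b : (Site d → ℝ) → L2 (Site d)} {C : ℝ} (hb : StronglyMeasurable b)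
    (hC : ∀ V, ‖b V‖ ≤ C) {ε : ℝ≥0∞} (hε : 0 < ε) :
    ∃ (F : Finset (Site d)) (G : (Site d → ℝ) → L2 (Site d)) (R : ℝ), Continuous G ∧
      (∀ V, ‖G V‖ ≤ R) ∧ (∀ V V', (∀ x ∈ F, V x = V' x) → G V = G V') ∧
      (∀ V, ∀ x, x ∉ F → G V x = 0) ∧ ∫⁻ V, ‖G V - b V‖ₑ ^ 2 ∂(PP d ν) ≤ ε := by
  have hL : MemLp b 2 (PP d ν) := MemLp.of_bound hb.aestronglyMeasurable C
    (Eventually.of_forall hC)
  -- choice of the precision
  obtain ⟨η, hη0, hη⟩ : ∃ η : ℝ≥0∞, η ≠ 0 ∧ 4 * η ^ 2 ≤ ε := by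
    have h1 : Tendsto (fun η : ℝ≥0∞ => 4 * η ^ 2) (𝓝[>] 0) (𝓝 0) := by
      have h2 : Tendsto (fun η : ℝ≥0∞ => 4 * η ^ 2) (𝓝 0) (𝓝 (4 * 0 ^ 2)) :=
        ENNReal.Tendsto.const_mul ((ENNReal.continuous_pow 2).tendsto 0) (Or.inr (by simp))
      rw [zero_pow two_ne_zero, mul_zero] at h2
      exact h2.mono_left nhdsWithin_le_nhds
    have h3 := ((tendsto_order.1 h1).2 ε hε).and self_mem_nhdsWithin
    obtain ⟨η, h4, h5⟩ := h3.exists
    exact ⟨η, (ne_of_gt h5), h4.le⟩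
  obtain ⟨g, hg1, hg2⟩ := hL.exists_boundedContinuous_eLpNorm_sub_le (by simp) hη0
  have hg3 : ∫⁻ V, ‖b V - g V‖ₑ ^ 2 ∂(PP d ν) ≤ η ^ 2 := by
    have e : eLpNorm (b - (g : (Site d → ℝ) → L2 (Site d))) 2 (PP d ν) =
        (∫⁻ V, ‖b V - g V‖ₑ ^ 2 ∂(PP d ν)) ^ (1 / 2 : ℝ) := by
      rw [eLpNorm_eq_lintegral_rpow_enorm_toReal (by simp) (by simp)]
      simp
    rw [e] at hg1
    calc ∫⁻ V, ‖b V - g V‖ₑ ^ 2 ∂(PP d ν) =
        ((∫⁻ V, ‖b V - g V‖ₑ ^ 2 ∂(PP d ν)) ^ (1 / 2 : ℝ)) ^ 2 := by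
          rw [← ENNReal.rpow_natCast, ← ENNReal.rpow_mul]
          norm_num
      _ ≤ η ^ 2 := pow_le_pow_left₀ zero_le hg1 2
  obtain ⟨F, hF⟩ := exhaust (d := d)
  set G : ℕ → (Site d → ℝ) → L2 (Site d) := fun n V => pf (F n) (g (rr (F n) V)) with hG
  have hGc : ∀ n, Continuous (G n) := fun n =>
    (pf (F n)).continuous.comp (g.continuous.comp (rr_cont (F n)))
  have hGb : ∀ n V, ‖G n V‖ ≤ ‖g‖ := fun n V => (pf_le _ _).trans (g.norm_coe_le_norm _)
  have hchi : ∀ x : Site d, Tendsto (fun n => chi (F n) x) atTop (𝓝 1) := by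
    intro x
    refine tendsto_const_nhds.congr' ?_
    filter_upwards [hF x] with n hn
    unfold chi
    simp [hn]
  have hrr : ∀ V, Tendsto (fun n => rr (F n) V) atTop (𝓝 V) := by
    intro V
    rw [tendsto_pi_nhds]
    intro x
    have := (hchi x).mul_const (V x)
    rwa [one_mul] at this
  have hpf : ∀ ψ : L2 (Site d), Tendsto (fun n => pf (F n) ψ) atTop (𝓝 ψ) := by
    intro ψ
    refine tendsto_dom _ _ ψ (fun n x => ?_) fun x => ?_
    · rw [pf_apply, norm_mul, Complex.norm_real, Real.norm_eq_abs]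
      exact mul_le_of_le_one_left (norm_nonneg _) (chi_abs _ _)
    · have h9 := ((Complex.continuous_ofReal.tendsto _).comp (hchi x)).mul_const (ψ x)
      rw [Complex.ofReal_one, one_mul] at h9
      exact h9
  have hlim : ∀ V, Tendsto (fun n => G n V) atTop (𝓝 (g V)) := by
    intro V
    have h1 : Tendsto (fun n => pf (F n) (g (rr (F n) V) - g V)) atTop (𝓝 0) := by
      rw [tendsto_zero_iff_norm_tendsto_zero]
      have h2 : Tendsto (fun n => ‖g (rr (F n) V) - g V‖) atTop (𝓝 0) := by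
        have := (((g.continuous.tendsto V).comp (hrr V)).sub_const (g V)).norm
        simpa using this
      exact squeeze_zero (fun n => norm_nonneg _) (fun n => pf_le _ _) h2
    have h3 := h1.add (hpf (g V))
    rw [zero_add] at h3
    refine h3.congr fun n => ?_
    rw [map_sub, sub_add_cancel]
  have hdct : Tendsto (fun n => ∫⁻ V, ‖G n V - g V‖ₑ ^ 2 ∂(PP d ν)) atTop (𝓝 0) := by
    have key : Tendsto (fun n => ∫⁻ V, ‖G n V - g V‖ₑ ^ 2 ∂(PP d ν)) atTop
        (𝓝 (∫⁻ _V, 0 ∂(PP d ν))) := by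
      refine tendsto_lintegral_of_dominated_convergence
        (fun _ => ENNReal.ofReal ((‖g‖ + ‖g‖) ^ 2)) (fun n => ?_) (fun n => ?_) ?_ ?_
      · exact (((hGc n).sub g.continuous).enorm.measurable).pow_const 2
      · refine Eventually.of_forall fun V => ?_
        show ‖G n V - g V‖ₑ ^ 2 ≤ ENNReal.ofReal ((‖g‖ + ‖g‖) ^ 2)
        rw [← ofReal_norm, ← ENNReal.ofReal_pow (norm_nonneg _)]
        exact ENNReal.ofReal_le_ofReal (pow_le_pow_left₀ (norm_nonneg _)
          ((norm_sub_le _ _).trans (add_le_add (hGb n V) (g.norm_coe_le_norm _))) 2)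
      · rw [lintegral_const]
        simp
      · refine Eventually.of_forall fun V => ?_
        have h5 := ((hlim V).sub_const (g V)).enorm
        rw [sub_self, enorm_zero] at h5
        have h6 := ((ENNReal.continuous_pow 2).tendsto 0).comp h5
        simpa [Function.comp_def] using h6
    simpa using key
  have hev : ∀ᶠ n in atTop, ∫⁻ V, ‖G n V - g V‖ₑ ^ 2 ∂(PP d ν) < η ^ 2 :=
    (tendsto_order.1 hdct).2 _ (ENNReal.pow_pos (pos_iff_ne_zero.2 hη0) 2)
  obtain ⟨n, hn⟩ := hev.exists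
  refine ⟨F n, G n, ‖g‖, hGc n, hGb n, fun V V' h => ?_, fun V x hx => ?_, ?_⟩
  · show pf (F n) (g (rr (F n) V)) = pf (F n) (g (rr (F n) V'))
    rw [rr_congr h]
  · show (pf (F n) (g (rr (F n) V))) x = 0
    rw [pf_apply]
    unfold chi
    simp [hx]
  · have hpt : ∀ V, ‖G n V - b V‖ₑ ^ 2 ≤ 2 * ‖G n V - g V‖ₑ ^ 2 + 2 * ‖b V - g V‖ₑ ^ 2 := by
      intro V
      refine le_trans (pow_le_pow_left₀ zero_le ?_ 2) (sq_add_le _ _)
      have e : G n V - b V = (G n V - g V) - (b V - g V) := by abel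
      rw [e]
      exact enorm_sub_le
    calc ∫⁻ V, ‖G n V - b V‖ₑ ^ 2 ∂(PP d ν)
        ≤ ∫⁻ V, (2 * ‖G n V - g V‖ₑ ^ 2 + 2 * ‖b V - g V‖ₑ ^ 2) ∂(PP d ν) :=
          lintegral_mono hpt
      _ = 2 * ∫⁻ V, ‖G n V - g V‖ₑ ^ 2 ∂(PP d ν) + 2 * ∫⁻ V, ‖b V - g V‖ₑ ^ 2 ∂(PP d ν) := by
          rw [lintegral_add_left, lintegral_const_mul' _ _ (by simp),
            lintegral_const_mul' _ _ (by simp)]
          exact ((((hGc n).sub g.continuous).enorm.measurable).pow_const 2).const_mul 2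
      _ ≤ 2 * η ^ 2 + 2 * η ^ 2 := by gcongr
      _ = 4 * η ^ 2 := by ring
      _ ≤ ε := hη

end app

end Pool.Agent.R988.NQ
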