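import Pool.Agent.R988.NQ.App

/-! # From cylinder functions to observables -/

set_option autoImplicit false

open MeasureTheory Filter Topology
open scoped BigOperators ENNReal NNReal InnerProductSpace ComplexConjugate

namespace Pool.Agent.R988.NQ

open Pool.Agent.H5R2.NB Pool.Agent.H5R2.NBA Pool.Agent.H5R2.NB.MOM
open Pool.Agent.Y662.ERG (Obs shf)

section bld

variable {d : ℕ}

/-- shift operators -/
noncomputable def sO (z : Site d) : L2 (Site d) →L[ℂ] L2 (Site d) :=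
  Classical.choose ((t_OPS d).1 z)

theorem sO_shift (z : Site d) : IsShift z (sO z) := Classical.choose_spec ((t_OPS d).1 z)

theorem sO_inner (z : Site d) (f g : L2 (Site d)) : ⟪sO z f, g⟫_ℂ = ⟪f, sO (-z) g⟫_ℂ :=
  STAT.shift_inner z (sO z) (sO (-z)) (sO_shift z) (sO_shift (-z)) f g

/-- complex multiplication fields -/
noncomputable def cmg (g h : (Site d → ℝ) → ℝ) (R : ℝ) (hg : ∀ V, |g V| ≤ R)
    (hh : ∀ V, |h V| ≤ R) (i : ℂ) : OF d :=
  addF (mg g R hg) (fun V => i • mg h R hh V)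

theorem cmg_apply (g h : (Site d → ℝ) → ℝ) (R : ℝ) (hg : ∀ V, |g V| ≤ R)
    (hh : ∀ V, |h V| ≤ R) (i : ℂ) (V : Site d → ℝ) (ψ : L2 (Site d)) (x : Site d) :
    (cmg g h R hg hh i V ψ) x =
      ((g (fun y => V (y + x)) : ℂ) + i * (h (fun y => V (y + x)) : ℂ)) * ψ x := by
  show (mg g R hg V ψ) x + i * (mg h R hh V ψ) x = _
  rw [mg_apply, mg_apply]
  ring

theorem cmg_adj (g h : (Site d → ℝ) → ℝ) (R : ℝ) (hg : ∀ V, |g V| ≤ R)
    (hh : ∀ V, |h V| ≤ R) :
    Adj (cmg g h R hg hh Complex.I) (cmg g h R hg hh (-Complex.I)) := by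
  intro V f k
  show ⟪mg g R hg V f + Complex.I • mg h R hh V f, k⟫_ℂ =
    ⟪f, mg g R hg V k + (-Complex.I) • mg h R hh V k⟫_ℂ
  rw [inner_add_left, inner_add_right, inner_smul_left, inner_smul_right,
    mg_symm g R hg V, mg_symm h R hh V, Complex.conj_I]

theorem cmg_po {g h : (Site d → ℝ) → ℝ} {R : ℝ} (hg : ∀ V, |g V| ≤ R)
    (hh : ∀ V, |h V| ≤ R) (hgc : Continuous g) (hhc : Continuous h) {F : Finset (Site d)}
    (hgF : ∀ V V' : Site d → ℝ, (∀ x ∈ F, V x = V' x) → g V = g V')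
    (hhF : ∀ V V' : Site d → ℝ, (∀ x ∈ F, V x = V' x) → h V = h V') (i : ℂ) :
    PO (cmg g h R hg hh i) :=
  (PO.mg hg hgc hgF).add ((PO.mg hh hhc hhF).smul i)

theorem Adj.sum {s : Finset (Site d)} {a a' : Site d → OF d} (h : ∀ y, Adj (a y) (a' y)) :
    Adj (fun V => ∑ y ∈ s, a y V) (fun V => ∑ y ∈ s, a' y V) := by
  intro V f g
  rw [ContinuousLinearMap.sum_apply, ContinuousLinearMap.sum_apply, sum_inner, inner_sum]
  exact Finset.sum_congr rfl fun y _ => h y V f g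

/-- a field from a cylinder function -/
theorem build {F : Finset (Site d)} {G : (Site d → ℝ) → L2 (Site d)} {R : ℝ}
    (hc : Continuous G) (hR : ∀ V, ‖G V‖ ≤ R)
    (hF : ∀ V V', (∀ x ∈ F, V x = V' x) → G V = G V')
    (hs : ∀ V, ∀ x, x ∉ F → G V x = 0) :
    ∃ v v' : OF d, PO v ∧ PO v' ∧ Adj v v' ∧ ∀ V, vec v V = G V := by
  have hco : ∀ y : Site d, Continuous fun V => (G V) y := fun y => (STAT.cont_eval y).comp hc
  have hcb : ∀ (y : Site d) V, ‖(G V) y‖ ≤ R := by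
    intro y V
    exact (lp.norm_apply_le_norm (by norm_num) (G V) y).trans (hR V)
  set gr : Site d → (Site d → ℝ) → ℝ := fun y V => ((G V) y).re with hgr
  set gi : Site d → (Site d → ℝ) → ℝ := fun y V => ((G V) y).im with hgi
  have hrb : ∀ y V, |gr y V| ≤ R := fun y V => (Complex.abs_re_le_norm _).trans (hcb y V)
  have hib : ∀ y V, |gi y V| ≤ R := fun y V => (Complex.abs_im_le_norm _).trans (hcb y V)
  have hrc : ∀ y, Continuous (gr y) := fun y => Complex.continuous_re.comp (hco y)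
  have hic : ∀ y, Continuous (gi y) := fun y => Complex.continuous_im.comp (hco y)
  have hrF : ∀ y, ∀ V V' : Site d → ℝ, (∀ x ∈ F, V x = V' x) → gr y V = gr y V' := by
    intro y V V' h
    show ((G V) y).re = ((G V') y).re
    rw [hF V V' h]
  have hiF : ∀ y, ∀ V V' : Site d → ℝ, (∀ x ∈ F, V x = V' x) → gi y V = gi y V' := by
    intro y V V' h
    show ((G V) y).im = ((G V') y).im
    rw [hF V V' h]
  set m : Site d → OF d := fun y => cmg (gr y) (gi y) R (hrb y) (hib y) Complex.I with hm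
  set m' : Site d → OF d := fun y => cmg (gr y) (gi y) R (hrb y) (hib y) (-Complex.I) with hm'
  have hmp : ∀ y, PO (m y) := fun y => cmg_po _ _ (hrc y) (hic y) (hrF y) (hiF y) _
  have hmp' : ∀ y, PO (m' y) := fun y => cmg_po _ _ (hrc y) (hic y) (hrF y) (hiF y) _
  have hma : ∀ y, Adj (m y) (m' y) := fun y => cmg_adj _ _ _ _ _
  refine ⟨fun V => ∑ y ∈ F, (sO (-y)).comp (m y V), fun V => ∑ y ∈ F, (m' y V).comp (sO y),
    PO.sum F _ fun y => (hmp y).left (sO_shift (-y)), PO.sum F _ fun y => (hmp' y).right (sO_shift y),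
    Adj.sum fun y => ?_, fun V => ?_⟩
  · intro V f g
    show ⟪sO (-y) (m y V f), g⟫_ℂ = ⟪f, m' y V (sO y g)⟫_ℂ
    rw [sO_inner, neg_neg, hma y V]
  · have e1 : vec (fun V => ∑ y ∈ F, (sO (-y)).comp (m y V)) V =
        ∑ y ∈ F, (G V y) • (dl y : L2 (Site d)) := by
      unfold vec
      rw [ContinuousLinearMap.sum_apply]
      refine Finset.sum_congr rfl fun y _ => ?_
      show sO (-y) (m y V (dl 0)) = _
      have e2 : m y V (dl 0) = (G V y) • (dl 0 : L2 (Site d)) := by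
        ext x
        rw [hm]
        show (cmg (gr y) (gi y) R (hrb y) (hib y) Complex.I V (dl 0)) x = (G V y) * (dl 0 : L2 (Site d)) x
        rw [cmg_apply]
        by_cases hx : x = 0
        · subst hx
          congr 1
          simp only [add_zero]
          rw [mul_comm Complex.I]
          exact Complex.re_add_im _
        · have e3 : (dl 0 : L2 (Site d)) x = 0 := by
            unfold dl
            rw [lp.single_apply, Pi.single_apply, if_neg hx]
          rw [e3, mul_zero, mul_zero]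
      rw [e2, map_smul, LIMB.shift_dl y (sO (-y)) (sO_shift (-y))]
    rw [e1]
    ext x
    have e3 : ∀ u : L2 (Site d), u x = ⟪(dl x : L2 (Site d)), u⟫_ℂ := fun u =>
      (STAT.inner_dl x u).symm
    rw [e3 (∑ y ∈ F, (G V y) • (dl y : L2 (Site d))), inner_sum]
    simp only [inner_smul_right, STAT.inner_dl]
    have e4 : ∀ z : Site d, (dl z : L2 (Site d)) x = if z = x then 1 else 0 := by
      intro z
      unfold dl
      rw [lp.single_apply, Pi.single_apply]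
      simp [eq_comm]
    simp only [e4, mul_ite, mul_one, mul_zero, Finset.sum_ite_eq']
    split_ifs with hx
    · rfl
    · exact (hs V x hx).symm

variable {ν : Measure ℝ} [IsProbabilityMeasure ν]

/-- symmetric covariant fields are approximated by observables -/
theorem approx {w : OF d} {C : ℝ} (hw : Fld C w) (sw : Sym w) (ε : ℝ≥0∞) (hε : 0 < ε) :
    ∃ (v : OF d) (M : ℝ), Obs d v M ∧ nn ν (subF v w) ≤ ε := by
  obtain ⟨F, G, R, hc, hR, hF, hs, hG⟩ := cyl_app (ν := ν) hw.sm hw.nb hε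
  obtain ⟨v, v', hv, hv', ha, hvG⟩ := build hc hR hF hs
  obtain ⟨M, hO⟩ := hv.obs hv' ha
  obtain ⟨A, hA⟩ := hv.fld
  obtain ⟨A', hA'⟩ := hv'.fld
  refine ⟨_, M, hO, ?_⟩
  have h1 : nn ν (subF v w) ≤ ε := by
    refine le_trans (le_of_eq ?_) hG
    unfold nn
    refine lintegral_congr fun V => ?_
    show ‖vec v V - vec w V‖ₑ ^ 2 = _
    rw [hvG]
  have ha2 : Adj (subF v w) (subF v' w) := by
    intro V f g
    show ⟪v V f - w V f, g⟫_ℂ = ⟪f, v' V g - w V g⟫_ℂ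
    rw [inner_sub_left, inner_sub_right, ha V f g, sw V f g]
  have h2 : nn ν (subF v' w) ≤ ε := by
    rw [← nn_adj (hA.sub hw) (hA'.sub hw) ha2]
    exact h1
  have hpt : ∀ V, ‖vec (subF (fun V => (2⁻¹ : ℂ) • (addF v v') V) w) V‖ₑ ^ 2 ≤
      2⁻¹ * ‖vec (subF v w) V‖ₑ ^ 2 + 2⁻¹ * ‖vec (subF v' w) V‖ₑ ^ 2 := by
    intro V
    have e : vec (subF (fun V => (2⁻¹ : ℂ) • (addF v v') V) w) V =
        (2⁻¹ : ℂ) • (vec (subF v w) V + vec (subF v' w) V) := by
      show (2⁻¹ : ℂ) • (v V (dl 0) + v' V (dl 0)) - w V (dl 0) =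
        (2⁻¹ : ℂ) • ((v V (dl 0) - w V (dl 0)) + (v' V (dl 0) - w V (dl 0)))
      module
    rw [e]
    have f1 : ‖(2⁻¹ : ℂ)‖ₑ = 2⁻¹ := by
      rw [← ofReal_norm, norm_inv]
      simp
    rw [enorm_smul, f1, mul_pow]
    have f2 : ‖vec (subF v w) V + vec (subF v' w) V‖ₑ ^ 2 ≤
        2 * ‖vec (subF v w) V‖ₑ ^ 2 + 2 * ‖vec (subF v' w) V‖ₑ ^ 2 :=
      (pow_le_pow_left₀ zero_le (enorm_add_le _ _) 2).trans (sq_add_le _ _)
    have f3 : ((2 : ℝ≥0∞)⁻¹) ^ 2 * 2 = 2⁻¹ := by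
      rw [pow_two, mul_assoc, ENNReal.inv_mul_cancel (by simp) (by simp), mul_one]
    calc ((2 : ℝ≥0∞)⁻¹) ^ 2 * ‖vec (subF v w) V + vec (subF v' w) V‖ₑ ^ 2
        ≤ ((2 : ℝ≥0∞)⁻¹) ^ 2 * (2 * ‖vec (subF v w) V‖ₑ ^ 2 + 2 * ‖vec (subF v' w) V‖ₑ ^ 2) := by
          gcongr
      _ = (((2 : ℝ≥0∞)⁻¹) ^ 2 * 2) * ‖vec (subF v w) V‖ₑ ^ 2 +
          (((2 : ℝ≥0∞)⁻¹) ^ 2 * 2) * ‖vec (subF v' w) V‖ₑ ^ 2 := by ring
      _ = _ := by rw [f3]
  calc nn ν (subF (fun V => (2⁻¹ : ℂ) • (addF v v') V) w)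
      ≤ ∫⁻ V, (2⁻¹ * ‖vec (subF v w) V‖ₑ ^ 2 + 2⁻¹ * ‖vec (subF v' w) V‖ₑ ^ 2) ∂(PP d ν) :=
        lintegral_mono hpt
    _ = 2⁻¹ * nn ν (subF v w) + 2⁻¹ * nn ν (subF v' w) := by
        rw [lintegral_add_left, lintegral_const_mul' _ _ (by simp),
          lintegral_const_mul' _ _ (by simp)]
        · rfl
        · exact (((hA.sub hw).sm.enorm).pow_const 2).const_mul _
    _ ≤ 2⁻¹ * ε + 2⁻¹ * ε := by gcongr
    _ = ε := by
        rw [← add_mul, ENNReal.inv_two_add_inv_two, one_mul]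

end bld

end Pool.Agent.R988.NQ
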