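import Pool.Agent.R988.NQ.Orth
import Pool.Agent.R988.NQ.Bld
import Pool.Agent.Y662.ERG.Dos

/-! # Conserved covariant fields are functions of the Hamiltonian on the absolutely continuous
subspace -/

set_option autoImplicit false

open MeasureTheory Filter Topology Set
open scoped ENNReal NNReal InnerProductSpace

namespace Pool.Agent.R988.NQ

open Pool.Agent.H5R2
open Pool.Agent.Y662.ERG

section offs

variable {d : ℕ} {c : ℝ} {ev : (NB.Site d → ℝ) → NB.UG (NB.L2 (NB.Site d))}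
variable {ν : Measure ℝ} [IsProbabilityMeasure ν]

/-- conserved fields preserve orthogonality to the cyclic subspaces; potentials with a constant -/
theorem orth_off (o : ℝ) (hev : ∀ ω : NB.Site d → ℝ, NB.IsGrp c (fun x => o + ω x) (ev ω))
    (hν : ∀ κ : ℝ, ν {κ} ≠ 1) {W : OF d} {β : ℝ} (hβ : 0 ≤ β) (hW : Fld β W) (sW : Sym W)
    (comm : ∀ᵐ ω ∂(NB.PP d ν), ∀ t x, W ω ((ev ω).U t x) = (ev ω).U t (W ω x)) :
    ∀ᵐ ω ∂(NB.PP d ν), ∀ z : NB.Site d, ∀ φ ∈ NBA.HAC (ev ω),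
      (∀ t, ⟪φ, (ev ω).U t (NB.dl z)⟫_ℂ = 0) →
        ⟪W ω φ, (NB.dl z : NB.L2 (NB.Site d))⟫_ℂ = 0 := by
  have hev' : ∀ V, NB.IsGrp c V (ev (shf o V)) := by
    intro V
    have h := hev (shf o V)
    have e : (fun x => o + shf o V x) = V := by
      funext x
      unfold shf
      ring
    rwa [e] at h
  set e : (NB.Site d → ℝ) ≃ᵐ (NB.Site d → ℝ) := MeasurableEquiv.addLeft (fun _ => o) with he
  have hei : ∀ ω, e ω = fun x => o + ω x := fun ω => rfl
  have hse : ∀ ω, shf o (e ω) = ω := by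
    intro ω
    rw [hei]
    funext x
    unfold shf
    ring
  have hes : ∀ V, e (shf o V) = V := by
    intro V
    rw [hei]
    funext x
    unfold shf
    ring
  have hg : Measurable (fun r : ℝ => o + r) := by fun_prop
  have hpm : IsProbabilityMeasure (ν.map fun r : ℝ => o + r) :=
    Measure.isProbabilityMeasure_map hg.aemeasurable
  have hmap : (NB.PP d ν).map e = NB.PP d (ν.map fun r : ℝ => o + r) := by
    unfold NB.PP
    exact Measure.infinitePi_map_pi (μ := fun _ : NB.Site d => ν) (fun _ => hg)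
  have hne : ∀ κ : ℝ, (ν.map fun r : ℝ => o + r) {κ} ≠ 1 := by
    intro κ
    rw [Measure.map_apply hg (measurableSet_singleton κ)]
    have : (fun r : ℝ => o + r) ⁻¹' {κ} = {κ - o} := by
      ext r
      simp only [Set.mem_preimage, Set.mem_singleton_iff]
      constructor <;> intro h <;> linarith
    rw [this]
    exact hν _
  have hsm : Measurable (shf o : (NB.Site d → ℝ) → NB.Site d → ℝ) := by
    unfold shf
    fun_prop
  have hw : Fld β (fun V => W (shf o V)) := by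
    refine ⟨fun V ψ => hW.bd _ _, fun f hf => ?_, fun z S hS V ψ => hW.cov z S hS (shf o V) ψ⟩
    have h1 := hW.meas (fun ω => f (e ω)) (hf.comp_measurable e.measurable)
    have h2 := h1.comp_measurable hsm
    have h3 : ((fun ω => W ω (f (e ω))) ∘ shf o) = fun V => W (shf o V) (f V) := by
      funext V
      show W (shf o V) (f (e (shf o V))) = W (shf o V) (f V)
      rw [hes]
    rw [← h3]
    exact h2
  have sw : Sym (fun V => W (shf o V)) := fun V f g => sW _ f g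
  have hcm : ∀ᵐ V ∂(NB.PP d (ν.map fun r : ℝ => o + r)), ∀ t x,
      W (shf o V) ((ev (shf o V)).U t x) = (ev (shf o V)).U t (W (shf o V) x) := by
    rw [← hmap, e.measurableEmbedding.ae_map_iff]
    filter_upwards [comm] with ω hω
    rw [hse]
    exact hω
  have h := orth (ν := ν.map fun r : ℝ => o + r) hev' hne hβ hw sw hcm
    (fun ε hε => approx hw sw ε hε)
  rw [← hmap, e.measurableEmbedding.ae_map_iff] at h
  filter_upwards [h] with ω hω
  rw [hse] at hω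
  exact hω

end offs

section mainc

open Pool.Agent.TH980.IM
open Pool.Agent.TH980.IM.PR

variable {d : ℕ} {ev : (NB.Site d → ℝ) → NB.UG (L2 d)}

/-- conserved covariant fields act as functions of the Hamiltonian in almost every fibre -/
theorem main_c (hd : 1 ≤ d) {K : ℝ} {ν : Measure ℝ} [IsProbabilityMeasure ν]
    (hK : ∀ᵐ r ∂ν, |r| ≤ K) (hν : ∀ r : ℝ, ν {r} ≠ 1)
    (hev : ∀ ω : NB.Site d → ℝ, NB.IsGrp (-1) (fun x => 2 * d + ω x) (ev ω))
    {W : OF d} {β : ℝ} (hβ : 0 ≤ β) (hW : Fld β W) (sW : Sym W)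
    (comm : ∀ᵐ ω ∂(NB.PP d ν), ∀ t x, W ω ((ev ω).U t x) = (ev ω).U t (W ω x)) :
    ∃ f : ℝ → ℝ, Measurable f ∧ (∀ E, |f E| ≤ β) ∧
      ∀ᵐ ω ∂(NB.PP d ν), (∀ x, |ω x| ≤ K) ∧ (∀ x, W ω (HV K ω x) = HV K ω (W ω x)) ∧
        ∀ ψ, ∀ᵐ E : ℝ, Ngl (HV K ω) E (W ω ψ - ((f E : ℝ) : ℂ) • ψ) := by
  have horth := orth_off (2 * d) hev hν hβ hW sW comm
  have hbd : ∀ᵐ ω ∂(NB.PP d ν), ∀ x, |ω x| ≤ K := by
    rw [ae_all_iff]
    intro x
    exact (measurePreserving_eval_infinitePi (fun _ : Sd d => ν) x).quasiMeasurePreserving.ae hK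
  have hsym : ∀ᵐ ω ∂(NB.PP d ν), ∀ x y, ⟪W ω x, y⟫_ℂ = ⟪x, W ω y⟫_ℂ :=
    Eventually.of_forall fun ω => sW ω
  have hnorm : ∀ᵐ ω ∂(NB.PP d ν), ‖W ω‖ ≤ β :=
    Eventually.of_forall fun ω => ContinuousLinearMap.opNorm_le_bound _ hβ (hW.bd ω)
  have hcomT : ∀ᵐ ω ∂(NB.PP d ν), ∀ x, W ω (HV K ω x) = HV K ω (W ω x) := by
    filter_upwards [comm, hbd] with ω h1 h2
    exact comm_of_Ex fun t x => by rw [← grp_Ex h2 (hev ω), h1, grp_Ex h2 (hev ω)]
  obtain ⟨h, Sg, hSg, hm, hcore⟩ := all_core (d := d) hd hK hν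
  have h5 : ∀ᵐ ω ∂(NB.PP d ν), ∀ᵐ E : ℝ,
      (∃ g : ℂ, ∀ x, Ngl (HV K ω) E (W ω (ee x) - g • ee x)) ∧
      (E ∉ Sg → ∀ x, Ngl (HV K ω) E (ee x)) ∧
      (E ∈ Sg → ∀ x, ∃ a : ℝ, 0 < a ∧
        Tendsto (fun k => qn (HV K ω) (zk k E) (ee x)) atTop (𝓝 a)) := by
    filter_upwards [hsym, comm, horth, hbd, hcore] with ω e2 e3 e1 e4 ⟨e5, e6, e7⟩
    exact per_V hd e4 (hev ω) e2 e3 e1 e5 e7 e6
  have h4 : ∀ᵐ ω ∂(NB.PP d ν), ∀ (z : Sd d) (S : L2 d →L[ℂ] L2 d), NB.IsShift (-z) S →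
      W ω (ee z) = S (vec W (Pool.Agent.TH980.IM.PR.sh z ω)) := by
    refine Eventually.of_forall fun ω z S hS => ?_
    have g3 := hW.cov (-z) S hS (fun y => ω (y + z)) (NB.dl 0)
    have e : (fun y => (fun y => ω (y + z)) (y + -z)) = ω := by
      funext y; simp
    rw [e, NB.LIMB.shift_dl z S hS] at g3
    exact g3
  obtain ⟨f, hf1, hf2, hf3⟩ := det_core hd hSg (vec W) hW.sm.aestronglyMeasurable hβ W hsym
    hcomT hnorm h4 h5
  refine ⟨f, hf1, hf2, ?_⟩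
  filter_upwards [hbd, hcomT, hf3] with ω e1 e2 e3
  refine ⟨e1, e2, fun ψ => ?_⟩
  refine fib_all (HV_sa K ω) e2 (fun E => ((f E : ℝ) : ℂ)) (Dn d) Dn_dense ?_ ψ
  rintro _ ⟨s, c, rfl⟩
  filter_upwards [e3] with E hE
  have h6 : (W ω) (∑ x ∈ s, c x • ee x) - ((f E : ℝ) : ℂ) • ∑ x ∈ s, c x • (ee x : L2 d) =
      ∑ x ∈ s, c x • ((W ω) (ee x) - ((f E : ℝ) : ℂ) • ee x) := by
    rw [map_sum, Finset.smul_sum, ← Finset.sum_sub_distrib]
    refine Finset.sum_congr rfl fun x _ => ?_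
    rw [map_smul, smul_sub, smul_comm]
  rw [h6]
  exact Ngl.sum s fun x _ => (hE x).smul _

end mainc

end Pool.Agent.R988.NQ
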