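import Pool.Agent.R988.NQ.Cyl

/-! # Averaging is a contraction towards the conserved fields -/

set_option autoImplicit false

open MeasureTheory Filter Topology
open scoped BigOperators ENNReal NNReal InnerProductSpace ComplexConjugate

namespace Pool.Agent.R988.NQ

open Pool.Agent.H5R2.NB Pool.Agent.H5R2.NBA Pool.Agent.H5R2.NB.MOM
open Pool.Agent.Y662.ERG (Obs shf)

section con

variable {d : ℕ} {c : ℝ} {ev : (Site d → ℝ) → UG (L2 (Site d))}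
variable {ν : Measure ℝ} [IsProbabilityMeasure ν]

/-- the mean square size of a field -/
noncomputable def nn (ν : Measure ℝ) [IsProbabilityMeasure ν] (A : OF d) : ℝ≥0∞ := ∫⁻ V, ‖vec A V‖ₑ ^ 2 ∂(PP d ν)

theorem nn_eq {A : OF d} {C : ℝ} (hA : Fld C A) : nn ν A = ENNReal.ofReal (tauB ν A) := by
  unfold nn tauB
  rw [integral_eq_lintegral_of_nonneg_ae (Eventually.of_forall fun V => sq_nonneg _)
    (hA.sm.norm.pow 2).aestronglyMeasurable]
  have e : ∫⁻ V, ENNReal.ofReal (‖vec A V‖ ^ 2) ∂(PP d ν) = ∫⁻ V, ‖vec A V‖ₑ ^ 2 ∂(PP d ν) := by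
    refine lintegral_congr fun V => ?_
    rw [ENNReal.ofReal_pow (norm_nonneg _), ofReal_norm]
  rw [e, ENNReal.ofReal_toReal]
  refine ne_top_of_le_ne_top (b := ENNReal.ofReal (C ^ 2)) ENNReal.ofReal_ne_top ?_
  calc ∫⁻ V, ‖vec A V‖ₑ ^ 2 ∂(PP d ν) ≤ ∫⁻ _V, ENNReal.ofReal (C ^ 2) ∂(PP d ν) := by
        refine lintegral_mono fun V => ?_
        rw [← ofReal_norm, ← ENNReal.ofReal_pow (norm_nonneg _)]
        exact ENNReal.ofReal_le_ofReal (pow_le_pow_left₀ (norm_nonneg _) (hA.nb V) 2)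
    _ = ENNReal.ofReal (C ^ 2) := by simp

theorem tau_adj {A A' : OF d} {C C' : ℝ} (hA : Fld C A) (hA' : Fld C' A') (h : Adj A A') :
    tauB ν A = tauB ν A' := by
  have h1 := trace (ν := ν) hA hA' hA hA' h h
  simp only [inner_self_eq_norm_sq_to_K] at h1
  unfold tauB
  have e : ∀ B : OF d, ∫ V, (((‖vec B V‖ : ℝ) : ℂ)) ^ 2 ∂(PP d ν) =
      ((∫ V, ‖vec B V‖ ^ 2 ∂(PP d ν) : ℝ) : ℂ) := by
    intro B
    rw [← integral_complex_ofReal]
    refine integral_congr_ae (Eventually.of_forall fun V => ?_)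
    show (((‖vec B V‖ : ℝ) : ℂ)) ^ 2 = ((‖vec B V‖ ^ 2 : ℝ) : ℂ)
    push_cast
    rfl
  have h2 : ((∫ V, ‖vec A V‖ ^ 2 ∂(PP d ν) : ℝ) : ℂ) =
      ((∫ V, ‖vec A' V‖ ^ 2 ∂(PP d ν) : ℝ) : ℂ) := by
    rw [← e, ← e]
    exact h1
  exact_mod_cast h2

theorem nn_adj {A A' : OF d} {C C' : ℝ} (hA : Fld C A) (hA' : Fld C' A') (h : Adj A A') :
    nn ν A = nn ν A' := by
  rw [nn_eq hA, nn_eq hA', tau_adj hA hA' h]

theorem obs_fld {v : OF d} {M : ℝ} (hO : Obs d v M) : Fld M v :=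
  ⟨hO.bound, fun f hf => hO.cont.comp_stronglyMeasurable (stronglyMeasurable_id.prodMk hf),
    hO.cov⟩

/-- invariance of the size under the flow -/
theorem nn_flow (hev : ∀ V, IsGrp c V (ev V)) {A : OF d} {C : ℝ} (hC : 0 ≤ C) (hA : Fld C A)
    (sA : Sym A) (s : ℝ) :
    ∫⁻ V, ‖A V ((ev V).U s (dl 0))‖ₑ ^ 2 ∂(PP d ν) = nn ν A := by
  have h1 : nn ν (mulF A (Uf ev s)) = nn ν (mulF (Uf ev (-s)) A) :=
    nn_adj (hA.mul hC (fld_U hev s)) ((fld_U hev (-s)).mul zero_le_one hA)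
      (Adj.mul sA.adj (adj_U s))
  have h2 : nn ν (mulF (Uf ev (-s)) A) = nn ν A := by
    unfold nn
    refine lintegral_congr fun V => ?_
    show ‖(ev V).U (-s) (A V (dl 0))‖ₑ ^ 2 = ‖A V (dl 0)‖ₑ ^ 2
    rw [← ofReal_norm, (ev V).norm', ofReal_norm]
  rw [← h2, ← h1]
  rfl

/-- averaging is a contraction towards the conserved fields -/
theorem contr (hev : ∀ V, IsGrp c V (ev V)) {v : OF d} {M : ℝ} (hO : Obs d v M) {w : OF d}
    {β : ℝ} (hβ : 0 ≤ β) (hw : Fld β w) (sw : Sym w)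
    (comm : ∀ᵐ V ∂(PP d ν), ∀ t x, w V ((ev V).U t x) = (ev V).U t (w V x))
    (N : ℕ) (hN : 0 < N) :
    ∫⁻ V, ‖avP (ev V) (v V) N (dl 0) - w V (dl 0)‖ₑ ^ 2 ∂(PP d ν) ≤ nn ν (subF v w) := by
  have hA : Fld (M + β) (subF v w) := (obs_fld hO).sub hw
  have sA : Sym (subF v w) := Sym.sub hO.symm sw
  have hM : 0 ≤ M := hO.nn
  have hNr : (0 : ℝ) < N := Nat.cast_pos.2 hN
  have hNc : (N : ℂ) ≠ 0 := Nat.cast_ne_zero.2 hN.ne'
  have hNe : (N : ℝ≥0∞) ≠ 0 := Nat.cast_ne_zero.2 hN.ne'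
  have hNt : (N : ℝ≥0∞) ≠ ∞ := ENNReal.natCast_ne_top N
  set k : ℝ → (Site d → ℝ) → ℝ≥0∞ := fun s V => ‖subF v w V ((ev V).U s (dl 0))‖ₑ with hk
  -- joint measurability
  have hcs : ∀ V, Continuous fun s : ℝ => (ev V).U s (dl 0 : L2 (Site d)) := by
    intro V
    have h := ALL.a_CV d c ev hev
    exact h.comp (by fun_prop : Continuous fun s : ℝ =>
      ((V, s, (dl 0 : L2 (Site d))) : (Site d → ℝ) × ℝ × L2 (Site d)))
  have hjm : StronglyMeasurable (Function.uncurry fun (s : ℝ) (V : Site d → ℝ) =>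
      subF v w V ((ev V).U s (dl 0))) := by
    refine stronglyMeasurable_uncurry_of_continuous_of_stronglyMeasurable (fun V => ?_)
      (fun s => ?_)
    · exact (subF v w V).continuous.comp (hcs V)
    · exact hA.meas _ (sm_U hev s _ stronglyMeasurable_const)
  have hk1 : Measurable fun p : ℝ × (Site d → ℝ) => k p.1 p.2 := hjm.enorm
  have hkm : Measurable fun p : (Site d → ℝ) × ℝ => k p.2 p.1 ^ 2 :=
    (hk1.comp measurable_swap).pow_const 2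
  -- the pointwise inequality
  have hpt : ∀ᵐ V ∂(PP d ν), ‖avP (ev V) (v V) N (dl 0) - w V (dl 0)‖ₑ ^ 2 ≤
      (N : ℝ≥0∞)⁻¹ * ∫⁻ s in Set.Ioc (0 : ℝ) N, k s V ^ 2 := by
    filter_upwards [comm] with V hV
    set g : ℝ → L2 (Site d) := fun s => (ev V).U (-s) (subF v w V ((ev V).U s (dl 0))) with hg
    have hgc : Continuous fun s : ℝ => (ev V).U (-s) (v V ((ev V).U s (dl 0))) :=
      LIMB.cont_P (ev V) (v V) (dl 0)
    have e1 : ∀ s, g s = (ev V).U (-s) (v V ((ev V).U s (dl 0))) - w V (dl 0) := by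
      intro s
      show (ev V).U (-s) (v V ((ev V).U s (dl 0)) - w V ((ev V).U s (dl 0))) = _
      rw [map_sub, ← hV (-s), ← (ev V).add', neg_add_cancel, (ev V).zero']
    have e2 : avP (ev V) (v V) N (dl 0) - w V (dl 0) =
        ((N : ℂ)⁻¹) • ∫ s in (0 : ℝ)..(N : ℝ), g s := by
      have e3 : ∫ s in (0 : ℝ)..(N : ℝ), g s =
          (∫ s in (0 : ℝ)..(N : ℝ), (ev V).U (-s) (v V ((ev V).U s (dl 0)))) -
            (N : ℂ) • w V (dl 0) := by
        simp only [e1]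
        rw [intervalIntegral.integral_sub (hgc.intervalIntegrable _ _)
          (continuous_const.intervalIntegrable _ _), intervalIntegral.integral_const, sub_zero]
        congr 1
      rw [e3, smul_sub, smul_smul, inv_mul_cancel₀ hNc, one_smul]
      rfl
    have e4 : ∀ s, ‖g s‖ₑ = k s V := by
      intro s
      show ‖(ev V).U (-s) (subF v w V ((ev V).U s (dl 0)))‖ₑ = _
      rw [← ofReal_norm, (ev V).norm', ofReal_norm]
    have hkV : Measurable fun s : ℝ => k s V :=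
      (((subF v w V).continuous.comp (hcs V)).enorm).measurable
    have e5 : ‖∫ s in (0 : ℝ)..(N : ℝ), g s‖ₑ ≤ ∫⁻ s in Set.Ioc (0 : ℝ) N, k s V := by
      rw [intervalIntegral.integral_of_le hNr.le]
      refine (enorm_integral_le_lintegral_enorm _).trans (le_of_eq ?_)
      exact lintegral_congr fun s => e4 s
    have e6 : (∫⁻ s in Set.Ioc (0 : ℝ) N, k s V) ^ 2 ≤
        (N : ℝ≥0∞) * ∫⁻ s in Set.Ioc (0 : ℝ) N, k s V ^ 2 := by
      refine (AVL.sq_lintegral_le _ _ hkV.aemeasurable).trans (le_of_eq ?_)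
      rw [Measure.restrict_apply MeasurableSet.univ, Set.univ_inter, Real.volume_Ioc, sub_zero,
        ENNReal.ofReal_natCast]
    rw [e2, enorm_smul, mul_pow]
    have e7 : ‖((N : ℂ)⁻¹)‖ₑ = (N : ℝ≥0∞)⁻¹ := by
      rw [enorm_inv hNc]
      congr 1
      rw [← ofReal_norm, Complex.norm_natCast, ENNReal.ofReal_natCast]
    rw [e7]
    calc ((N : ℝ≥0∞)⁻¹) ^ 2 * ‖∫ s in (0 : ℝ)..(N : ℝ), g s‖ₑ ^ 2
        ≤ ((N : ℝ≥0∞)⁻¹) ^ 2 * ((N : ℝ≥0∞) * ∫⁻ s in Set.Ioc (0 : ℝ) N, k s V ^ 2) := by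
          gcongr
          exact (pow_le_pow_left₀ zero_le e5 2).trans e6
      _ = (N : ℝ≥0∞)⁻¹ * (((N : ℝ≥0∞)⁻¹ * (N : ℝ≥0∞)) *
            ∫⁻ s in Set.Ioc (0 : ℝ) N, k s V ^ 2) := by ring
      _ = _ := by rw [ENNReal.inv_mul_cancel hNe hNt, one_mul]
  calc ∫⁻ V, ‖avP (ev V) (v V) N (dl 0) - w V (dl 0)‖ₑ ^ 2 ∂(PP d ν)
      ≤ ∫⁻ V, ((N : ℝ≥0∞)⁻¹ * ∫⁻ s in Set.Ioc (0 : ℝ) N, k s V ^ 2) ∂(PP d ν) :=
        lintegral_mono_ae hpt
    _ = (N : ℝ≥0∞)⁻¹ * ∫⁻ V, (∫⁻ s in Set.Ioc (0 : ℝ) N, k s V ^ 2) ∂(PP d ν) := by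
        rw [lintegral_const_mul' _ _ (ENNReal.inv_ne_top.2 hNe)]
    _ = (N : ℝ≥0∞)⁻¹ * ∫⁻ s in Set.Ioc (0 : ℝ) N, (∫⁻ V, k s V ^ 2 ∂(PP d ν)) := by
        congr 1
        exact lintegral_lintegral_swap (f := fun V s => k s V ^ 2) hkm.aemeasurable
    _ = (N : ℝ≥0∞)⁻¹ * ∫⁻ _s in Set.Ioc (0 : ℝ) N, nn ν (subF v w) := by
        congr 1
        exact lintegral_congr fun s => nn_flow hev (add_nonneg hM hβ) hA sA s
    _ = nn ν (subF v w) := by
        rw [lintegral_const, Measure.restrict_apply MeasurableSet.univ, Set.univ_inter,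
          Real.volume_Ioc, sub_zero, ENNReal.ofReal_natCast, mul_comm (nn ν _), ← mul_assoc,
          ENNReal.inv_mul_cancel hNe hNt, one_mul]

end con

end Pool.Agent.R988.NQ
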