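import Pool.Agent.R988.NQ.QObs

/-! # Continuous covariant local fields -/

set_option autoImplicit false

open MeasureTheory Filter Topology
open scoped BigOperators ENNReal NNReal InnerProductSpace ComplexConjugate

namespace Pool.Agent.R988.NQ

open Pool.Agent.H5R2.NB Pool.Agent.H5R2.NBA Pool.Agent.H5R2.NB.MOM
open Pool.Agent.Y662.ERG (Obs shf)

section cyl

variable {d : ℕ}

/-- continuous covariant local fields -/
structure PO (v : OF d) : Prop where
  bound : ∃ M : ℝ, 0 ≤ M ∧ ∀ V x, ‖v V x‖ ≤ M * ‖x‖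
  cont : Continuous fun p : (Site d → ℝ) × L2 (Site d) => v p.1 p.2
  cov : ∀ (z : Site d) (S : L2 (Site d) →L[ℂ] L2 (Site d)), IsShift z S →
    ∀ V ψ, v (fun y => V (y + z)) (S ψ) = S (v V ψ)
  loc : ∀ V κ, ∃ (F : Finset (Site d)) (C : ℝ), 0 ≤ C ∧ ∀ ψ : L2 (Site d),
    ‖v (Function.update V 0 κ) ψ - v V ψ‖ ≤ C * ∑ x ∈ F, ‖ψ x‖

theorem PO.add {v w : OF d} (hv : PO v) (hw : PO w) : PO (addF v w) := by
  obtain ⟨M, hM0, hM⟩ := hv.bound
  obtain ⟨N, hN0, hN⟩ := hw.bound
  refine ⟨⟨M + N, by positivity, fun V x => ?_⟩, hv.cont.add hw.cont, fun z S hS V ψ => ?_,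
    fun V κ => ?_⟩
  · rw [addF_apply, add_mul]
    exact (norm_add_le _ _).trans (add_le_add (hM V _) (hN V _))
  · rw [addF_apply, addF_apply, hv.cov z S hS, hw.cov z S hS, map_add]
  · obtain ⟨F, C, hC, h⟩ := hv.loc V κ
    obtain ⟨F', C', hC', h'⟩ := hw.loc V κ
    classical
    refine ⟨F ∪ F', C + C', by positivity, fun ψ => ?_⟩
    have e : addF v w (Function.update V 0 κ) ψ - addF v w V ψ =
        (v (Function.update V 0 κ) ψ - v V ψ) + (w (Function.update V 0 κ) ψ - w V ψ) := by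
      rw [addF_apply, addF_apply]
      abel
    rw [e, add_mul]
    refine (norm_add_le _ _).trans (add_le_add ((h ψ).trans ?_) ((h' ψ).trans ?_))
    · exact mul_le_mul_of_nonneg_left (Finset.sum_le_sum_of_subset_of_nonneg
        Finset.subset_union_left fun _ _ _ => norm_nonneg _) hC
    · exact mul_le_mul_of_nonneg_left (Finset.sum_le_sum_of_subset_of_nonneg
        Finset.subset_union_right fun _ _ _ => norm_nonneg _) hC'

theorem PO.zero : PO (fun _ => 0 : OF d) := by
  refine ⟨⟨0, le_rfl, fun V x => by simp⟩, by simpa using continuous_const,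
    fun z S hS V ψ => by simp, fun V κ => ⟨∅, 0, le_rfl, fun ψ => by simp⟩⟩

theorem PO.smul {v : OF d} (hv : PO v) (c : ℂ) : PO (fun V => c • v V) := by
  obtain ⟨M, hM0, hM⟩ := hv.bound
  refine ⟨⟨‖c‖ * M, by positivity, fun V x => ?_⟩, hv.cont.const_smul c, fun z S hS V ψ => ?_,
    fun V κ => ?_⟩
  · show ‖c • v V x‖ ≤ _
    rw [norm_smul, mul_assoc]
    exact mul_le_mul_of_nonneg_left (hM V x) (norm_nonneg _)
  · show c • v (fun y => V (y + z)) (S ψ) = S (c • v V ψ)
    rw [hv.cov z S hS, map_smul]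
  · obtain ⟨F, C, hC, h⟩ := hv.loc V κ
    refine ⟨F, ‖c‖ * C, by positivity, fun ψ => ?_⟩
    show ‖c • v (Function.update V 0 κ) ψ - c • v V ψ‖ ≤ _
    rw [← smul_sub, norm_smul, mul_assoc]
    exact mul_le_mul_of_nonneg_left (h ψ) (norm_nonneg _)

theorem shift_comm {y z : Site d} {S T : L2 (Site d) →L[ℂ] L2 (Site d)} (hS : IsShift y S)
    (hT : IsShift z T) (ψ : L2 (Site d)) : S (T ψ) = T (S ψ) := by
  ext x
  rw [hS, hT, hT, hS, add_assoc, add_comm y z, ← add_assoc]

theorem PO.left {v : OF d} (hv : PO v) {y : Site d} {S : L2 (Site d) →L[ℂ] L2 (Site d)}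
    (hS : IsShift y S) : PO (fun V => S.comp (v V)) := by
  obtain ⟨M, hM0, hM⟩ := hv.bound
  refine ⟨⟨‖S‖ * M, by positivity, fun V x => ?_⟩, S.continuous.comp hv.cont,
    fun z T hT V ψ => ?_, fun V κ => ?_⟩
  · show ‖S (v V x)‖ ≤ _
    rw [mul_assoc]
    exact (S.le_opNorm _).trans (mul_le_mul_of_nonneg_left (hM V x) (norm_nonneg _))
  · show S (v (fun y => V (y + z)) (T ψ)) = T (S (v V ψ))
    rw [hv.cov z T hT, shift_comm hS hT]
  · obtain ⟨F, C, hC, h⟩ := hv.loc V κ
    refine ⟨F, ‖S‖ * C, by positivity, fun ψ => ?_⟩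
    show ‖S (v (Function.update V 0 κ) ψ) - S (v V ψ)‖ ≤ _
    rw [← map_sub, mul_assoc]
    exact (S.le_opNorm _).trans (mul_le_mul_of_nonneg_left (h ψ) (norm_nonneg _))

theorem PO.right {v : OF d} (hv : PO v) {y : Site d} {S : L2 (Site d) →L[ℂ] L2 (Site d)}
    (hS : IsShift y S) : PO (fun V => (v V).comp S) := by
  obtain ⟨M, hM0, hM⟩ := hv.bound
  refine ⟨⟨M * ‖S‖, by positivity, fun V x => ?_⟩, ?_, fun z T hT V ψ => ?_, fun V κ => ?_⟩
  · show ‖v V (S x)‖ ≤ _
    rw [mul_assoc]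
    exact (hM V _).trans (mul_le_mul_of_nonneg_left (S.le_opNorm _) hM0)
  · exact hv.cont.comp (continuous_fst.prodMk (S.continuous.comp continuous_snd))
  · show v (fun y => V (y + z)) (S (T ψ)) = T (v V (S ψ))
    rw [shift_comm hS hT, hv.cov z T hT]
  · obtain ⟨F, C, hC, h⟩ := hv.loc V κ
    classical
    refine ⟨F.image (fun x => x + y), C, hC, fun ψ => ?_⟩
    refine (h (S ψ)).trans (le_of_eq ?_)
    rw [Finset.sum_image fun a _ b _ hab => add_right_cancel hab]
    congr 1
    exact Finset.sum_congr rfl fun x _ => by rw [hS]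

theorem PO.sum (s : Finset (Site d)) (a : Site d → OF d) (h : ∀ y, PO (a y)) :
    PO (fun V => ∑ y ∈ s, a y V) := by
  classical
  induction s using Finset.induction_on with
  | empty => simpa using PO.zero (d := d)
  | insert y s hy ih =>
    have e : (fun V => ∑ z ∈ insert y s, a z V) = addF (a y) (fun V => ∑ z ∈ s, a z V) := by
      funext V
      rw [Finset.sum_insert hy]
      rfl
    rw [e]
    exact (h y).add ih

/-- multiplication by `g` along the shifts of the potential -/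
noncomputable def mg (g : (Site d → ℝ) → ℝ) (R : ℝ) (hg : ∀ V, |g V| ≤ R) : OF d :=
  fun V => mulop (fun x => g (fun y => V (y + x))) R (fun _ => hg _)

theorem mg_apply (g : (Site d → ℝ) → ℝ) (R : ℝ) (hg : ∀ V, |g V| ≤ R) (V : Site d → ℝ)
    (ψ : L2 (Site d)) (x : Site d) :
    (mg g R hg V ψ) x = (g (fun y => V (y + x)) : ℂ) * ψ x := rfl

theorem mg_symm (g : (Site d → ℝ) → ℝ) (R : ℝ) (hg : ∀ V, |g V| ≤ R) : Sym (mg g R hg) := by
  intro V f h
  rw [lp.inner_eq_tsum, lp.inner_eq_tsum]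
  refine tsum_congr fun x => ?_
  rw [mg_apply, mg_apply, RCLike.inner_apply, RCLike.inner_apply, map_mul, Complex.conj_ofReal]
  ring

theorem PO.mg {g : (Site d → ℝ) → ℝ} {R : ℝ} (hg : ∀ V, |g V| ≤ R) (hc : Continuous g)
    {F : Finset (Site d)} (hF : ∀ V V' : Site d → ℝ, (∀ x ∈ F, V x = V' x) → g V = g V') :
    PO (mg g R hg) := by
  have hR : 0 ≤ R := (abs_nonneg _).trans (hg 0)
  refine ⟨⟨R, hR, fun V x => mulop_norm_le _ _ _ _⟩, ?_, fun z S hS V ψ => ?_, fun V κ => ?_⟩
  · rw [continuous_iff_seqContinuous]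
    intro p q hpq
    have h1 : Tendsto (fun n => (p n).1) atTop (𝓝 q.1) := (continuous_fst.tendsto _).comp hpq
    have h2 : Tendsto (fun n => (p n).2) atTop (𝓝 q.2) := (continuous_snd.tendsto _).comp hpq
    have h3 : Tendsto (fun n => Pool.Agent.R988.NQ.mg g R hg (p n).1 q.2) atTop
        (𝓝 (Pool.Agent.R988.NQ.mg g R hg q.1 q.2)) := by
      refine tendsto_dom _ _ ((R : ℂ) • q.2) (fun n x => ?_) fun x => ?_
      · exact mul_mem (fun x => g (fun y => (p n).1 (y + x))) R (fun _ => hg _) q.2 x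
      · simp only [mg_apply]
        refine Tendsto.mul_const _ ((Complex.continuous_ofReal.tendsto _).comp
          ((hc.tendsto _).comp ?_))
        rw [tendsto_pi_nhds] at h1 ⊢
        exact fun y => h1 (y + x)
    have h4 : Tendsto (fun n => Pool.Agent.R988.NQ.mg g R hg (p n).1 ((p n).2 - q.2)) atTop
        (𝓝 0) := by
      rw [tendsto_zero_iff_norm_tendsto_zero]
      have h5 : Tendsto (fun n => R * ‖(p n).2 - q.2‖) atTop (𝓝 0) := by
        have := ((h2.sub_const q.2).norm).const_mul R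
        simpa using this
      exact squeeze_zero (fun n => norm_nonneg _) (fun n => mulop_norm_le _ _ _ _) h5
    have h6 := h3.add h4
    rw [add_zero] at h6
    refine h6.congr fun n => ?_
    rw [map_sub]
    simp
  · ext x
    rw [hS, mg_apply, mg_apply, hS]
    congr 3
    funext y
    congr 1
    abel
  · classical
    refine ⟨F.image (fun x => -x), 2 * R, by positivity, fun ψ => ?_⟩
    set V' := Function.update V 0 κ with hV'
    have hz : ∀ x, x ∉ F.image (fun x => -x) →
        g (fun y => V' (y + x)) = g (fun y => V (y + x)) := by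
      intro x hx
      refine hF _ _ fun y hy => ?_
      rw [hV', Function.update_of_ne]
      intro h0
      apply hx
      rw [Finset.mem_image]
      exact ⟨y, hy, by rw [eq_neg_of_add_eq_zero_left h0, neg_neg]⟩
    have e : Pool.Agent.R988.NQ.mg g R hg V' ψ - Pool.Agent.R988.NQ.mg g R hg V ψ =
        ∑ x ∈ F.image (fun x => -x), ((((g (fun y => V' (y + x)) : ℝ) : ℂ) -
          ((g (fun y => V (y + x)) : ℝ) : ℂ)) * ψ x) • (dl x : L2 (Site d)) := by
      ext x
      have e1 : (Pool.Agent.R988.NQ.mg g R hg V' ψ - Pool.Agent.R988.NQ.mg g R hg V ψ) x =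
          (((g (fun y => V' (y + x)) : ℝ) : ℂ) - ((g (fun y => V (y + x)) : ℝ) : ℂ)) * ψ x := by
        show (Pool.Agent.R988.NQ.mg g R hg V' ψ) x - (Pool.Agent.R988.NQ.mg g R hg V ψ) x = _
        rw [mg_apply, mg_apply]
        ring
      have e3 : ∀ u : L2 (Site d), u x = ⟪(dl x : L2 (Site d)), u⟫_ℂ := fun u =>
        (STAT.inner_dl x u).symm
      rw [e1, e3 (∑ x ∈ F.image (fun x => -x), ((((g (fun y => V' (y + x)) : ℝ) : ℂ) -
          ((g (fun y => V (y + x)) : ℝ) : ℂ)) * ψ x) • (dl x : L2 (Site d))), inner_sum]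
      simp only [inner_smul_right, STAT.inner_dl]
      have e2 : ∀ z : Site d, (dl z : L2 (Site d)) x = if z = x then 1 else 0 := by
        intro z
        unfold dl
        rw [lp.single_apply, Pi.single_apply]
        simp [eq_comm]
      simp only [e2, mul_ite, mul_one, mul_zero, Finset.sum_ite_eq']
      split_ifs with hx
      · rfl
      · rw [hz x hx, sub_self, zero_mul]
    rw [e, Finset.mul_sum]
    refine (norm_sum_le _ _).trans (Finset.sum_le_sum fun x _ => ?_)
    rw [norm_smul, STAT.norm_dl, mul_one, norm_mul, ← Complex.ofReal_sub, Complex.norm_real]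
    refine mul_le_mul_of_nonneg_right ?_ (norm_nonneg _)
    refine (norm_sub_le _ _).trans ?_
    rw [Real.norm_eq_abs, Real.norm_eq_abs]
    linarith [hg (fun y => V' (y + x)), hg (fun y => V (y + x))]

/-- a continuous local covariant field is a measurable covariant field -/
theorem PO.fld {v : OF d} (hv : PO v) : ∃ M, Fld M v := by
  obtain ⟨M, hM0, hM⟩ := hv.bound
  exact ⟨M, hM, fun f hf => hv.cont.comp_stronglyMeasurable (stronglyMeasurable_id.prodMk hf),
    hv.cov⟩

/-- the symmetrization of a continuous local covariant field is an observable -/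
theorem PO.obs {v v' : OF d} (hv : PO v) (hv' : PO v') (ha : Adj v v') :
    ∃ M, Obs d (fun V => (2⁻¹ : ℂ) • (addF v v') V) M := by
  obtain ⟨M, hM0, hM⟩ := ((hv.add hv').smul 2⁻¹).bound
  refine ⟨M, fun V x y => ?_, hM, ((hv.add hv').smul 2⁻¹).cont, ((hv.add hv').smul 2⁻¹).cov,
    fun V κ => ?_⟩
  · show ⟪(2⁻¹ : ℂ) • (v V x + v' V x), y⟫_ℂ = ⟪x, (2⁻¹ : ℂ) • (v V y + v' V y)⟫_ℂ
    rw [inner_smul_left, inner_smul_right, inner_add_left, inner_add_right, ha V x y,
      ← ha.symm V x y, add_comm, map_inv₀]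
    congr 2
    exact map_ofNat _ 2
  · obtain ⟨F, C, hC, h⟩ := ((hv.add hv').smul 2⁻¹).loc V κ
    refine ⟨F, C, fun ψ => ?_⟩
    simp only [STAT.inner_dl]
    exact h ψ

end cyl

end Pool.Agent.R988.NQ
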