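import Pool.Agent.R988.NQ.GM

/-! # The environment seen from the particle -/

set_option autoImplicit false

open MeasureTheory Filter Topology Set
open scoped ENNReal NNReal InnerProductSpace ComplexConjugate

namespace Pool.Agent.R988.NQ

open Pool.Agent.TH980.IM Pool.Agent.H5R2
open Pool.Agent.Y662.ERG

section env

variable {d : ℕ}

/-- covariance -/
def CovF (A : OF d) : Prop :=
  ∀ (z : NB.Site d) (S : NB.L2 (NB.Site d) →L[ℂ] NB.L2 (NB.Site d)), NB.IsShift z S → ∀ V ψ,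
    A (fun y => V (y + z)) (S ψ) = S (A V ψ)

theorem elem_shift' {A A' : OF d} (hA' : CovF A') (h : Adj A A')
    (V : NB.Site d → ℝ) (x : NB.Site d) :
    (vec A (fun y => V (y + -x))) x = conj ((vec A' V) (-x)) := by
  obtain ⟨S, hS⟩ := (NB.t_OPS d).1 (-x)
  have h1 : S (NB.dl 0) = NB.dl x := by
    have := NB.STAT.shift_dl (-x) S hS
    rwa [neg_neg] at this
  have h2 := hA' (-x) S hS V (NB.dl 0)
  rw [h1] at h2
  unfold vec
  rw [← NB.STAT.inner_dl x, ← inner_conj_symm, h (fun y => V (y + -x)), h2, NB.STAT.inner_dl, hS,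
    zero_add]

variable {ν : Measure ℝ} [IsProbabilityMeasure ν]

/-- the trace property, almost everywhere measurable fields -/
theorem traceAE {X X' Y Y' : OF d} {M : ℝ} (bX : ∀ V, ‖vec X V‖ ≤ M) (bX' : ∀ V, ‖vec X' V‖ ≤ M)
    (bY : ∀ V, ‖vec Y V‖ ≤ M) (bY' : ∀ V, ‖vec Y' V‖ ≤ M)
    (mX : AEStronglyMeasurable (vec X) (NB.PP d ν))
    (mX' : AEStronglyMeasurable (vec X') (NB.PP d ν))
    (mY : AEStronglyMeasurable (vec Y) (NB.PP d ν))
    (mY' : AEStronglyMeasurable (vec Y') (NB.PP d ν))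
    (cX : CovF X') (cY : CovF Y') (aX : Adj X X') (aY : Adj Y Y') :
    ∫ V, ⟪vec X V, vec Y V⟫_ℂ ∂(NB.PP d ν) = ∫ V, ⟪vec Y' V, vec X' V⟫_ℂ ∂(NB.PP d ν) := by
  have mc : ∀ {h : (NB.Site d → ℝ) → L2 d} (x : NB.Site d),
      AEStronglyMeasurable h (NB.PP d ν) →
      AEStronglyMeasurable (fun ω => (h ω) x) (NB.PP d ν) := fun x hh =>
    (NB.STAT.cont_eval x).comp_aestronglyMeasurable hh
  have E1 := NB.STAT.exch (NB.PP d ν) (vec X) (vec Y) M (fun x => mc x mX) (fun x => mc x mY) bX bY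
  have E2 := NB.STAT.exch (NB.PP d ν) (vec Y') (vec X') M (fun x => mc x mY') (fun x => mc x mX')
    bY' bX'
  have key : ∀ x : NB.Site d, (∫ V, conj ((vec X V) x) * (vec Y V) x ∂(NB.PP d ν)) =
      ∫ V, conj ((vec Y' V) (-x)) * (vec X' V) (-x) ∂(NB.PP d ν) := by
    intro x
    have hmp := (NB.t_RES d ν).2 (-x)
    have hF : AEStronglyMeasurable (fun V => conj ((vec X V) x) * (vec Y V) x) (NB.PP d ν) :=
      (Complex.continuous_conj.comp_aestronglyMeasurable (mc x mX)).mul (mc x mY)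
    calc (∫ V, conj ((vec X V) x) * (vec Y V) x ∂(NB.PP d ν))
        = ∫ V, conj ((vec X V) x) * (vec Y V) x
            ∂(Measure.map (fun (V : NB.Site d → ℝ) (y : NB.Site d) => V (y + -x))
              (NB.PP d ν)) := by
          rw [hmp.map_eq]
      _ = ∫ V, conj ((vec X (fun y => V (y + -x))) x) * (vec Y (fun y => V (y + -x))) x
            ∂(NB.PP d ν) := by
          rw [integral_map hmp.measurable.aemeasurable]
          rw [hmp.map_eq]
          exact hF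
      _ = _ := by
          refine integral_congr_ae (Eventually.of_forall fun V => ?_)
          show conj ((vec X (fun y => V (y + -x))) x) * (vec Y (fun y => V (y + -x))) x =
            conj ((vec Y' V) (-x)) * (vec X' V) (-x)
          rw [elem_shift' cX aX, elem_shift' cY aY, Complex.conj_conj, mul_comm]
  have h := (Equiv.neg (NB.Site d)).hasSum_iff.mpr E2
  have e : (fun x => ∫ V, conj ((vec X V) x) * (vec Y V) x ∂(NB.PP d ν)) =
      (fun x => ∫ V, conj ((vec Y' V) x) * (vec X' V) x ∂(NB.PP d ν)) ∘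
        ⇑(Equiv.neg (NB.Site d)) := funext key
  rw [← e] at h
  exact E1.unique h

/-- multiplication by a bounded measurable function of the environment -/
theorem fld_mg {g : (NB.Site d → ℝ) → ℝ} {R : ℝ} (hg : ∀ V, |g V| ≤ R) (hm : Measurable g) :
    Fld R (mg g R hg) := by
  refine ⟨fun V ψ => NB.MOM.mulop_norm_le _ _ _ _, fun f hf => sm_coord fun x => ?_,
    fun z S hS V ψ => ?_⟩
  · simp only [mg_apply]
    have h1 : Measurable fun (V : NB.Site d → ℝ) (y : NB.Site d) => V (y + x) := by fun_prop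
    have h2 : Measurable fun V : NB.Site d → ℝ => (g (fun y => V (y + x)) : ℂ) :=
      Complex.measurable_ofReal.comp (hm.comp h1)
    exact h2.mul ((NB.STAT.cont_eval x).comp_stronglyMeasurable hf).measurable
  · ext x
    rw [hS, mg_apply, mg_apply, hS]
    congr 3
    funext y
    congr 1
    abel

theorem mg_dl {g : (NB.Site d → ℝ) → ℝ} {R : ℝ} (hg : ∀ V, |g V| ≤ R) (V : NB.Site d → ℝ) :
    mg g R hg V (NB.dl 0) = (g V : ℂ) • (NB.dl 0 : L2 d) := by
  ext x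
  show (mg g R hg V (NB.dl 0)) x = (g V : ℂ) * (NB.dl 0 : L2 d) x
  rw [mg_apply]
  by_cases hx : x = 0
  · subst hx
    simp only [add_zero]
  · have e3 : (NB.dl 0 : L2 d) x = 0 := by
      unfold NB.dl
      rw [lp.single_apply, Pi.single_apply, if_neg hx]
    rw [e3, mul_zero, mul_zero]

variable {ev : (NB.Site d → ℝ) → NB.UG (L2 d)}

/-- the environment law: the microcanonical average of a function of the environment -/
theorem env_law {K : ℝ} (hK : ∀ᵐ r ∂ν, |r| ≤ K)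
    (hev : ∀ ω : NB.Site d → ℝ, NB.IsGrp (-1) (fun x => 2 * d + ω x) (ev ω))
    {g : (NB.Site d → ℝ) → ℝ} {R : ℝ} (hg : ∀ V, |g V| ≤ R) (hm : Measurable g) (t : ℝ) :
    ∫ ω, ⟪(ev ω).U t (PA K ω (NB.dl 0)), mg g R hg ω (PA K ω (NB.dl 0))⟫_ℂ ∂(NB.PP d ν) =
      ∫ ω, (g ω : ℂ) * ⟪(ev ω).U t (PA K ω (NB.dl 0)), PA K ω (NB.dl 0)⟫_ℂ ∂(NB.PP d ν) := by
  have hR : 0 ≤ R := (abs_nonneg _).trans (hg 0)
  have hd0 : ‖(NB.dl 0 : L2 d)‖ = 1 := NB.STAT.norm_dl 0
  have hbd := bd_ae (d := d) hK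
  have hF := fld_mg hg hm
  set X : OF d := fun ω => (Ex (HV K ω) t).comp (PA K ω) with hX
  set X' : OF d := fun ω => (PA K ω).comp (Ex (HV K ω) (-t)) with hX'
  set Y : OF d := fun ω => (mg g R hg ω).comp (PA K ω) with hY
  set Y' : OF d := fun ω => (PA K ω).comp (mg g R hg ω) with hY'
  have hPn : ∀ ω (u : L2 d), ‖PA K ω u‖ ≤ ‖u‖ := fun ω u => acP_norm _ _
  have hEn : ∀ ω s (u : L2 d), ‖Ex (HV K ω) s u‖ = ‖u‖ := fun ω s u => Ex_norm (HV_sa K ω) s u
  have mP : AEStronglyMeasurable (fun ω => PA K ω (NB.dl 0 : L2 d)) (NB.PP d ν) :=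
    PA_aesm K ν aestronglyMeasurable_const
  have key := traceAE (ν := ν) (X := X) (X' := X') (Y := Y) (Y' := Y') (M := 1 + R)
    (fun V => by
      show ‖Ex (HV K V) t (PA K V (NB.dl 0))‖ ≤ 1 + R
      rw [hEn]
      exact ((hPn V _).trans hd0.le).trans (by linarith))
    (fun V => by
      show ‖PA K V (Ex (HV K V) (-t) (NB.dl 0))‖ ≤ 1 + R
      refine (hPn V _).trans ?_
      rw [hEn, hd0]
      linarith)
    (fun V => by
      show ‖mg g R hg V (PA K V (NB.dl 0))‖ ≤ 1 + R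
      refine (hF.bd V _).trans ?_
      have h1 : R * ‖PA K V (NB.dl 0 : L2 d)‖ ≤ R * 1 :=
        mul_le_mul_of_nonneg_left ((hPn V _).trans hd0.le) hR
      linarith)
    (fun V => by
      show ‖PA K V (mg g R hg V (NB.dl 0))‖ ≤ 1 + R
      refine (hPn V _).trans ((hF.bd V _).trans ?_)
      rw [hd0]
      linarith)
    (Ex_aesm hK t mP) (PA_aesm K ν (Ex_aesm hK (-t) aestronglyMeasurable_const))
    (fld_aesm hF mP) (PA_aesm K ν (fld_aesm hF aestronglyMeasurable_const))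
    (fun z S hS V ψ => by
      show PA K (Pool.Agent.TH980.IM.PR.sh z V) (Ex (HV K (Pool.Agent.TH980.IM.PR.sh z V)) (-t)
        (S ψ)) = S (PA K V (Ex (HV K V) (-t) ψ))
      rw [Ex_shift K V z hS, PA_shift K V z hS])
    (fun z S hS V ψ => by
      have h1 := hF.cov z S hS V ψ
      show PA K (Pool.Agent.TH980.IM.PR.sh z V) (mg g R hg (fun y => V (y + z)) (S ψ)) =
        S (PA K V (mg g R hg V ψ))
      rw [h1, PA_shift K V z hS])
    (fun V a b => by
      show ⟪Ex (HV K V) t (PA K V a), b⟫_ℂ = ⟪a, PA K V (Ex (HV K V) (-t) b)⟫_ℂ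
      rw [← PA_symm, Ex_adj (HV_sa K V)])
    (fun V a b => by
      show ⟪mg g R hg V (PA K V a), b⟫_ℂ = ⟪a, PA K V (mg g R hg V b)⟫_ℂ
      rw [mg_symm g R hg V, PA_symm])
  have e1 : ∫ ω, ⟪(ev ω).U t (PA K ω (NB.dl 0)), mg g R hg ω (PA K ω (NB.dl 0))⟫_ℂ ∂(NB.PP d ν) =
      ∫ V, ⟪vec X V, vec Y V⟫_ℂ ∂(NB.PP d ν) := by
    refine integral_congr_ae ?_
    filter_upwards [hbd] with ω hω
    rw [grp_Ex hω (hev ω)]
    rfl
  rw [e1, key]
  refine integral_congr_ae ?_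
  filter_upwards [hbd] with ω hω
  show ⟪PA K ω (mg g R hg ω (NB.dl 0)), PA K ω (Ex (HV K ω) (-t) (NB.dl 0))⟫_ℂ = _
  rw [mg_dl, map_smul, inner_smul_left, Complex.conj_ofReal, PA_Ex, grp_Ex hω (hev ω),
    Ex_adj (HV_sa K ω)]

/-- the expectation of a function of the environment -/
theorem mg_exp {g : (NB.Site d → ℝ) → ℝ} {R : ℝ} (hg : ∀ V, |g V| ≤ R) (V : NB.Site d → ℝ)
    (ψ : L2 d) : (⟪ψ, mg g R hg V ψ⟫_ℂ).re = ∑' x, g (fun y => V (y + x)) * ‖ψ x‖ ^ 2 := by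
  rw [lp.inner_eq_tsum]
  have e : ∀ x : NB.Site d, ⟪ψ x, (mg g R hg V ψ) x⟫_ℂ =
      ((g (fun y => V (y + x)) * ‖ψ x‖ ^ 2 : ℝ) : ℂ) := by
    intro x
    rw [mg_apply, RCLike.inner_apply, mul_assoc, Complex.mul_conj, Complex.normSq_eq_norm_sq]
    push_cast
    rfl
  simp only [e]
  rw [← Complex.ofReal_tsum, Complex.ofReal_re]

end env

end Pool.Agent.R988.NQ
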