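import Pool.Agent.R988.NQ.Gen

/-! # From almost sure covariance to covariance -/

set_option autoImplicit false

open MeasureTheory Filter Topology Set
open scoped ENNReal NNReal InnerProductSpace ComplexConjugate

namespace Pool.Agent.R988.NQ

open Pool.Agent.H5R2

section fixc

variable {d : ℕ} {ν : Measure ℝ} [IsProbabilityMeasure ν]

/-- a field which is covariant almost surely agrees almost surely with a covariant field -/
theorem fix_cov {W : OF d}
    (hm : ∀ (u : NB.L2 (NB.Site d)) (x : NB.Site d), Measurable fun V => (W V u) x)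
    (hc : ∀ᵐ V ∂(NB.PP d ν), ∀ (z : NB.Site d)
      (S : NB.L2 (NB.Site d) →L[ℂ] NB.L2 (NB.Site d)), NB.IsShift z S → ∀ ψ,
        W (fun y => V (y + z)) (S ψ) = S (W V ψ)) :
    ∃ W' : OF d, (∀ V, W' V = W V ∨ W' V = 0) ∧
      (∀ (u : NB.L2 (NB.Site d)) (x : NB.Site d), Measurable fun V => (W' V u) x) ∧
      (∀ (z : NB.Site d) (S : NB.L2 (NB.Site d) →L[ℂ] NB.L2 (NB.Site d)), NB.IsShift z S →
        ∀ V ψ, W' (fun y => V (y + z)) (S ψ) = S (W' V ψ)) ∧
      ∀ᵐ V ∂(NB.PP d ν), W' V = W V := by
  classical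
  set p : (NB.Site d → ℝ) → Prop := fun V => ∀ (z : NB.Site d)
      (S : NB.L2 (NB.Site d) →L[ℂ] NB.L2 (NB.Site d)), NB.IsShift z S → ∀ ψ,
        W (fun y => V (y + z)) (S ψ) = S (W V ψ) with hp
  obtain ⟨t, ht1, ht2, ht3⟩ := exists_measurable_superset_of_null (ae_iff.1 hc)
  set N : Set (NB.Site d → ℝ) := {V | ∀ z : NB.Site d, (fun y => V (y + z)) ∉ t} with hN
  have hNm : MeasurableSet N := by
    rw [hN, setOf_forall]
    refine MeasurableSet.iInter fun z => ?_
    have hs : Measurable fun (V : NB.Site d → ℝ) (y : NB.Site d) => V (y + z) := by fun_prop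
    exact (hs ht2).compl
  have hNae : ∀ᵐ V ∂(NB.PP d ν), V ∈ N := by
    have h1 : ∀ᵐ V ∂(NB.PP d ν), V ∉ t := by
      rw [ae_iff]
      simpa using ht3
    have h2 : ∀ᵐ V ∂(NB.PP d ν), ∀ z : NB.Site d, (fun y => V (y + z)) ∉ t := by
      rw [ae_all_iff]
      intro z
      exact ((NB.t_RES d ν).2 z).quasiMeasurePreserving.ae h1
    exact h2
  have hinv : ∀ (V : NB.Site d → ℝ) (z : NB.Site d), V ∈ N → (fun y => V (y + z)) ∈ N := by
    intro V z hV z'
    have h1 := hV (z' + z)
    have e : (fun y => V (y + (z' + z))) =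
        fun y => (fun y => V (y + z)) (y + z') := by
      funext y
      show V (y + (z' + z)) = V (y + z' + z)
      rw [add_assoc]
    rw [e] at h1
    exact h1
  have hback : ∀ (V : NB.Site d → ℝ) (z : NB.Site d), (fun y => V (y + z)) ∈ N → V ∈ N := by
    intro V z h
    have h1 := hinv (fun y => V (y + z)) (-z) h
    have e : (fun y => (fun y => V (y + z)) (y + -z)) = V := by
      funext y
      show V (y + -z + z) = V y
      rw [neg_add_cancel_right]
    rwa [e] at h1
  have hcov : ∀ V ∈ N, p V := by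
    intro V hV
    have h1 := hV 0
    have e : (fun y => V (y + 0)) = V := by
      funext y
      rw [add_zero]
    rw [e] at h1
    by_contra h2
    exact h1 (ht1 h2)
  refine ⟨fun V => if V ∈ N then W V else 0, fun V => ?_, fun u x => ?_, fun z S hS V ψ => ?_, ?_⟩
  · by_cases h : V ∈ N
    · exact Or.inl (if_pos h)
    · exact Or.inr (if_neg h)
  · have e : (fun V => ((if V ∈ N then W V else 0 : NB.L2 (NB.Site d) →L[ℂ] NB.L2 (NB.Site d)) u) x)
        = N.indicator fun V => (W V u) x := by
      funext V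
      by_cases h : V ∈ N
      · rw [if_pos h, Set.indicator_of_mem h]
      · rw [if_neg h, Set.indicator_of_notMem h]
        rfl
    rw [e]
    exact (hm u x).indicator hNm
  · show (if (fun y => V (y + z)) ∈ N then W (fun y => V (y + z)) else 0 :
        NB.L2 (NB.Site d) →L[ℂ] NB.L2 (NB.Site d)) (S ψ) =
      S ((if V ∈ N then W V else 0 : NB.L2 (NB.Site d) →L[ℂ] NB.L2 (NB.Site d)) ψ)
    by_cases h : V ∈ N
    · rw [if_pos h, if_pos (hinv V z h)]
      exact hcov V h z S hS ψ
    · rw [if_neg h, if_neg fun h' => h (hback V z h')]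
      simp
  · filter_upwards [hNae] with V hV
    exact if_pos hV

end fixc

end Pool.Agent.R988.NQ
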