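import Pool.Agent.H5R2.NB.Defs
import Pool.Agent.H5R2.NB.STAT
import Pool.Agent.H5R2.NB.LIMB
import Pool.Agent.H5R2.NB.RES
import Pool.Agent.H5R2.NB.OPS

/-! # Covariant fields of bounded operators over the random potential, and the trace property -/

set_option autoImplicit false

open MeasureTheory Filter Topology
open scoped BigOperators ENNReal NNReal InnerProductSpace ComplexConjugate

namespace Pool.Agent.R988.NQ

open Pool.Agent.H5R2.NB

variable {d : ℕ}

/-- operator fields over the potential -/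
abbrev OF (d : ℕ) : Type := (Site d → ℝ) → L2 (Site d) →L[ℂ] L2 (Site d)

/-- `A` is a covariant measurable field of operators of norm at most `C` -/
structure Fld (C : ℝ) (A : OF d) : Prop where
  bd : ∀ V ψ, ‖A V ψ‖ ≤ C * ‖ψ‖
  meas : ∀ f : (Site d → ℝ) → L2 (Site d), StronglyMeasurable f →
    StronglyMeasurable fun V => A V (f V)
  cov : ∀ (z : Site d) (S : L2 (Site d) →L[ℂ] L2 (Site d)), IsShift z S → ∀ V ψ,
    A (fun y => V (y + z)) (S ψ) = S (A V ψ)

/-- `A'` is the adjoint field of `A` -/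
def Adj (A A' : OF d) : Prop := ∀ V f g, ⟪A V f, g⟫_ℂ = ⟪f, A' V g⟫_ℂ

/-- self-adjoint field -/
def Sym (A : OF d) : Prop := ∀ V f g, ⟪A V f, g⟫_ℂ = ⟪f, A V g⟫_ℂ

theorem Adj.symm {A A' : OF d} (h : Adj A A') : Adj A' A := by
  intro V f g
  rw [← inner_conj_symm, ← h V g f, inner_conj_symm]

theorem Sym.adj {A : OF d} (h : Sym A) : Adj A A := h

/-- product of fields -/
noncomputable def mulF (A B : OF d) : OF d := fun V => (A V).comp (B V)

theorem mulF_apply (A B : OF d) (V : Site d → ℝ) (ψ : L2 (Site d)) :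
    mulF A B V ψ = A V (B V ψ) := rfl

theorem Fld.mul {A B : OF d} {C D : ℝ} (hC : 0 ≤ C) (hA : Fld C A) (hB : Fld D B) :
    Fld (C * D) (mulF A B) := by
  refine ⟨fun V ψ => ?_, fun f hf => ?_, fun z S hS V ψ => ?_⟩
  · rw [mulF_apply, mul_assoc]
    exact (hA.bd V _).trans (mul_le_mul_of_nonneg_left (hB.bd V ψ) hC)
  · exact hA.meas _ (hB.meas f hf)
  · rw [mulF_apply, mulF_apply, hB.cov z S hS, hA.cov z S hS]

theorem Adj.mul {A A' B B' : OF d} (hA : Adj A A') (hB : Adj B B') :
    Adj (mulF A B) (mulF B' A') := by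
  intro V f g
  rw [mulF_apply, mulF_apply, hA, hB]

/-- sum of fields -/
noncomputable def addF (A B : OF d) : OF d := fun V => A V + B V

theorem addF_apply (A B : OF d) (V : Site d → ℝ) (ψ : L2 (Site d)) :
    addF A B V ψ = A V ψ + B V ψ := rfl

theorem Fld.add {A B : OF d} {C D : ℝ} (hA : Fld C A) (hB : Fld D B) :
    Fld (C + D) (addF A B) := by
  refine ⟨fun V ψ => ?_, fun f hf => ?_, fun z S hS V ψ => ?_⟩
  · rw [addF_apply, add_mul]
    exact (norm_add_le _ _).trans (add_le_add (hA.bd V _) (hB.bd V _))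
  · exact (hA.meas f hf).add (hB.meas f hf)
  · rw [addF_apply, addF_apply, hA.cov z S hS, hB.cov z S hS, map_add]

theorem Sym.add {A B : OF d} (hA : Sym A) (hB : Sym B) : Sym (addF A B) := by
  intro V f g
  rw [addF_apply, addF_apply, inner_add_left, inner_add_right, hA, hB]

/-- difference of fields -/
noncomputable def subF (A B : OF d) : OF d := fun V => A V - B V

theorem subF_apply (A B : OF d) (V : Site d → ℝ) (ψ : L2 (Site d)) :
    subF A B V ψ = A V ψ - B V ψ := rfl

theorem Fld.sub {A B : OF d} {C D : ℝ} (hA : Fld C A) (hB : Fld D B) :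
    Fld (C + D) (subF A B) := by
  refine ⟨fun V ψ => ?_, fun f hf => ?_, fun z S hS V ψ => ?_⟩
  · rw [subF_apply, add_mul]
    exact (norm_sub_le _ _).trans (add_le_add (hA.bd V _) (hB.bd V _))
  · exact (hA.meas f hf).sub (hB.meas f hf)
  · rw [subF_apply, subF_apply, hA.cov z S hS, hB.cov z S hS, map_sub]

theorem Sym.sub {A B : OF d} (hA : Sym A) (hB : Sym B) : Sym (subF A B) := by
  intro V f g
  rw [subF_apply, subF_apply, inner_sub_left, inner_sub_right, hA, hB]

/-- real multiples of the identity -/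
noncomputable def idF (r : ℝ) : OF d := fun _ => (r : ℂ) • ContinuousLinearMap.id ℂ _

theorem idF_apply (r : ℝ) (V : Site d → ℝ) (ψ : L2 (Site d)) :
    idF r V ψ = (r : ℂ) • ψ := rfl

theorem fld_id (r : ℝ) : Fld |r| (idF (d := d) r) := by
  refine ⟨fun V ψ => ?_, fun f hf => ?_, fun z S hS V ψ => ?_⟩
  · rw [idF_apply, norm_smul, Complex.norm_real, Real.norm_eq_abs]
  · exact hf.const_smul (r : ℂ)
  · rw [idF_apply, idF_apply, map_smul]

theorem sym_id (r : ℝ) : Sym (idF (d := d) r) := by
  intro V f g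
  rw [idF_apply, idF_apply, inner_smul_left, inner_smul_right, Complex.conj_ofReal]

theorem fld_zero : Fld (0 : ℝ) (fun _ => 0 : OF d) := by
  refine ⟨fun V ψ => by simp, fun f hf => ?_, fun z S hS V ψ => by simp⟩
  simpa using stronglyMeasurable_const

theorem Fld.mono {A : OF d} {C D : ℝ} (h : Fld C A) (hCD : C ≤ D) : Fld D A :=
  ⟨fun V ψ => (h.bd V ψ).trans (mul_le_mul_of_nonneg_right hCD (norm_nonneg _)), h.meas, h.cov⟩

/-- the vector `A V δ₀` -/
noncomputable def vec (A : OF d) (V : Site d → ℝ) : L2 (Site d) := A V (dl 0)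

theorem Fld.sm {A : OF d} {C : ℝ} (h : Fld C A) : StronglyMeasurable (vec A) :=
  h.meas _ stronglyMeasurable_const

theorem Fld.nb {A : OF d} {C : ℝ} (h : Fld C A) (V : Site d → ℝ) : ‖vec A V‖ ≤ C := by
  have := h.bd V (dl 0)
  rwa [STAT.norm_dl, mul_one] at this

/-- matrix elements of the adjoint at a shifted potential -/
theorem elem_shift {A A' : OF d} {C' : ℝ} (hA' : Fld C' A') (h : Adj A A') (V : Site d → ℝ)
    (x : Site d) :
    (vec A (fun y => V (y + -x))) x = conj ((vec A' V) (-x)) := by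
  obtain ⟨S, hS⟩ := (t_OPS d).1 (-x)
  have h1 : S (dl 0) = dl x := by
    have := STAT.shift_dl (-x) S hS
    rwa [neg_neg] at this
  have h2 := hA'.cov (-x) S hS V (dl 0)
  rw [h1] at h2
  unfold vec
  rw [← STAT.inner_dl x, ← inner_conj_symm, h (fun y => V (y + -x)), h2, STAT.inner_dl, hS,
    zero_add]

variable {ν : Measure ℝ} [IsProbabilityMeasure ν]

instance instPP : IsProbabilityMeasure (PP d ν) := by unfold PP; infer_instance

/-- the trace property -/
theorem trace {X X' Y Y' : OF d} {A B A' B' : ℝ} (hX : Fld A X) (hX' : Fld A' X') (hY : Fld B Y)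
    (hY' : Fld B' Y') (aX : Adj X X') (aY : Adj Y Y') :
    ∫ V, ⟪vec X V, vec Y V⟫_ℂ ∂(PP d ν) = ∫ V, ⟪vec Y' V, vec X' V⟫_ℂ ∂(PP d ν) := by
  set M : ℝ := max (max A B) (max A' B') with hM
  have E1 := STAT.exch (PP d ν) (vec X) (vec Y) M
    (fun x => ((STAT.cont_eval x).comp_stronglyMeasurable hX.sm).aestronglyMeasurable)
    (fun x => ((STAT.cont_eval x).comp_stronglyMeasurable hY.sm).aestronglyMeasurable)
    (fun V => (hX.nb V).trans (by simp [hM])) (fun V => (hY.nb V).trans (by simp [hM]))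
  have E2 := STAT.exch (PP d ν) (vec Y') (vec X') M
    (fun x => ((STAT.cont_eval x).comp_stronglyMeasurable hY'.sm).aestronglyMeasurable)
    (fun x => ((STAT.cont_eval x).comp_stronglyMeasurable hX'.sm).aestronglyMeasurable)
    (fun V => (hY'.nb V).trans (by simp [hM])) (fun V => (hX'.nb V).trans (by simp [hM]))
  have key : ∀ x : Site d, (∫ V, conj ((vec X V) x) * (vec Y V) x ∂(PP d ν)) =
      ∫ V, conj ((vec Y' V) (-x)) * (vec X' V) (-x) ∂(PP d ν) := by
    intro x
    have hmp := (t_RES d ν).2 (-x)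
    have hF : AEStronglyMeasurable (fun V => conj ((vec X V) x) * (vec Y V) x) (PP d ν) := by
      refine AEStronglyMeasurable.mul ?_ ?_
      · exact Complex.continuous_conj.comp_aestronglyMeasurable
          ((STAT.cont_eval x).comp_stronglyMeasurable hX.sm).aestronglyMeasurable
      · exact ((STAT.cont_eval x).comp_stronglyMeasurable hY.sm).aestronglyMeasurable
    calc (∫ V, conj ((vec X V) x) * (vec Y V) x ∂(PP d ν))
        = ∫ V, conj ((vec X V) x) * (vec Y V) x
            ∂(Measure.map (fun (V : Site d → ℝ) (y : Site d) => V (y + -x)) (PP d ν)) := by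
          rw [hmp.map_eq]
      _ = ∫ V, conj ((vec X (fun y => V (y + -x))) x) * (vec Y (fun y => V (y + -x))) x
            ∂(PP d ν) := by
          rw [integral_map hmp.measurable.aemeasurable]
          rw [hmp.map_eq]
          exact hF
      _ = _ := by
          refine integral_congr_ae (Eventually.of_forall fun V => ?_)
          show conj ((vec X (fun y => V (y + -x))) x) * (vec Y (fun y => V (y + -x))) x =
            conj ((vec Y' V) (-x)) * (vec X' V) (-x)
          rw [elem_shift hX' aX, elem_shift hY' aY, Complex.conj_conj, mul_comm]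
  have h := (Equiv.neg (Site d)).hasSum_iff.mpr E2
  have e : (fun x => ∫ V, conj ((vec X V) x) * (vec Y V) x ∂(PP d ν)) =
      (fun x => ∫ V, conj ((vec Y' V) x) * (vec X' V) x ∂(PP d ν)) ∘ ⇑(Equiv.neg (Site d)) :=
    funext key
  rw [← e] at h
  exact E1.unique h

end Pool.Agent.R988.NQ
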