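import Pool.Agent.R988.NQ.GF

/-! # Mean square convergence of the averages of arbitrary covariant fields -/

set_option autoImplicit false

open MeasureTheory Filter Topology
open scoped BigOperators ENNReal NNReal InnerProductSpace ComplexConjugate

namespace Pool.Agent.R988.NQ

open Pool.Agent.H5R2.NB Pool.Agent.H5R2.NBA
open Pool.Agent.Y662.ERG (Obs shf)

/-- a double sequence criterion in a complete space -/
theorem metric_lim {X : Type} [MetricSpace X] [CompleteSpace X] {A B : ℕ → X}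
    (h : ∀ ε : ℝ≥0∞, 0 < ε → ∃ b : X, ∀ᶠ N in atTop, edist (A N) b ≤ ε ∧ edist (B N) b ≤ ε) :
    ∃ b : X, Tendsto A atTop (𝓝 b) ∧ Tendsto B atTop (𝓝 b) := by
  have hc : CauchySeq A := by
    rw [EMetric.cauchySeq_iff]
    intro ε hε
    obtain ⟨δ, hδ0, hδ⟩ := exists_between hε
    obtain ⟨b, hb⟩ := h (δ / 2) (ENNReal.half_pos hδ0.ne')
    obtain ⟨N, hN⟩ := eventually_atTop.1 hb
    refine ⟨N, fun m hm n hn => lt_of_le_of_lt ?_ hδ⟩
    calc edist (A m) (A n) ≤ edist (A m) b + edist b (A n) := edist_triangle _ _ _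
      _ ≤ δ / 2 + δ / 2 := add_le_add (hN m hm).1 (by rw [edist_comm]; exact (hN n hn).1)
      _ = δ := ENNReal.add_halves δ
  obtain ⟨b, hb⟩ := cauchySeq_tendsto_of_complete hc
  refine ⟨b, hb, ?_⟩
  rw [EMetric.tendsto_nhds]
  intro ε hε
  obtain ⟨δ, hδ0, hδ⟩ := exists_between hε
  have h3 : 0 < δ / 3 := ENNReal.div_pos hδ0.ne' (by simp)
  obtain ⟨b', hb'⟩ := h (δ / 3) h3
  filter_upwards [hb', (EMetric.tendsto_nhds.1 hb) (δ / 3) h3] with N ⟨h4, h5⟩ h6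
  refine lt_of_le_of_lt ?_ hδ
  calc edist (B N) b ≤ edist (B N) b' + edist b' (A N) + edist (A N) b := edist_triangle4 _ _ _ _
    _ ≤ δ / 3 + δ / 3 + δ / 3 :=
        add_le_add (add_le_add h5 (by rw [edist_comm]; exact h4)) h6.le
    _ = δ := ENNReal.add_thirds δ

section gl

variable {d : ℕ} {c : ℝ} {ev : (Site d → ℝ) → UG (L2 (Site d))}
variable {v : OF d} {M : ℝ}
variable {ν : Measure ℝ} [IsProbabilityMeasure ν]

/-- averaging is a contraction -/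
theorem contrF (hev : ∀ V, IsGrp c V (ev V)) {D : OF d} {γ : ℝ} (hD : Fld γ D) (sD : Sym D)
    (τ : ℝ → ℝ) (hτ : Continuous τ) (N : ℕ) (hN : 0 < N) :
    ∫⁻ V, ‖((N : ℂ)⁻¹) • ∫ s in (0 : ℝ)..(N : ℝ),
      (ev V).U (-τ s) (D V ((ev V).U (τ s) (dl 0)))‖ₑ ^ 2 ∂(PP d ν) ≤ nn ν D := by
  have hNr : (0 : ℝ) < N := Nat.cast_pos.2 hN
  have hNc : (N : ℂ) ≠ 0 := Nat.cast_ne_zero.2 hN.ne'
  have hNe : (N : ℝ≥0∞) ≠ 0 := Nat.cast_ne_zero.2 hN.ne'
  have hNt : (N : ℝ≥0∞) ≠ ∞ := ENNReal.natCast_ne_top N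
  set k : ℝ → (Site d → ℝ) → ℝ≥0∞ := fun s V => ‖D V ((ev V).U (τ s) (dl 0))‖ₑ with hk
  have hcs : ∀ V, Continuous fun s : ℝ => (ev V).U (τ s) (dl 0 : L2 (Site d)) := fun V =>
    ((ev V).cont' (dl 0)).comp hτ
  have hjm : StronglyMeasurable (Function.uncurry fun (s : ℝ) (V : Site d → ℝ) =>
      D V ((ev V).U (τ s) (dl 0))) := by
    refine stronglyMeasurable_uncurry_of_continuous_of_stronglyMeasurable (fun V => ?_)
      (fun s => ?_)
    · exact (D V).continuous.comp (hcs V)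
    · exact hD.meas _ (sm_U hev (τ s) _ stronglyMeasurable_const)
  have hk1 : Measurable fun p : ℝ × (Site d → ℝ) => k p.1 p.2 := hjm.enorm
  have hkm : Measurable fun p : (Site d → ℝ) × ℝ => k p.2 p.1 ^ 2 :=
    (hk1.comp measurable_swap).pow_const 2
  have hpt : ∀ V, ‖((N : ℂ)⁻¹) • ∫ s in (0 : ℝ)..(N : ℝ),
      (ev V).U (-τ s) (D V ((ev V).U (τ s) (dl 0)))‖ₑ ^ 2 ≤
      (N : ℝ≥0∞)⁻¹ * ∫⁻ s in Set.Ioc (0 : ℝ) N, k s V ^ 2 := by
    intro V
    set g : ℝ → L2 (Site d) := fun s => (ev V).U (-τ s) (D V ((ev V).U (τ s) (dl 0))) with hg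
    have e4 : ∀ s, ‖g s‖ₑ = k s V := by
      intro s
      show ‖(ev V).U (-τ s) (D V ((ev V).U (τ s) (dl 0)))‖ₑ = _
      rw [← ofReal_norm, (ev V).norm', ofReal_norm]
    have hkV : Measurable fun s : ℝ => k s V :=
      (((D V).continuous.comp (hcs V)).enorm).measurable
    have e5 : ‖∫ s in (0 : ℝ)..(N : ℝ), g s‖ₑ ≤ ∫⁻ s in Set.Ioc (0 : ℝ) N, k s V := by
      rw [intervalIntegral.integral_of_le hNr.le]
      refine (enorm_integral_le_lintegral_enorm _).trans (le_of_eq ?_)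
      exact lintegral_congr fun s => e4 s
    have e6 : (∫⁻ s in Set.Ioc (0 : ℝ) N, k s V) ^ 2 ≤
        (N : ℝ≥0∞) * ∫⁻ s in Set.Ioc (0 : ℝ) N, k s V ^ 2 := by
      refine (AVL.sq_lintegral_le _ _ hkV.aemeasurable).trans (le_of_eq ?_)
      rw [Measure.restrict_apply MeasurableSet.univ, Set.univ_inter, Real.volume_Ioc, sub_zero,
        ENNReal.ofReal_natCast]
    rw [enorm_smul, mul_pow]
    have e7 : ‖((N : ℂ)⁻¹)‖ₑ = (N : ℝ≥0∞)⁻¹ := by
      rw [enorm_inv hNc]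
      congr 1
      rw [← ofReal_norm, Complex.norm_natCast, ENNReal.ofReal_natCast]
    rw [e7]
    calc ((N : ℝ≥0∞)⁻¹) ^ 2 * ‖∫ s in (0 : ℝ)..(N : ℝ), g s‖ₑ ^ 2
        ≤ ((N : ℝ≥0∞)⁻¹) ^ 2 * ((N : ℝ≥0∞) * ∫⁻ s in Set.Ioc (0 : ℝ) N, k s V ^ 2) := by
          gcongr
          exact (pow_le_pow_left₀ zero_le e5 2).trans e6
      _ = (N : ℝ≥0∞)⁻¹ * (((N : ℝ≥0∞)⁻¹ * (N : ℝ≥0∞)) *
            ∫⁻ s in Set.Ioc (0 : ℝ) N, k s V ^ 2) := by ring
      _ = _ := by rw [ENNReal.inv_mul_cancel hNe hNt, one_mul]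
  calc ∫⁻ V, ‖((N : ℂ)⁻¹) • ∫ s in (0 : ℝ)..(N : ℝ),
        (ev V).U (-τ s) (D V ((ev V).U (τ s) (dl 0)))‖ₑ ^ 2 ∂(PP d ν)
      ≤ ∫⁻ V, ((N : ℝ≥0∞)⁻¹ * ∫⁻ s in Set.Ioc (0 : ℝ) N, k s V ^ 2) ∂(PP d ν) :=
        lintegral_mono hpt
    _ = (N : ℝ≥0∞)⁻¹ * ∫⁻ V, (∫⁻ s in Set.Ioc (0 : ℝ) N, k s V ^ 2) ∂(PP d ν) := by
        rw [lintegral_const_mul' _ _ (ENNReal.inv_ne_top.2 hNe)]
    _ = (N : ℝ≥0∞)⁻¹ * ∫⁻ s in Set.Ioc (0 : ℝ) N, (∫⁻ V, k s V ^ 2 ∂(PP d ν)) := by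
        congr 1
        exact lintegral_lintegral_swap (f := fun V s => k s V ^ 2) hkm.aemeasurable
    _ = (N : ℝ≥0∞)⁻¹ * ∫⁻ _s in Set.Ioc (0 : ℝ) N, nn ν D := by
        congr 1
        exact lintegral_congr fun s => nn_flow hev hD.nonneg hD sD (τ s)
    _ = nn ν D := by
        rw [lintegral_const, Measure.restrict_apply MeasurableSet.univ, Set.univ_inter,
          Real.volume_Ioc, sub_zero, ENNReal.ofReal_natCast, mul_comm (nn ν _), ← mul_assoc,
          ENNReal.inv_mul_cancel hNe hNt, one_mul]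

theorem avP_sub (W : UG (L2 (Site d))) (u u' : L2 (Site d) →L[ℂ] L2 (Site d)) (N : ℕ)
    (x : L2 (Site d)) :
    avP W u N x - avP W u' N x =
      ((N : ℂ)⁻¹) • ∫ s in (0 : ℝ)..(N : ℝ), W.U (-id s) ((u - u') (W.U (id s) x)) := by
  have h := Pool.Agent.Y662.ERG.av_sub W (u - u') u id continuous_id N x
  have e : u - (u - u') = u' := sub_sub_cancel u u'
  rw [e] at h
  exact h.symm

theorem avM_sub (W : UG (L2 (Site d))) (u u' : L2 (Site d) →L[ℂ] L2 (Site d)) (N : ℕ)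
    (x : L2 (Site d)) :
    avM W u N x - avM W u' N x =
      ((N : ℂ)⁻¹) • ∫ s in (0 : ℝ)..(N : ℝ), W.U (-(-s)) ((u - u') (W.U (-s) x)) := by
  have h := Pool.Agent.Y662.ERG.av_sub W (u - u') u (fun s => -s) continuous_neg N x
  have e : u - (u - u') = u' := sub_sub_cancel u u'
  rw [e] at h
  have e2 : ∀ w : L2 (Site d) →L[ℂ] L2 (Site d), avM W w N x =
      ((N : ℂ)⁻¹) • ∫ s in (0 : ℝ)..(N : ℝ), W.U (-(-s)) (w (W.U (-s) x)) := by
    intro w
    simp only [neg_neg]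
    rfl
  rw [e2, e2]
  exact h.symm

theorem e2 (g : (Site d → ℝ) → L2 (Site d)) :
    eLpNorm g 2 (PP d ν) = (∫⁻ V, ‖g V‖ₑ ^ 2 ∂(PP d ν)) ^ (1 / 2 : ℝ) := by
  rw [eLpNorm_eq_lintegral_rpow_enorm_toReal (by simp) (by simp)]
  simp

theorem e2_sq (g : (Site d → ℝ) → L2 (Site d)) :
    ∫⁻ V, ‖g V‖ₑ ^ 2 ∂(PP d ν) = (eLpNorm g 2 (PP d ν)) ^ 2 := by
  rw [e2, ← ENNReal.rpow_natCast, ← ENNReal.rpow_mul]
  norm_num

theorem e2_lim {g : ℕ → (Site d → ℝ) → L2 (Site d)} :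
    Tendsto (fun N => ∫⁻ V, ‖g N V‖ₑ ^ 2 ∂(PP d ν)) atTop (𝓝 0) ↔
      Tendsto (fun N => eLpNorm (g N) 2 (PP d ν)) atTop (𝓝 0) := by
  constructor
  · intro h
    simp only [e2]
    have h5 := (ENNReal.continuous_rpow_const (y := (1 / 2 : ℝ))).tendsto 0 |>.comp h
    have h6 : ((0 : ℝ≥0∞) ^ (1 / 2 : ℝ)) = 0 := ENNReal.zero_rpow_of_pos (by norm_num)
    rw [h6] at h5
    exact h5
  · intro h
    simp only [e2_sq]
    have h5 := (ENNReal.continuous_pow 2).tendsto 0 |>.comp h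
    simpa [Function.comp_def] using h5

theorem nn_symm (u w : OF d) : nn ν (subF u w) = nn ν (subF w u) := by
  unfold nn
  refine lintegral_congr fun V => ?_
  show ‖u V (dl 0) - w V (dl 0)‖ₑ ^ 2 = ‖w V (dl 0) - u V (dl 0)‖ₑ ^ 2
  rw [← ofReal_norm, norm_sub_rev, ofReal_norm]

theorem memP (hev : ∀ V, IsGrp c V (ev V)) (hA : Fld M v) (N : ℕ) :
    MemLp (fun V => avP (ev V) (v V) N (dl 0)) 2 (PP d ν) := by
  refine MemLp.of_bound (sm_avF hev hA N _ stronglyMeasurable_const).aestronglyMeasurable M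
    (Eventually.of_forall fun V => ?_)
  have h := (LIMB.norm_PL (ev V) (v V) N (dl 0)).trans
    (mul_le_mul_of_nonneg_right (hA.opn V) (norm_nonneg _))
  rwa [STAT.norm_dl, mul_one] at h

theorem memM (hev : ∀ V, IsGrp c V (ev V)) (hA : Fld M v) (N : ℕ) :
    MemLp (fun V => avM (ev V) (v V) N (dl 0)) 2 (PP d ν) := by
  refine MemLp.of_bound (sm_avMF hev hA N _ stronglyMeasurable_const).aestronglyMeasurable M
    (Eventually.of_forall fun V => ?_)
  have h := (LIMB.norm_ML (ev V) (v V) N (dl 0)).trans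
    (mul_le_mul_of_nonneg_right (hA.opn V) (norm_nonneg _))
  rwa [STAT.norm_dl, mul_one] at h

/-- mean square convergence -/
theorem limaF (hev : ∀ V, IsGrp c V (ev V)) (hA : Fld M v) (sA : Sym v) :
    ∃ b : (Site d → ℝ) → L2 (Site d), AEStronglyMeasurable b (PP d ν) ∧
      Tendsto (fun N : ℕ => ∫⁻ V, ‖avP (ev V) (v V) N (dl 0) - b V‖ₑ ^ 2 ∂(PP d ν)) atTop
        (𝓝 0) ∧
      Tendsto (fun N : ℕ => ∫⁻ V, ‖avM (ev V) (v V) N (dl 0) - b V‖ₑ ^ 2 ∂(PP d ν)) atTop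
        (𝓝 0) := by
  set A : ℕ → Lp (L2 (Site d)) 2 (PP d ν) := fun N => (memP (ν := ν) hev hA N).toLp _ with hAd
  set B : ℕ → Lp (L2 (Site d)) 2 (PP d ν) := fun N => (memM (ν := ν) hev hA N).toLp _ with hBd
  have key : ∀ ε : ℝ≥0∞, 0 < ε → ∃ b : Lp (L2 (Site d)) 2 (PP d ν), ∀ᶠ N in atTop,
      edist (A N) b ≤ ε ∧ edist (B N) b ≤ ε := by
    intro ε hε
    have hη : 0 < (ε / 2) ^ 2 := ENNReal.pow_pos (ENNReal.half_pos hε.ne') 2
    obtain ⟨u, R, hO, hu⟩ := approx (ν := ν) hA sA ((ε / 2) ^ 2) hη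
    obtain ⟨b, hb, hP, hM⟩ := Pool.Agent.Y662.ERG.lima hev hO ν
    have hP' : Tendsto (fun N : ℕ => eLpNorm
        (fun V => avP (ev V) (u V) N (dl 0) - b V) 2 (PP d ν)) atTop (𝓝 0) := e2_lim.1 hP
    have hM' : Tendsto (fun N : ℕ => eLpNorm
        (fun V => avM (ev V) (u V) N (dl 0) - b V) 2 (PP d ν)) atTop (𝓝 0) := e2_lim.1 hM
    have hfu : Fld R u := obs_fld hO
    have hbL : MemLp b 2 (PP d ν) := by
      obtain ⟨N, hN⟩ := ((tendsto_order.1 hP').2 1 zero_lt_one).exists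
      have h1 := memP (ν := ν) hev hfu N
      have h2 : MemLp (fun V => avP (ev V) (u V) N (dl 0) - b V) 2 (PP d ν) :=
        ⟨h1.1.sub hb, hN.trans ENNReal.one_lt_top⟩
      have h3 := h1.sub h2
      refine h3.ae_eq (Eventually.of_forall fun V => ?_)
      show avP (ev V) (u V) N (dl 0) - (avP (ev V) (u V) N (dl 0) - b V) = b V
      rw [sub_sub_cancel]
    have hhalf : ∀ x : ℝ≥0∞, x ≤ (ε / 2) ^ 2 → x ^ (1 / 2 : ℝ) ≤ ε / 2 := by
      intro x hx
      calc x ^ (1 / 2 : ℝ) ≤ ((ε / 2) ^ 2) ^ (1 / 2 : ℝ) :=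
            ENNReal.rpow_le_rpow hx (by norm_num)
        _ = ε / 2 := by
            rw [← ENNReal.rpow_natCast, ← ENNReal.rpow_mul]
            norm_num
    have hD : Fld (M + R) (subF v u) := hA.sub hfu
    have sD : Sym (subF v u) := Sym.sub sA hO.symm
    have hnD : nn ν (subF v u) ≤ (ε / 2) ^ 2 := by
      rw [nn_symm]
      exact hu
    refine ⟨hbL.toLp b, ?_⟩
    filter_upwards [(tendsto_order.1 hP').2 (ε / 2) (ENNReal.half_pos hε.ne'),
      (tendsto_order.1 hM').2 (ε / 2) (ENNReal.half_pos hε.ne'), eventually_gt_atTop 0]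
      with N h1 h2 hN
    constructor
    · rw [hAd]
      show edist ((memP (ν := ν) hev hA N).toLp _) (hbL.toLp b) ≤ ε
      rw [Lp.edist_toLp_toLp]
      have h3 : eLpNorm (fun V => avP (ev V) (v V) N (dl 0) - avP (ev V) (u V) N (dl 0)) 2
          (PP d ν) ≤ ε / 2 := by
        rw [e2]
        refine hhalf _ (le_trans (le_of_eq ?_) ((contrF (ν := ν) hev hD sD id continuous_id
          N hN).trans hnD))
        refine lintegral_congr fun V => ?_
        rw [avP_sub]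
        rfl
      have h4 : (fun V => avP (ev V) (v V) N (dl 0)) - b =
          (fun V => avP (ev V) (v V) N (dl 0) - avP (ev V) (u V) N (dl 0)) +
            fun V => avP (ev V) (u V) N (dl 0) - b V := by
        funext V
        show avP (ev V) (v V) N (dl 0) - b V =
          (avP (ev V) (v V) N (dl 0) - avP (ev V) (u V) N (dl 0)) +
            (avP (ev V) (u V) N (dl 0) - b V)
        abel
      rw [h4]
      refine (eLpNorm_add_le ?_ ?_ (by norm_num)).trans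
        ((add_le_add h3 h1.le).trans_eq (ENNReal.add_halves ε))
      · exact (memP (ν := ν) hev hA N).1.sub (memP (ν := ν) hev hfu N).1
      · exact (memP (ν := ν) hev hfu N).1.sub hb
    · rw [hBd]
      show edist ((memM (ν := ν) hev hA N).toLp _) (hbL.toLp b) ≤ ε
      rw [Lp.edist_toLp_toLp]
      have h3 : eLpNorm (fun V => avM (ev V) (v V) N (dl 0) - avM (ev V) (u V) N (dl 0)) 2
          (PP d ν) ≤ ε / 2 := by
        rw [e2]
        refine hhalf _ (le_trans (le_of_eq ?_) ((contrF (ν := ν) hev hD sD (fun s => -s)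
          continuous_neg N hN).trans hnD))
        refine lintegral_congr fun V => ?_
        rw [avM_sub]
        rfl
      have h4 : (fun V => avM (ev V) (v V) N (dl 0)) - b =
          (fun V => avM (ev V) (v V) N (dl 0) - avM (ev V) (u V) N (dl 0)) +
            fun V => avM (ev V) (u V) N (dl 0) - b V := by
        funext V
        show avM (ev V) (v V) N (dl 0) - b V =
          (avM (ev V) (v V) N (dl 0) - avM (ev V) (u V) N (dl 0)) +
            (avM (ev V) (u V) N (dl 0) - b V)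
        abel
      rw [h4]
      refine (eLpNorm_add_le ?_ ?_ (by norm_num)).trans
        ((add_le_add h3 h2.le).trans_eq (ENNReal.add_halves ε))
      · exact (memM (ν := ν) hev hA N).1.sub (memM (ν := ν) hev hfu N).1
      · exact (memM (ν := ν) hev hfu N).1.sub hb
  obtain ⟨b, hb1, hb2⟩ := metric_lim key
  have hbb : (Lp.memLp b).toLp b = b := Lp.toLp_coeFn b (Lp.memLp b)
  refine ⟨b, (Lp.memLp b).1, e2_lim.2 ?_, e2_lim.2 ?_⟩
  · have h1 := tendsto_iff_edist_tendsto_0.1 hb1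
    refine h1.congr fun N => ?_
    conv_lhs => rw [← hbb]
    exact Lp.edist_toLp_toLp _ _ _ _
  · have h1 := tendsto_iff_edist_tendsto_0.1 hb2
    refine h1.congr fun N => ?_
    conv_lhs => rw [← hbb]
    exact Lp.edist_toLp_toLp _ _ _ _

end gl

end Pool.Agent.R988.NQ
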