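import Pool.Agent.R988.NQ.GQ

/-! # The microcanonical formula for arbitrary covariant fields -/

set_option autoImplicit false

open MeasureTheory Filter Topology Set
open scoped ENNReal NNReal InnerProductSpace ComplexConjugate

namespace Pool.Agent.R988.NQ

open Pool.Agent.TH980.IM Pool.Agent.H5R2
open Pool.Agent.Y662.ERG
open Pool.Agent.TH980.IM.PR

section gm

variable {d : ℕ} {v : OF d} {M : ℝ}
  {ev : (NB.Site d → ℝ) → NB.UG (L2 d)}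

theorem fld_aesm (hO : Fld M v) {ν : Measure ℝ} [IsProbabilityMeasure ν]
    {h : (NB.Site d → ℝ) → L2 d}
    (hh : AEStronglyMeasurable h (NB.PP d ν)) :
    AEStronglyMeasurable (fun ω => v ω (h ω)) (NB.PP d ν) := by
  obtain ⟨h', h1, h2⟩ := hh
  refine ⟨fun ω => v ω (h' ω), hO.meas h' h1, ?_⟩
  filter_upwards [h2] with ω hω
  rw [hω]

/-- cyclicity of the trace per unit volume -/
theorem cycF {K : ℝ} {ν : Measure ℝ} [IsProbabilityMeasure ν] (hK : ∀ᵐ r ∂ν, |r| ≤ K)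
    (hO : Fld M v) (sO : Sym v) (t s : ℝ) :
    ∫ ω, ⟪Ex (HV K ω) t (Ex (HV K ω) s (PA K ω (NB.dl 0))),
        v ω (Ex (HV K ω) s (PA K ω (NB.dl 0)))⟫_ℂ ∂(NB.PP d ν) =
      ∫ ω, ⟪Ex (HV K ω) t (PA K ω (NB.dl 0)), v ω (PA K ω (NB.dl 0))⟫_ℂ ∂(NB.PP d ν) := by
  have hPP : IsProbabilityMeasure (NB.PP d ν) := by unfold NB.PP; infer_instance
  set P := NB.PP d ν with hP
  set Z : (NB.Site d → ℝ) → L2 d → L2 d :=
    fun ω x => PA K ω (Ex (HV K ω) (-t) (v ω (PA K ω x))) with hZ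
  set Z' : (NB.Site d → ℝ) → L2 d → L2 d :=
    fun ω x => PA K ω (v ω (Ex (HV K ω) t (PA K ω x))) with hZ'
  have hZZ : ∀ ω x y, ⟪x, Z ω y⟫_ℂ = ⟪Z' ω x, y⟫_ℂ := by
    intro ω x y
    have h1 := Ex_adj (HV_sa K ω) t (PA K ω x) (v ω (PA K ω y))
    simp only [hZ, hZ']
    rw [← PA_symm, ← h1, ← sO ω, PA_symm]
  have hn : ∀ ω x, ‖Z ω x‖ ≤ M * ‖x‖ := by
    intro ω x
    refine (acP_norm _ _).trans ?_
    rw [Ex_norm (HV_sa K ω)]
    exact (hO.bd ω _).trans (mul_le_mul_of_nonneg_left (acP_norm _ _) hO.nonneg)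
  have hn' : ∀ ω x, ‖Z' ω x‖ ≤ M * ‖x‖ := by
    intro ω x
    refine (acP_norm _ _).trans ?_
    refine (hO.bd ω _).trans (mul_le_mul_of_nonneg_left ?_ hO.nonneg)
    rw [Ex_norm (HV_sa K ω)]
    exact acP_norm _ _
  have hcov : ∀ (z : NB.Site d) (S : L2 d →L[ℂ] L2 d), NB.IsShift z S → ∀ ω x,
      Z (Pool.Agent.TH980.IM.PR.sh z ω) (S x) = S (Z ω x) := by
    intro z S hS ω x
    simp only [hZ]
    have h1 := hO.cov z S hS ω (PA K ω x)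
    have h2 : v (Pool.Agent.TH980.IM.PR.sh z ω) (S (PA K ω x)) = S (v ω (PA K ω x)) := h1
    rw [PA_shift K ω z hS, h2, Ex_shift K ω z hS, PA_shift K ω z hS]
  -- measurability
  have mE : ∀ (r : ℝ) {h : (NB.Site d → ℝ) → L2 d}, AEStronglyMeasurable h P →
      AEStronglyMeasurable (fun ω => Ex (HV K ω) r (h ω)) P := fun r h hh => Ex_aesm hK r hh
  have mP : ∀ {h : (NB.Site d → ℝ) → L2 d}, AEStronglyMeasurable h P →
      AEStronglyMeasurable (fun ω => PA K ω (h ω)) P := fun hh => PA_aesm K ν hh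
  have mv : ∀ {h : (NB.Site d → ℝ) → L2 d}, AEStronglyMeasurable h P →
      AEStronglyMeasurable (fun ω => v ω (h ω)) P := fun hh => fld_aesm hO hh
  have mZ : ∀ {h : (NB.Site d → ℝ) → L2 d}, AEStronglyMeasurable h P →
      AEStronglyMeasurable (fun ω => Z ω (h ω)) P := fun hh => mP (mE _ (mv (mP hh)))
  have mZ' : ∀ {h : (NB.Site d → ℝ) → L2 d}, AEStronglyMeasurable h P →
      AEStronglyMeasurable (fun ω => Z' ω (h ω)) P := fun hh => mP (mv (mE _ (mP hh)))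
  have mc : ∀ {h : (NB.Site d → ℝ) → L2 d} (x : NB.Site d), AEStronglyMeasurable h P →
      AEStronglyMeasurable (fun ω => (h ω) x) P := fun x hh =>
    (NB.STAT.cont_eval x).comp_aestronglyMeasurable hh
  set f1 : (NB.Site d → ℝ) → L2 d := fun ω => Ex (HV K ω) s (NB.dl 0) with hf1
  set g1 : (NB.Site d → ℝ) → L2 d := fun ω => Z ω (Ex (HV K ω) s (NB.dl 0)) with hg1
  set f2 : (NB.Site d → ℝ) → L2 d := fun ω => Ex (HV K ω) (-s) (Z' ω (NB.dl 0)) with hf2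
  set g2 : (NB.Site d → ℝ) → L2 d := fun ω => Ex (HV K ω) (-s) (NB.dl 0) with hg2
  have hd0 : ‖(NB.dl 0 : L2 d)‖ = 1 := NB.STAT.norm_dl 0
  have mf1 : AEStronglyMeasurable f1 P := mE s aestronglyMeasurable_const
  have mg1 : AEStronglyMeasurable g1 P := mZ mf1
  have mf2 : AEStronglyMeasurable f2 P := mE (-s) (mZ' aestronglyMeasurable_const)
  have mg2 : AEStronglyMeasurable g2 P := mE (-s) aestronglyMeasurable_const
  have hM := hO.nonneg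
  have bf1 : ∀ ω, ‖f1 ω‖ ≤ 1 + M := fun ω => by
    simp only [hf1]
    rw [Ex_norm (HV_sa K ω), hd0]; linarith
  have bg2 : ∀ ω, ‖g2 ω‖ ≤ 1 + M := fun ω => by
    simp only [hg2]
    rw [Ex_norm (HV_sa K ω), hd0]; linarith
  have bg1 : ∀ ω, ‖g1 ω‖ ≤ 1 + M := fun ω => by
    simp only [hg1]
    refine (hn ω _).trans ?_
    rw [Ex_norm (HV_sa K ω), hd0]; linarith
  have bf2 : ∀ ω, ‖f2 ω‖ ≤ 1 + M := fun ω => by
    simp only [hf2]
    rw [Ex_norm (HV_sa K ω)]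
    refine (hn' ω _).trans ?_
    rw [hd0]; linarith
  have E1 := NB.STAT.exch P f1 g1 (1 + M) (fun x => mc x mf1) (fun x => mc x mg1) bf1 bg1
  have E2 := NB.STAT.exch P f2 g2 (1 + M) (fun x => mc x mf2) (fun x => mc x mg2) bf2 bg2
  have key : ∀ x : NB.Site d, (∫ ω, conj ((f1 ω) x) * (g1 ω) x ∂P) =
      ∫ ω, conj ((f2 ω) (-x)) * (g2 ω) (-x) ∂P := by
    intro x
    obtain ⟨S, hS⟩ := (NB.t_OPS d).1 x
    have hmp := (NB.t_RES d ν).2 x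
    set F : (NB.Site d → ℝ) → ℂ := fun ω => conj ((Ex (HV K ω) s (NB.dl (-x))) 0) *
      (Z ω (Ex (HV K ω) s (NB.dl (-x)))) 0 with hF
    have mF : AEStronglyMeasurable F P := by
      have m1 : AEStronglyMeasurable (fun ω => Ex (HV K ω) s (NB.dl (-x) : L2 d)) P :=
        mE s aestronglyMeasurable_const
      exact (Complex.continuous_conj.comp_aestronglyMeasurable (mc 0 m1)).mul (mc 0 (mZ m1))
    have e1 : ∀ ω, conj ((f1 ω) x) * (g1 ω) x = F (fun y => ω (y + x)) := by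
      intro ω
      have a1 : Ex (HV K (Pool.Agent.TH980.IM.PR.sh x ω)) s (NB.dl (-x)) = S (f1 ω) := by
        rw [← NB.STAT.shift_dl x S hS, Ex_shift K ω x hS]
      have a2 : (Ex (HV K (Pool.Agent.TH980.IM.PR.sh x ω)) s (NB.dl (-x))) 0 = (f1 ω) x := by
        rw [a1, hS, zero_add]
      have a3 : (Z (Pool.Agent.TH980.IM.PR.sh x ω) (Ex (HV K (Pool.Agent.TH980.IM.PR.sh x ω)) s (NB.dl (-x)))) 0 = (g1 ω) x := by
        rw [a1, hcov x S hS, hS, zero_add]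
      show _ = conj ((Ex (HV K (Pool.Agent.TH980.IM.PR.sh x ω)) s (NB.dl (-x))) 0) *
        (Z (Pool.Agent.TH980.IM.PR.sh x ω) (Ex (HV K (Pool.Agent.TH980.IM.PR.sh x ω)) s (NB.dl (-x)))) 0
      rw [a2, a3]
    have e2 : ∀ ω, F ω = conj ((f2 ω) (-x)) * (g2 ω) (-x) := by
      intro ω
      have hadj : ∀ a b : L2 d, ⟪a, Ex (HV K ω) s b⟫_ℂ = ⟪Ex (HV K ω) (-s) a, b⟫_ℂ := by
        intro a b
        have h := Ex_adj (HV_sa K ω) (-s) a b
        rw [neg_neg] at h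
        exact h.symm
      have a1 : (Ex (HV K ω) s (NB.dl (-x))) 0 = conj ((g2 ω) (-x)) := by
        rw [← NB.STAT.inner_dl 0, hadj, NB.STAT.inner_dl']
      have a2 : (Z ω (Ex (HV K ω) s (NB.dl (-x)))) 0 = conj ((f2 ω) (-x)) := by
        rw [← NB.STAT.inner_dl 0, hZZ, hadj, NB.STAT.inner_dl']
      show conj ((Ex (HV K ω) s (NB.dl (-x))) 0) * (Z ω (Ex (HV K ω) s (NB.dl (-x)))) 0 = _
      rw [a1, a2, Complex.conj_conj, mul_comm]
    calc (∫ ω, conj ((f1 ω) x) * (g1 ω) x ∂P)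
        = ∫ ω, F (fun y => ω (y + x)) ∂P := by simp_rw [e1]
      _ = ∫ ω, F ω ∂(Measure.map (fun (ω : NB.Site d → ℝ) (y : NB.Site d) => ω (y + x)) P) := by
          rw [integral_map hmp.measurable.aemeasurable]
          rw [hmp.map_eq]
          exact mF
      _ = ∫ ω, F ω ∂P := by rw [hmp.map_eq]
      _ = _ := by simp_rw [e2]
  have E3 : HasSum (fun x => ∫ ω, conj ((f1 ω) x) * (g1 ω) x ∂P)
      (∫ ω, ⟪f2 ω, g2 ω⟫_ℂ ∂P) := by
    have h := (Equiv.neg (NB.Site d)).hasSum_iff.mpr E2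
    have e : (fun x => ∫ ω, conj ((f1 ω) x) * (g1 ω) x ∂P) =
        (fun x => ∫ ω, conj ((f2 ω) x) * (g2 ω) x ∂P) ∘ ⇑(Equiv.neg (NB.Site d)) :=
      funext key
    rw [e]
    exact h
  have E4 := E1.unique E3
  have hin : ∀ ω u, ⟪Ex (HV K ω) t (PA K ω u), v ω (PA K ω u)⟫_ℂ = ⟪u, Z ω u⟫_ℂ := by
    intro ω u
    simp only [hZ]
    rw [← PA_symm, Ex_adj (HV_sa K ω)]
  have L : ∀ ω, ⟪Ex (HV K ω) t (Ex (HV K ω) s (PA K ω (NB.dl 0))),
        v ω (Ex (HV K ω) s (PA K ω (NB.dl 0)))⟫_ℂ = ⟪f1 ω, g1 ω⟫_ℂ := by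
    intro ω
    rw [← PA_Ex]
    exact hin ω _
  have R : ∀ ω, ⟪Ex (HV K ω) t (PA K ω (NB.dl 0)), v ω (PA K ω (NB.dl 0))⟫_ℂ =
      ⟪f2 ω, g2 ω⟫_ℂ := by
    intro ω
    rw [hin, hZZ]
    exact (Ex_inner (HV_sa K ω) (-s) _ _).symm
  simp_rw [L, R]
  exact E4

/-- the microcanonical formula -/
theorem micF {K : ℝ} {ν : Measure ℝ} [IsProbabilityMeasure ν] (hK : ∀ᵐ r ∂ν, |r| ≤ K)
    (hev : ∀ ω : NB.Site d → ℝ, NB.IsGrp (-1) (fun x => 2 * d + ω x) (ev ω))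
    (hO : Fld M v) (sO : Sym v) {B : OF d}
    (hconv : ∀ᵐ ω ∂(NB.PP d ν), ∀ x, Tendsto (fun N : ℕ => NB.avP (ev ω) (v ω) N x) atTop
      (𝓝 (B ω x))) (t : ℝ) :
    ∫ ω, ⟪(ev ω).U t (PA K ω (NB.dl 0)), v ω (PA K ω (NB.dl 0))⟫_ℂ ∂(NB.PP d ν) =
      ∫ ω, ⟪(ev ω).U t (PA K ω (NB.dl 0)), B ω (PA K ω (NB.dl 0))⟫_ℂ ∂(NB.PP d ν) := by
  have hPP : IsProbabilityMeasure (NB.PP d ν) := by unfold NB.PP; infer_instance
  set P := NB.PP d ν with hP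
  set p : (NB.Site d → ℝ) → L2 d := fun ω => PA K ω (NB.dl 0) with hp
  have hd0 : ‖(NB.dl 0 : L2 d)‖ = 1 := NB.STAT.norm_dl 0
  have mp : AEStronglyMeasurable p P := PA_aesm K ν aestronglyMeasurable_const
  have hp1 : ∀ ω, ‖p ω‖ ≤ 1 := fun ω => (acP_norm _ _).trans hd0.le
  obtain ⟨p1, hp1m, hp1e⟩ := mp
  set p' : (NB.Site d → ℝ) → L2 d := {ω | ‖p1 ω‖ ≤ 1}.indicator p1 with hp'
  have hp'm : StronglyMeasurable p' :=
    hp1m.indicator (measurableSet_le hp1m.norm.measurable measurable_const)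
  have hp'1 : ∀ ω, ‖p' ω‖ ≤ 1 := by
    intro ω
    by_cases h : ω ∈ {ω | ‖p1 ω‖ ≤ 1}
    · rw [hp', Set.indicator_of_mem h]
      exact h
    · rw [hp', Set.indicator_of_notMem h, norm_zero]
      exact zero_le_one
  have hp'e : ∀ᵐ ω ∂P, p ω = p' ω := by
    filter_upwards [hp1e] with ω hω
    have h : ω ∈ {ω | ‖p1 ω‖ ≤ 1} := by
      show ‖p1 ω‖ ≤ 1
      rw [← hω]
      exact hp1 ω
    rw [hp', Set.indicator_of_mem h, hω]
  have hM := hO.nonneg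
  have hUm : ∀ (r : ℝ) {f : (NB.Site d → ℝ) → L2 d}, StronglyMeasurable f →
      StronglyMeasurable fun ω => (ev ω).U r (f ω) := fun r f hf =>
    (ev_cont hev).comp_stronglyMeasurable
      (stronglyMeasurable_id.prodMk ((stronglyMeasurable_const (b := r)).prodMk hf))
  set Φ : (NB.Site d → ℝ) → ℝ → ℂ :=
    fun ω s => ⟪(ev ω).U t (p' ω), (ev ω).U (-s) (v ω ((ev ω).U s (p' ω)))⟫_ℂ with hΦ
  have hF : ∀ ω s, ‖(ev ω).U (-s) (v ω ((ev ω).U s (p' ω)))‖ ≤ M := fun ω s => by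
    rw [(ev ω).norm']
    refine (hO.bd ω _).trans ?_
    rw [(ev ω).norm']
    calc M * ‖p' ω‖ ≤ M * 1 := mul_le_mul_of_nonneg_left (hp'1 ω) hM
      _ = M := mul_one M
  have hq1 : ∀ ω, ‖(ev ω).U t (p' ω)‖ ≤ 1 := fun ω => by
    rw [(ev ω).norm']
    exact hp'1 ω
  have hΦb : ∀ ω s, ‖Φ ω s‖ ≤ M := by
    intro ω s
    refine (norm_inner_le_norm _ _).trans ?_
    calc ‖(ev ω).U t (p' ω)‖ * ‖(ev ω).U (-s) (v ω ((ev ω).U s (p' ω)))‖ ≤ 1 * M :=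
          mul_le_mul (hq1 ω) (hF ω _) (norm_nonneg _) zero_le_one
      _ = M := one_mul M
  have hΦj : StronglyMeasurable (Function.uncurry fun (s : ℝ) (ω : NB.Site d → ℝ) => Φ ω s) := by
    refine stronglyMeasurable_uncurry_of_continuous_of_stronglyMeasurable (fun ω => ?_)
      (fun s => ?_)
    · exact continuous_const.inner (NB.LIMB.cont_P (ev ω) (v ω) (p' ω))
    · exact (hUm t hp'm).inner (hUm (-s) (hO.meas _ (hUm s hp'm)))
  have hΦm : StronglyMeasurable (Function.uncurry Φ) := hΦj.comp_measurable measurable_swap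
  -- the expectations
  set G0 : ℂ := ∫ ω, ⟪(ev ω).U t (p ω), v ω (p ω)⟫_ℂ ∂P with hG0
  have hbd := bd_ae (d := d) hK
  have hG : ∀ s : ℝ, ∫ ω, Φ ω s ∂P = G0 := by
    intro s
    have e1 := cycF hK hO sO t s
    have e2 : ∫ ω, Φ ω s ∂P =
        ∫ ω, ⟪Ex (HV K ω) t (Ex (HV K ω) s (PA K ω (NB.dl 0))),
        v ω (Ex (HV K ω) s (PA K ω (NB.dl 0)))⟫_ℂ ∂P := by
      refine integral_congr_ae ?_
      filter_upwards [hbd, hp'e] with ω hω hpe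
      have g := grp_Ex hω (hev ω)
      show ⟪(ev ω).U t (p' ω), (ev ω).U (-s) (v ω ((ev ω).U s (p' ω)))⟫_ℂ = _
      rw [← hpe, g, g, g]
      have h1 := Ex_adj (HV_sa K ω) s (Ex (HV K ω) t (p ω)) (v ω (Ex (HV K ω) s (p ω)))
      rw [← h1, ← Ex_add, add_comm, Ex_add]
    have e3 : G0 = ∫ ω, ⟪Ex (HV K ω) t (PA K ω (NB.dl 0)), v ω (PA K ω (NB.dl 0))⟫_ℂ ∂P := by
      refine integral_congr_ae ?_
      filter_upwards [hbd] with ω hω
      rw [grp_Ex hω (hev ω)]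
    rw [e2, e3]
    exact e1
  set F : ℕ → (NB.Site d → ℝ) → ℂ := fun N ω => (N : ℂ)⁻¹ * ∫ s in (0 : ℝ)..(N : ℝ), Φ ω s
    with hFd
  have hFe : ∀ N ω, F N ω = ⟪(ev ω).U t (p' ω), NB.avP (ev ω) (v ω) N (p' ω)⟫_ℂ := by
    intro N ω
    unfold NB.avP
    rw [inner_smul_right]
    show (N : ℂ)⁻¹ * _ = (N : ℂ)⁻¹ * _
    congr 1
    have h := ContinuousLinearMap.intervalIntegral_comp_comm (innerSL ℂ ((ev ω).U t (p' ω)))
      ((NB.LIMB.cont_P (ev ω) (v ω) (p' ω)).intervalIntegrable (μ := volume) (0 : ℝ) (N : ℝ))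
    exact h
  have hN : ∀ N : ℕ, 0 < N → ∫ ω, F N ω ∂P = G0 := by
    intro N hN
    have hN' : (N : ℂ) ≠ 0 := by exact_mod_cast hN.ne'
    show ∫ ω, ((N : ℂ)⁻¹ * ∫ s in (0 : ℝ)..(N : ℝ), Φ ω s) ∂P = G0
    rw [integral_const_mul]
    have hΦi : Integrable (Function.uncurry Φ) (P.prod (volume.restrict (Ioc (0 : ℝ) N))) :=
      Integrable.of_bound hΦm.aestronglyMeasurable M (ae_of_all _ fun z => hΦb z.1 z.2)
    have h0N : (0 : ℝ) ≤ N := Nat.cast_nonneg N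
    have e2 : ∫ ω, (∫ s in (0 : ℝ)..(N : ℝ), Φ ω s) ∂P =
        ∫ s in (0 : ℝ)..(N : ℝ), (∫ ω, Φ ω s ∂P) := by
      simp_rw [intervalIntegral.integral_of_le h0N]
      exact integral_integral_swap hΦi
    rw [e2]
    simp_rw [hG]
    rw [intervalIntegral.integral_const, sub_zero]
    show (N : ℂ)⁻¹ * (((N : ℝ) : ℂ) * G0) = G0
    rw [← mul_assoc]
    have : (((N : ℝ) : ℂ)) = (N : ℂ) := by simp
    rw [this, inv_mul_cancel₀ hN', one_mul]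
  have hlim : Tendsto (fun N : ℕ => ∫ ω, F N ω ∂P) atTop
      (𝓝 (∫ ω, ⟪(ev ω).U t (p' ω), B ω (p' ω)⟫_ℂ ∂P)) := by
    refine tendsto_integral_of_dominated_convergence (fun _ => M) (fun N => ?_)
      (integrable_const _) (fun N => ?_) ?_
    · have h1 : StronglyMeasurable fun ω => ∫ s in Ioc (0 : ℝ) N, Φ ω s := hΦm.integral_prod_right
      have h2 : (F N) = fun ω => (N : ℂ)⁻¹ * ∫ s in Ioc (0 : ℝ) N, Φ ω s := by
        funext ω
        show (N : ℂ)⁻¹ * (∫ s in (0 : ℝ)..(N : ℝ), Φ ω s) = _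
        rw [intervalIntegral.integral_of_le (Nat.cast_nonneg N)]
      rw [h2]
      exact (h1.const_mul _).aestronglyMeasurable
    · refine ae_of_all _ fun ω => ?_
      rw [hFe]
      refine (norm_inner_le_norm _ _).trans ?_
      have h3 : ‖NB.avP (ev ω) (v ω) N (p' ω)‖ ≤ M :=
        NB.LIMB.norm_avg _ M (fun s => hF ω s) N
      calc ‖(ev ω).U t (p' ω)‖ * ‖NB.avP (ev ω) (v ω) N (p' ω)‖ ≤ 1 * M :=
            mul_le_mul (hq1 ω) h3 (norm_nonneg _) zero_le_one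
        _ = M := one_mul M
    · filter_upwards [hconv] with ω hω
      simp only [hFe]
      exact tendsto_const_nhds.inner (hω (p' ω))
  have h1 : Tendsto (fun N : ℕ => ∫ ω, F N ω ∂P) atTop (𝓝 G0) := by
    refine tendsto_const_nhds.congr' ?_
    filter_upwards [eventually_gt_atTop 0] with N hN'
    exact (hN N hN').symm
  rw [tendsto_nhds_unique h1 hlim]
  refine integral_congr_ae ?_
  filter_upwards [hp'e] with ω hω
  rw [← hω]

/-- the complete main theorem -/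
theorem main_sym (hd : 1 ≤ d) {K : ℝ} {ν : Measure ℝ} [IsProbabilityMeasure ν]
    (hK : ∀ᵐ r ∂ν, |r| ≤ K) (hν : ∀ r : ℝ, ν {r} ≠ 1)
    (hev : ∀ ω : NB.Site d → ℝ, NB.IsGrp (-1) (fun x => 2 * d + ω x) (ev ω)) :
    ∃ κ : Measure ℝ, IsFiniteMeasure κ ∧ κ ≪ volume ∧
      (∀ t : ℝ, ∫ ω, ⟪PA K ω (NB.dl 0), (ev ω).U t (PA K ω (NB.dl 0))⟫_ℂ ∂(NB.PP d ν) =
        ∫ E : ℝ, Complex.exp (-(Complex.I * t * E)) ∂κ) ∧
      ∀ (v : OF d) (M : ℝ), Fld M v → Sym v →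
      ∃ (f : ℝ → ℝ) (B : OF d), Measurable f ∧ (∀ E, |f E| ≤ M) ∧
      (∀ᵐ ω ∂(NB.PP d ν), ∀ x, Tendsto (fun N : ℕ => NB.avP (ev ω) (v ω) N x) atTop
        (𝓝 (B ω x))) ∧
      (∀ᵐ ω ∂(NB.PP d ν), (∀ x, |ω x| ≤ K) ∧ (∀ x, B ω (HV K ω x) = HV K ω (B ω x)) ∧
        ∀ ψ, ∀ᵐ E : ℝ, Ngl (HV K ω) E (B ω ψ - ((f E : ℝ) : ℂ) • ψ)) ∧
      ∀ t : ℝ, ∫ ω, ⟪(ev ω).U t (PA K ω (NB.dl 0)), v ω (PA K ω (NB.dl 0))⟫_ℂ ∂(NB.PP d ν) =
        ∫ E : ℝ, Complex.exp (Complex.I * t * E) * f E ∂κ := by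
  obtain ⟨κ, hκ1, hκ2, hκ⟩ := dos (d := d) K ν
  have hbd := bd_ae (d := d) hK
  refine ⟨κ, hκ1, hκ2, fun t => ?_, fun v M hO sO => ?_⟩
  · rw [← hκ (fun E => Complex.exp (-(Complex.I * t * E))) (by fun_prop)
      ⟨1, fun E => by rw [Complex.norm_exp]; simp⟩]
    refine integral_congr_ae ?_
    filter_upwards [hbd] with ω hω
    rw [grp_Ex hω (hev ω), Ex_spm (HV_sa K ω)]
  · obtain ⟨B, hB1, hB2, hB3, hB4⟩ := erg_off (ν := ν) (2 * d) hev hO sO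
    obtain ⟨f, hf1, hf2, hB⟩ := main_c hd hK hν hev hO.nonneg hB1 hB2
      (Eventually.of_forall fun ω => hB3 ω)
    refine ⟨f, B, hf1, hf2, hB4, hB, fun t => ?_⟩
    rw [micF hK hev hO sO hB4 t, ← hκ (fun E => Complex.exp (Complex.I * t * E) * f E)
      (by fun_prop) ⟨M, fun E => by
        rw [norm_mul, Complex.norm_exp, Complex.norm_real]
        have : (Complex.I * t * E).re = 0 := by simp
        rw [this, Real.exp_zero, one_mul]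
        exact hf2 E⟩]
    refine integral_congr_ae ?_
    filter_upwards [hB] with ω ⟨h1, h2, h3⟩
    rw [grp_Ex h1 (hev ω)]
    exact inner_of_ngl (HV_sa K ω) h2 hf1 hf2 h3 (acP_ac _ _) t

end gm

end Pool.Agent.R988.NQ
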