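import Pool.Agent.R988.NQ.GL

/-! # The ergodic theorem for arbitrary covariant fields -/

set_option autoImplicit false

open MeasureTheory Filter Topology
open scoped BigOperators ENNReal NNReal InnerProductSpace ComplexConjugate

namespace Pool.Agent.R988.NQ

open Pool.Agent.H5R2.NB Pool.Agent.H5R2.NBA
open Pool.Agent.Y662.ERG (Obs shf)

section gq

variable {d : ℕ} {c : ℝ} {ev : (Site d → ℝ) → UG (L2 (Site d))}
variable {v : OF d} {M : ℝ}
variable {ν : Measure ℝ} [IsProbabilityMeasure ν]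

open LIMB in
/-- subsequences: the averages converge strongly, almost surely -/
theorem lim2F (hev : ∀ V, IsGrp c V (ev V)) (hA : Fld M v) (sA : Sym v) :
    ∃ b : (Site d → ℝ) → L2 (Site d), AEStronglyMeasurable b (PP d ν) ∧
      Tendsto (fun N : ℕ => ∫⁻ V, ‖avP (ev V) (v V) N (dl 0) - b V‖ₑ ^ 2 ∂(PP d ν)) atTop
        (𝓝 0) ∧
      ∃ a : ℕ → ℕ, StrictMono a ∧
        ∀ᵐ V ∂(PP d ν), ∃ B : L2 (Site d) →L[ℂ] L2 (Site d), Good (ev V) (v V) a B ∧
          B (dl 0) = b V := by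
  obtain ⟨b, hb, hP, hM⟩ := limaF (ν := ν) hev hA sA
  refine ⟨b, hb, hP, ?_⟩
  have hfP : ∀ N, AEMeasurable (fun V => ‖avP (ev V) (v V) N (dl 0) - b V‖ₑ ^ 2) (PP d ν) :=
    fun N => (((sm_avF hev hA N (fun _ => dl 0) stronglyMeasurable_const).aestronglyMeasurable).sub
      hb).enorm.pow_const 2
  have hfM : ∀ N, AEMeasurable (fun V => ‖avM (ev V) (v V) N (dl 0) - b V‖ₑ ^ 2) (PP d ν) :=
    fun N => (((sm_avMF hev hA N (fun _ => dl 0) stronglyMeasurable_const).aestronglyMeasurable).sub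
      hb).enorm.pow_const 2
  have hPM := hP.add hM
  rw [add_zero] at hPM
  obtain ⟨a, hmono, hNk⟩ := extraction_forall_of_eventually
    (P := fun n k => (∫⁻ V, ‖avP (ev V) (v V) k (dl 0) - b V‖ₑ ^ 2 ∂(PP d ν)) +
      (∫⁻ V, ‖avM (ev V) (v V) k (dl 0) - b V‖ₑ ^ 2 ∂(PP d ν)) < (2⁻¹ : ℝ≥0∞) ^ n)
    (fun n => (tendsto_order.1 hPM).2 _ (by
      refine ENNReal.pow_pos ?_ n
      simp))
  refine ⟨a, hmono, ?_⟩
  -- almost sure convergence at the origin
  have hfS : ∀ n, AEMeasurable (fun V => ‖avP (ev V) (v V) (a n) (dl 0) - b V‖ₑ ^ 2 +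
      ‖avM (ev V) (v V) (a n) (dl 0) - b V‖ₑ ^ 2) (PP d ν) := fun n =>
    (hfP (a n)).add (hfM (a n))
  have hsum : ∫⁻ V, ∑' n, (‖avP (ev V) (v V) (a n) (dl 0) - b V‖ₑ ^ 2 +
      ‖avM (ev V) (v V) (a n) (dl 0) - b V‖ₑ ^ 2) ∂(PP d ν) ≠ ∞ := by
    rw [lintegral_tsum hfS]
    have hle : ∑' n, ∫⁻ V, (‖avP (ev V) (v V) (a n) (dl 0) - b V‖ₑ ^ 2 +
        ‖avM (ev V) (v V) (a n) (dl 0) - b V‖ₑ ^ 2) ∂(PP d ν) ≤
          ∑' n : ℕ, (2⁻¹ : ℝ≥0∞) ^ n := by
      refine ENNReal.tsum_le_tsum fun n => ?_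
      rw [lintegral_add_left' (hfP (a n))]
      exact (hNk n).le
    refine ne_top_of_le_ne_top ?_ hle
    rw [ENNReal.tsum_geometric]
    simp
  have hae := ae_lt_top' (AEMeasurable.tsum hfS) hsum
  have hG : ∀ᵐ V ∂(PP d ν), Tendsto (fun n => avP (ev V) (v V) (a n) (dl 0)) atTop (𝓝 (b V)) ∧
      Tendsto (fun n => avM (ev V) (v V) (a n) (dl 0)) atTop (𝓝 (b V)) := by
    filter_upwards [hae] with V hV
    have h0 := ENNReal.tendsto_atTop_zero_of_tsum_ne_top hV.ne
    constructor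
    · refine tendsto_of_enorm_sq (tendsto_of_tendsto_of_tendsto_of_le_of_le tendsto_const_nhds h0
        (fun _ => zero_le) fun n => ?_)
      exact le_self_add
    · refine tendsto_of_enorm_sq (tendsto_of_tendsto_of_tendsto_of_le_of_le tendsto_const_nhds h0
        (fun _ => zero_le) fun n => ?_)
      exact le_add_self
  have hGz : ∀ᵐ V ∂(PP d ν), ∀ z : Site d,
      Tendsto (fun n => avP (ev fun y => V (y + z)) (v fun y => V (y + z)) (a n) (dl 0)) atTop
        (𝓝 (b fun y => V (y + z))) ∧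
      Tendsto (fun n => avM (ev fun y => V (y + z)) (v fun y => V (y + z)) (a n) (dl 0)) atTop
        (𝓝 (b fun y => V (y + z))) := by
    rw [ae_all_iff]
    intro z
    exact ((t_RES d ν).2 z).quasiMeasurePreserving.ae hG
  filter_upwards [hGz, hG] with V hV hV0
  have hlim : ∀ (z : Site d) (S : L2 (Site d) →L[ℂ] L2 (Site d)), IsShift (-z) S →
      Tendsto (fun k => PL (ev V) (v V) (a k) (dl z)) atTop (𝓝 (S (b fun y => V (y + z)))) ∧
      Tendsto (fun k => ML (ev V) (v V) (a k) (dl z)) atTop (𝓝 (S (b fun y => V (y + z)))) := by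
    intro z S hS
    obtain ⟨T, hT⟩ := (t_OPS d).1 z
    have hinv : ∀ ψ, S (T ψ) = ψ := fun ψ => by
      ext x
      rw [hS, hT, neg_add_cancel_right]
    constructor
    · have := (S.continuous.tendsto _).comp (hV z).1
      refine this.congr fun k => ?_
      rw [PL_apply]
      have e := avP_conjF (z := z) hev hA hT hS V (a k) (dl 0)
      show S (avP (ev fun y => V (y + z)) (v fun y => V (y + z)) (a k) (dl 0)) = _
      rw [e, hinv, LIMB.shift_dl z S hS]
    · have := (S.continuous.tendsto _).comp (hV z).2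
      refine this.congr fun k => ?_
      rw [ML_apply]
      have e := avM_conjF (z := z) hev hA hT hS V (a k) (dl 0)
      show S (avM (ev fun y => V (y + z)) (v fun y => V (y + z)) (a k) (dl 0)) = _
      rw [e, hinv, LIMB.shift_dl z S hS]
  obtain ⟨B, hB⟩ := ext_lim (fun k => PL (ev V) (v V) (a k)) (fun k => ML (ev V) (v V) (a k))
    ‖v V‖ (norm_nonneg _) (fun k => norm_PL (ev V) (v V) (a k))
    (fun k => norm_ML (ev V) (v V) (a k))
    (Site d) dl (dl_dense d) (fun z => by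
      obtain ⟨S, hS⟩ := (t_OPS d).1 (-z)
      exact ⟨_, hlim z S hS⟩)
  exact ⟨B, hB, tendsto_nhds_unique (hB (dl 0)).1 hV0.1⟩

/-- the ergodic theorem -/
theorem erg (hev : ∀ V, IsGrp c V (ev V)) (hA : Fld M v) (sA : Sym v) :
    ∃ B : OF d, Fld M B ∧ Sym B ∧ (∀ V t x, B V ((ev V).U t x) = (ev V).U t (B V x)) ∧
      ∀ᵐ V ∂(PP d ν), ∀ x, Tendsto (fun N : ℕ => avP (ev V) (v V) N x) atTop (𝓝 (B V x)) := by
  obtain ⟨b, hb, hP, a, ha, hG⟩ := lim2F (ν := ν) hev hA sA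
  have hNk : Tendsto a atTop atTop := ha.tendsto_atTop
  have hB : ∀ᵐ V ∂(PP d ν), wFO ev v a V (dl 0) = b V := by
    filter_upwards [hG] with V ⟨B, hB1, hB2⟩
    rw [wFO_eq hB1, hB2]
  refine ⟨wFO ev v a, fld_wFF hev hA hNk, sym_wFF sA a, fun V t x => comm_wFO hNk V t x, ?_⟩
  refine quenchF (ν := ν) hev hA sA hA.nonneg (fld_wFF hev hA hNk) (sym_wFF sA a)
    (fun V t x => comm_wFO hNk V t x) ?_
  refine hP.congr fun N => ?_
  refine lintegral_congr_ae ?_
  filter_upwards [hB] with V hV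
  rw [hV]

theorem fld_shf {W : OF d} {β : ℝ} (hW : Fld β W) (o : ℝ) : Fld β (fun V => W (shf o V)) := by
  have hsm : Measurable (shf o : (Site d → ℝ) → Site d → ℝ) := by
    unfold shf
    fun_prop
  have hse : Measurable (fun (V : Site d → ℝ) (x : Site d) => V x + o) := by fun_prop
  refine ⟨fun V ψ => hW.bd _ _, fun f hf => ?_, fun z S hS V ψ => hW.cov z S hS (shf o V) ψ⟩
  have h1 := hW.meas (fun ω => f (fun x => ω x + o)) (hf.comp_measurable hse)
  have h2 := h1.comp_measurable hsm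
  have h3 : ((fun ω => W ω (f (fun x => ω x + o))) ∘ shf o) = fun V => W (shf o V) (f V) := by
    funext V
    show W (shf o V) (f (fun x => shf o V x + o)) = W (shf o V) (f V)
    have : (fun x => shf o V x + o) = V := by
      funext x
      unfold shf
      ring
    rw [this]
  rw [← h3]
  exact h2

/-- the ergodic theorem for potentials with a constant -/
theorem erg_off (o : ℝ) (hev : ∀ ω : Site d → ℝ, IsGrp c (fun x => o + ω x) (ev ω))
    (hA : Fld M v) (sA : Sym v) :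
    ∃ B : OF d, Fld M B ∧ Sym B ∧ (∀ V t x, B V ((ev V).U t x) = (ev V).U t (B V x)) ∧
      ∀ᵐ V ∂(PP d ν), ∀ x, Tendsto (fun N : ℕ => avP (ev V) (v V) N x) atTop (𝓝 (B V x)) := by
  have hev' : ∀ V, IsGrp c V (ev (shf o V)) := by
    intro V
    have h := hev (shf o V)
    have e : (fun x => o + shf o V x) = V := by
      funext x
      unfold shf
      ring
    rwa [e] at h
  set e : (Site d → ℝ) ≃ᵐ (Site d → ℝ) := MeasurableEquiv.addLeft (fun _ : Site d => o) with he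
  have hei : ∀ ω, e ω = shf (-o) ω := by
    intro ω
    funext x
    unfold shf
    show o + ω x = ω x - -o
    ring
  have hse : ∀ ω, shf o (e ω) = ω := by
    intro ω
    rw [hei]
    funext x
    unfold shf
    ring
  have hg : Measurable (fun r : ℝ => o + r) := by fun_prop
  have hpm : IsProbabilityMeasure (ν.map fun r : ℝ => o + r) :=
    Measure.isProbabilityMeasure_map hg.aemeasurable
  have hmap : (PP d ν).map e = PP d (ν.map fun r : ℝ => o + r) := by
    unfold PP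
    exact Measure.infinitePi_map_pi (μ := fun _ : Site d => ν) (fun _ => hg)
  obtain ⟨B, hB1, hB2, hB3, hB4⟩ := erg (ν := ν.map fun r : ℝ => o + r) hev' (fld_shf hA o)
    (fun V f g => sA _ f g)
  refine ⟨fun V => B (shf (-o) V), fld_shf hB1 (-o), fun V f g => hB2 _ f g, fun V t x => ?_, ?_⟩
  · have h := hB3 (e V) t x
    rw [hse, hei] at h
    exact h
  · rw [← hmap, e.measurableEmbedding.ae_map_iff] at hB4
    filter_upwards [hB4] with ω hω x
    have h := hω x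
    rw [hse, hei] at h
    exact h

theorem avP_add (W : UG (L2 (Site d))) (u u' : L2 (Site d) →L[ℂ] L2 (Site d)) (z : ℂ) (N : ℕ)
    (x : L2 (Site d)) : avP W (u + z • u') N x = avP W u N x + z • avP W u' N x := by
  have hi : ∀ w : L2 (Site d) →L[ℂ] L2 (Site d), IntervalIntegrable
      (fun s : ℝ => W.U (-s) (w (W.U s x))) volume 0 (N : ℝ) := fun w =>
    (LIMB.cont_P W w x).intervalIntegrable _ _
  have e1 : ∫ s in (0 : ℝ)..(N : ℝ), W.U (-s) ((u + z • u') (W.U s x)) =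
      (∫ s in (0 : ℝ)..(N : ℝ), W.U (-s) (u (W.U s x))) +
        z • ∫ s in (0 : ℝ)..(N : ℝ), W.U (-s) (u' (W.U s x)) := by
    have hz : IntervalIntegrable (fun s : ℝ => z • W.U (-s) (u' (W.U s x))) volume 0 (N : ℝ) :=
      (hi u').smul z
    rw [← intervalIntegral.integral_smul, ← intervalIntegral.integral_add (hi u) hz]
    refine intervalIntegral.integral_congr fun s _ => ?_
    show W.U (-s) (u (W.U s x) + z • u' (W.U s x)) = _
    rw [map_add, map_smul]
  show ((N : ℂ)⁻¹) • ∫ s in (0 : ℝ)..(N : ℝ), W.U (-s) ((u + z • u') (W.U s x)) =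
    ((N : ℂ)⁻¹) • (∫ s in (0 : ℝ)..(N : ℝ), W.U (-s) (u (W.U s x))) +
      z • (((N : ℂ)⁻¹) • ∫ s in (0 : ℝ)..(N : ℝ), W.U (-s) (u' (W.U s x)))
  rw [e1, smul_add, smul_comm]

/-- the ergodic theorem for all bounded measurable covariant fields -/
theorem erg_gen (o : ℝ) (hev : ∀ ω : Site d → ℝ, IsGrp c (fun x => o + ω x) (ev ω))
    {W : OF d} (hb : ∀ V ψ, ‖W V ψ‖ ≤ M * ‖ψ‖)
    (hm : ∀ (u : L2 (Site d)) (x : Site d), Measurable fun V => (W V u) x)
    (hc : ∀ (z : Site d) (S : L2 (Site d) →L[ℂ] L2 (Site d)), IsShift z S → ∀ V ψ,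
      W (fun y => V (y + z)) (S ψ) = S (W V ψ)) :
    ∃ (B : OF d) (R : ℝ), (∀ V ψ, ‖B V ψ‖ ≤ R * ‖ψ‖) ∧
      (∀ (u : L2 (Site d)) (x : Site d), Measurable fun V => (B V u) x) ∧
      (∀ (z : Site d) (S : L2 (Site d) →L[ℂ] L2 (Site d)), IsShift z S → ∀ V ψ,
        B (fun y => V (y + z)) (S ψ) = S (B V ψ)) ∧
      (∀ V t x, B V ((ev V).U t x) = (ev V).U t (B V x)) ∧
      ∀ᵐ V ∂(PP d ν), ∀ x, Tendsto (fun N : ℕ => avP (ev V) (W V) N x) atTop (𝓝 (B V x)) := by
  obtain ⟨hW, hW'⟩ := flds hb hm hc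
  have hA : Fld (‖(2⁻¹ : ℂ)‖ * (M + M)) (reF W) := (hW.add hW').smul 2⁻¹
  have hB : Fld (‖(-(Complex.I * 2⁻¹) : ℂ)‖ * (M + M)) (imF W) :=
    (hW.sub hW').smul (-(Complex.I * 2⁻¹))
  obtain ⟨B1, p1, p2, p3, p4⟩ := erg_off (ν := ν) o hev hA (sym_re W)
  obtain ⟨B2, q1, q2, q3, q4⟩ := erg_off (ν := ν) o hev hB (sym_im W)
  have hF : Fld (‖(2⁻¹ : ℂ)‖ * (M + M) + ‖Complex.I‖ * (‖(-(Complex.I * 2⁻¹) : ℂ)‖ * (M + M)))
      (addF B1 (fun V => Complex.I • B2 V)) := p1.add (q1.smul Complex.I)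
  refine ⟨addF B1 (fun V => Complex.I • B2 V), _, hF.bd, fun u x => ?_, hF.cov,
    fun V t x => ?_, ?_⟩
  · exact ((STAT.cont_eval x).comp_stronglyMeasurable
      (hF.meas _ stronglyMeasurable_const)).measurable
  · show B1 V ((ev V).U t x) + Complex.I • B2 V ((ev V).U t x) =
      (ev V).U t (B1 V x + Complex.I • B2 V x)
    rw [p3, q3, map_add, map_smul]
  · filter_upwards [p4, q4] with V h1 h2 x
    have h3 := (h1 x).add ((h2 x).const_smul Complex.I)
    refine h3.congr fun N => ?_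
    rw [← avP_add]
    congr 1
    refine ContinuousLinearMap.ext fun y => ?_
    exact (re_im W V y).symm

end gq

end Pool.Agent.R988.NQ
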