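import Pool.Agent.R988.NQ.Opf

/-! # General conserved covariant fields, and projections -/

set_option autoImplicit false

open MeasureTheory Filter Topology Set
open scoped ENNReal NNReal InnerProductSpace ComplexConjugate

namespace Pool.Agent.R988.NQ

open Pool.Agent.H5R2
open Pool.Agent.Y662.ERG
open Pool.Agent.TH980.IM
open Pool.Agent.TH980.IM.PR

section gen2

variable {d : ℕ} {ev : (NB.Site d → ℝ) → NB.UG (L2 d)}

theorem comm_adj {W : OF d} {ω : NB.Site d → ℝ}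
    (h : ∀ t x, W ω ((ev ω).U t x) = (ev ω).U t (W ω x)) (t : ℝ) (x : L2 d) :
    adjF W ω ((ev ω).U t x) = (ev ω).U t (adjF W ω x) := by
  refine ext_inner_left ℂ fun φ => ?_
  have h1 : ∀ (s : ℝ) (a b : L2 d), ⟪(ev ω).U s a, b⟫_ℂ = ⟪a, (ev ω).U (-s) b⟫_ℂ :=
    fun s a b => adj_U (ev := ev) s ω a b
  have h2 : ∀ (s : ℝ) (a b : L2 d), ⟪a, (ev ω).U s b⟫_ℂ = ⟪(ev ω).U (-s) a, b⟫_ℂ := by
    intro s a b
    rw [h1, neg_neg]
  rw [adjF_right, h2, ← h, h2, adjF_right]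

/-- every bounded conserved covariant field acts as a function of the Hamiltonian -/
theorem main_gen (hd : 1 ≤ d) {K : ℝ} {ν : Measure ℝ} [IsProbabilityMeasure ν]
    (hK : ∀ᵐ r ∂ν, |r| ≤ K) (hν : ∀ r : ℝ, ν {r} ≠ 1)
    (hev : ∀ ω : NB.Site d → ℝ, NB.IsGrp (-1) (fun x => 2 * d + ω x) (ev ω))
    {W : OF d} {M : ℝ} (hb : ∀ V ψ, ‖W V ψ‖ ≤ M * ‖ψ‖)
    (hm : ∀ (u : L2 d) (x : NB.Site d), Measurable fun V => (W V u) x)
    (hc : ∀ (z : NB.Site d) (S : L2 d →L[ℂ] L2 d), NB.IsShift z S → ∀ V ψ,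
      W (fun y => V (y + z)) (S ψ) = S (W V ψ))
    (comm : ∀ᵐ ω ∂(NB.PP d ν), ∀ t x, W ω ((ev ω).U t x) = (ev ω).U t (W ω x)) :
    ∃ f : ℝ → ℂ, Measurable f ∧ (∃ R : ℝ, ∀ E, ‖f E‖ ≤ R) ∧
      ∀ᵐ ω ∂(NB.PP d ν), (∀ x, |ω x| ≤ K) ∧ (∀ x, W ω (HV K ω x) = HV K ω (W ω x)) ∧
        (∀ ψ, ∀ᵐ E : ℝ, Ngl (HV K ω) E (W ω ψ - f E • ψ)) ∧
        ∀ ψ, spm (HV_sa K ω) ψ ≪ volume → ∀ t : ℝ, ⟪Ex (HV K ω) t ψ, W ω ψ⟫_ℂ =
          ∫ E : ℝ, Complex.exp (Complex.I * t * E) * f E ∂(spm (HV_sa K ω) ψ) := by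
  obtain ⟨hW, hW'⟩ := flds hb hm hc
  have hM : 0 ≤ M := by
    have h1 := hb 0 (NB.dl 0)
    rw [NB.STAT.norm_dl, mul_one] at h1
    exact (norm_nonneg _).trans h1
  have hA : Fld (‖(2⁻¹ : ℂ)‖ * (M + M)) (reF W) := (hW.add hW').smul 2⁻¹
  have hB : Fld (‖(-(Complex.I * 2⁻¹) : ℂ)‖ * (M + M)) (imF W) :=
    (hW.sub hW').smul (-(Complex.I * 2⁻¹))
  have cA : ∀ᵐ ω ∂(NB.PP d ν), ∀ t x, reF W ω ((ev ω).U t x) = (ev ω).U t (reF W ω x) := by
    filter_upwards [comm] with ω h t x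
    show (2⁻¹ : ℂ) • (W ω ((ev ω).U t x) + adjF W ω ((ev ω).U t x)) =
      (ev ω).U t ((2⁻¹ : ℂ) • (W ω x + adjF W ω x))
    rw [h, comm_adj h, map_smul, map_add]
  have cB : ∀ᵐ ω ∂(NB.PP d ν), ∀ t x, imF W ω ((ev ω).U t x) = (ev ω).U t (imF W ω x) := by
    filter_upwards [comm] with ω h t x
    show (-(Complex.I * 2⁻¹) : ℂ) • (W ω ((ev ω).U t x) - adjF W ω ((ev ω).U t x)) =
      (ev ω).U t ((-(Complex.I * 2⁻¹) : ℂ) • (W ω x - adjF W ω x))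
    rw [h, comm_adj h, map_smul, map_sub]
  obtain ⟨f, hf1, hf2, hf3⟩ := main_c hd hK hν hev (by positivity) hA (sym_re W) cA
  obtain ⟨g, hg1, hg2, hg3⟩ := main_c hd hK hν hev (by positivity) hB (sym_im W) cB
  refine ⟨fun E => ((f E : ℝ) : ℂ) + Complex.I * ((g E : ℝ) : ℂ),
    (Complex.measurable_ofReal.comp hf1).add ((Complex.measurable_ofReal.comp hg1).const_mul _),
    ⟨‖(2⁻¹ : ℂ)‖ * (M + M) + ‖(-(Complex.I * 2⁻¹) : ℂ)‖ * (M + M),
      fun E => (norm_add_le _ _).trans (add_le_add ?_ ?_)⟩, ?_⟩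
  · rw [Complex.norm_real]
    exact hf2 E
  · rw [norm_mul, Complex.norm_I, one_mul, Complex.norm_real]
    exact hg2 E
  · filter_upwards [hf3, hg3] with ω ⟨e1, e2, e3⟩ ⟨_, e4, e5⟩
    refine ⟨e1, fun x => ?_, fun ψ => ?_, fun ψ hψ t => ?_⟩
    · rw [re_im W, re_im W, e2, e4, map_add, map_smul]
    · filter_upwards [e3 ψ, e5 ψ] with E h1 h2
      have h3 := h1.add (h2.smul Complex.I)
      have h4 : (reF W ω ψ - ((f E : ℝ) : ℂ) • ψ) + Complex.I • (imF W ω ψ - ((g E : ℝ) : ℂ) • ψ) =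
          W ω ψ - (((f E : ℝ) : ℂ) + Complex.I * ((g E : ℝ) : ℂ)) • ψ := by
        rw [re_im W ω ψ]
        module
      rw [h4] at h3
      exact h3
    · have i1 := inner_of_ngl (HV_sa K ω) e2 hf1 hf2 e3 hψ t
      have i2 := inner_of_ngl (HV_sa K ω) e4 hg1 hg2 e5 hψ t
      rw [re_im W ω ψ, inner_add_right, inner_smul_right, i1, i2]
      have hexp : ∀ E : ℝ, ‖Complex.exp (Complex.I * t * E)‖ = 1 := by
        intro E
        rw [Complex.norm_exp]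
        simp
      have hem : Measurable fun E : ℝ => Complex.exp (Complex.I * t * E) := by fun_prop
      have j1 : Integrable (fun E : ℝ => Complex.exp (Complex.I * t * E) * ((f E : ℝ) : ℂ))
          (spm (HV_sa K ω) ψ) := by
        refine Integrable.of_bound
          (hem.mul (Complex.measurable_ofReal.comp hf1)).aestronglyMeasurable
          (‖(2⁻¹ : ℂ)‖ * (M + M)) (ae_of_all _ fun E => ?_)
        rw [norm_mul, hexp, one_mul, Complex.norm_real]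
        exact hf2 E
      have j2 : Integrable (fun E : ℝ => Complex.I * (Complex.exp (Complex.I * t * E) *
          ((g E : ℝ) : ℂ))) (spm (HV_sa K ω) ψ) := by
        refine Integrable.of_bound
          ((hem.mul (Complex.measurable_ofReal.comp hg1)).const_mul _).aestronglyMeasurable
          (‖(-(Complex.I * 2⁻¹) : ℂ)‖ * (M + M)) (ae_of_all _ fun E => ?_)
        rw [norm_mul, norm_mul, hexp, one_mul, Complex.norm_I, one_mul, Complex.norm_real]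
        exact hg2 E
      rw [← integral_const_mul, ← integral_add j1 j2]
      refine integral_congr_ae (ae_of_all _ fun E => ?_)
      ring

/-- conserved covariant fields of orthogonal projections are spectral projections -/
theorem main_proj (hd : 1 ≤ d) {K : ℝ} {ν : Measure ℝ} [IsProbabilityMeasure ν]
    (hK : ∀ᵐ r ∂ν, |r| ≤ K) (hν : ∀ r : ℝ, ν {r} ≠ 1)
    (hev : ∀ ω : NB.Site d → ℝ, NB.IsGrp (-1) (fun x => 2 * d + ω x) (ev ω))
    {W : OF d} {M : ℝ} (hb : ∀ V ψ, ‖W V ψ‖ ≤ M * ‖ψ‖)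
    (hm : ∀ (u : L2 d) (x : NB.Site d), Measurable fun V => (W V u) x)
    (hc : ∀ (z : NB.Site d) (S : L2 d →L[ℂ] L2 d), NB.IsShift z S → ∀ V ψ,
      W (fun y => V (y + z)) (S ψ) = S (W V ψ))
    (comm : ∀ᵐ ω ∂(NB.PP d ν), ∀ t x, W ω ((ev ω).U t x) = (ev ω).U t (W ω x))
    (sW : Sym W) (pW : ∀ V x, W V (W V x) = W V x) :
    ∃ S : Set ℝ, MeasurableSet S ∧
      ∀ᵐ ω ∂(NB.PP d ν), (∀ x, |ω x| ≤ K) ∧ (∀ x, W ω (HV K ω x) = HV K ω (W ω x)) ∧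
        ∀ ψ, ∀ᵐ E : ℝ, Ngl (HV K ω) E (W ω ψ -
          ((S.indicator (fun _ => (1 : ℝ)) E : ℝ) : ℂ) • ψ) := by
  obtain ⟨hW, hW'⟩ := flds hb hm hc
  have hM : 0 ≤ M := by
    have h1 := hb 0 (NB.dl 0)
    rw [NB.STAT.norm_dl, mul_one] at h1
    exact (norm_nonneg _).trans h1
  obtain ⟨f, hf1, hf2, hf3⟩ := main_c hd hK hν hev hM hW sW comm
  refine ⟨{E | f E = 1}, hf1 (measurableSet_singleton 1), ?_⟩
  filter_upwards [hf3] with ω ⟨e1, e2, e3⟩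
  refine ⟨e1, e2, fun ψ => ?_⟩
  filter_upwards [e3 ψ] with E h1
  have h2 := Ngl.comm (HV_sa K ω) e2 h1
  have h3 : Ngl (HV K ω) E ((W ω ψ - ((f E : ℝ) : ℂ) • ψ) - (W ω (W ω ψ - ((f E : ℝ) : ℂ) • ψ) +
      ((f E : ℝ) : ℂ) • (W ω ψ - ((f E : ℝ) : ℂ) • ψ))) := h1.sub (h2.add (h1.smul _))
  have h4 : ((W ω ψ - ((f E : ℝ) : ℂ) • ψ) - (W ω (W ω ψ - ((f E : ℝ) : ℂ) • ψ) +
      ((f E : ℝ) : ℂ) • (W ω ψ - ((f E : ℝ) : ℂ) • ψ))) =
      (((f E : ℝ) : ℂ) * ((f E : ℝ) : ℂ) - ((f E : ℝ) : ℂ)) • ψ := by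
    rw [map_sub, map_smul, pW]
    module
  rw [h4] at h3
  by_cases h5 : ((f E : ℝ) : ℂ) * ((f E : ℝ) : ℂ) - ((f E : ℝ) : ℂ) = 0
  · have h6 : (({E | f E = 1} : Set ℝ).indicator (fun _ => (1 : ℝ)) E) = f E := by
      have h7 : f E * f E - f E = 0 := by exact_mod_cast h5
      have h8 : f E * (f E - 1) = 0 := by linarith
      rcases mul_eq_zero.1 h8 with h9 | h9
      · rw [Set.indicator_of_notMem, h9]
        show ¬ f E = 1
        rw [h9]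
        norm_num
      · have h10 : f E = 1 := by linarith
        rw [Set.indicator_of_mem (show E ∈ {E | f E = 1} from h10), h10]
    rw [h6]
    exact h1
  · have h6 : Ngl (HV K ω) E ψ := by
      have h7 := h3.smul (((f E : ℝ) : ℂ) * ((f E : ℝ) : ℂ) - ((f E : ℝ) : ℂ))⁻¹
      rwa [smul_smul, inv_mul_cancel₀ h5, one_smul] at h7
    exact (Ngl.comm (HV_sa K ω) e2 h6).sub (h6.smul _)

end gen2

end Pool.Agent.R988.NQ
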