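import Pool.Agent.R988.NQ.Max

/-! # The maximal inequality for covariant fields -/

set_option autoImplicit false

open MeasureTheory Filter Topology
open scoped BigOperators ENNReal NNReal InnerProductSpace ComplexConjugate

namespace Pool.Agent.R988.NQ

open Pool.Agent.H5R2.NB

variable {d : ℕ}

/-- the data: a unitary field `G` with inverse `G'` and a positive field `P = B²` -/
structure Data (G G' B : OF d) (β : ℝ) : Prop where
  fG : Fld 1 G
  fG' : Fld 1 G'
  aG : Adj G G'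
  inv : ∀ V f, G' V (G V f) = f
  inv' : ∀ V f, G V (G' V f) = f
  β0 : 0 ≤ β
  fB : Fld β B
  sB : Sym B

/-- `S n = ∑_{k<n} G'^k B² G^k` -/
noncomputable def SS (G G' B : OF d) : ℕ → OF d
  | 0 => fun _ => 0
  | n + 1 => addF (mulF B B) (mulF G' (mulF (SS G G' B n) G))

/-- `S n - n λ` -/
noncomputable def TT (G G' B : OF d) (lam : ℝ) (n : ℕ) : OF d :=
  subF (SS G G' B n) (idF ((n : ℝ) * lam))

section data

variable {G G' B : OF d} {β : ℝ}

theorem Data.fP (h : Data G G' B β) : Fld (β * β) (mulF B B) := h.fB.mul h.β0 h.fB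

theorem Data.sP (h : Data G G' B β) : Sym (mulF B B) := h.sB.adj.mul h.sB.adj

theorem Data.fS (h : Data G G' B β) (n : ℕ) : Fld ((n : ℝ) * (β * β)) (SS G G' B n) := by
  induction n with
  | zero =>
    simp only [Nat.cast_zero, zero_mul]
    exact fld_zero
  | succ n ih =>
    have h0 : 0 ≤ (n : ℝ) * (β * β) := by have := h.β0; positivity
    have h1 := h.fP.add (h.fG'.mul zero_le_one (ih.mul h0 h.fG))
    refine h1.mono (le_of_eq ?_)
    push_cast
    ring

theorem Data.sS (h : Data G G' B β) (n : ℕ) : Sym (SS G G' B n) := by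
  induction n with
  | zero =>
    intro V f g
    simp [SS]
  | succ n ih =>
    refine h.sP.add ?_
    have := h.aG.symm.mul ((ih.adj).mul h.aG)
    intro V f g
    have h2 := this V f g
    exact h2

theorem Data.posS (h : Data G G' B β) (n : ℕ) (V : Site d → ℝ) (f : L2 (Site d)) :
    0 ≤ (⟪SS G G' B n V f, f⟫_ℂ).re := by
  induction n generalizing f with
  | zero => simp [SS]
  | succ n ih =>
    show 0 ≤ (⟪B V (B V f) + G' V (SS G G' B n V (G V f)), f⟫_ℂ).re
    rw [inner_add_left, h.sB V (B V f) f, h.aG.symm V, Complex.add_re]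
    refine add_nonneg ?_ (ih _)
    rw [inner_self_eq_norm_sq_to_K]
    norm_cast
    exact sq_nonneg _

theorem Data.fT (h : Data G G' B β) (lam : ℝ) (n : ℕ) :
    Fld ((n : ℝ) * (β * β) + |(n : ℝ) * lam|) (TT G G' B lam n) :=
  (h.fS n).sub (fld_id _)

theorem Data.sT (h : Data G G' B β) (lam : ℝ) (n : ℕ) : Sym (TT G G' B lam n) :=
  (h.sS n).sub (sym_id _)

theorem Data.T_succ (h : Data G G' B β) (lam : ℝ) (n : ℕ) :
    TT G G' B lam (n + 1) = addF (subF (mulF B B) (idF lam))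
      (mulF G' (mulF (TT G G' B lam n) G)) := by
  funext V
  refine ContinuousLinearMap.ext fun ψ => ?_
  show (B V (B V ψ) + G' V (SS G G' B n V (G V ψ))) - ((((n + 1 : ℕ) : ℝ) * lam : ℝ) : ℂ) • ψ =
    (B V (B V ψ) - (lam : ℂ) • ψ) +
      G' V (SS G G' B n V (G V ψ) - (((n : ℝ) * lam : ℝ) : ℂ) • G V ψ)
  rw [map_sub, map_smul, h.inv]
  have e : ((((n + 1 : ℕ) : ℝ) * lam : ℝ) : ℂ) = (((n : ℝ) * lam : ℝ) : ℂ) + (lam : ℂ) := by
    push_cast
    ring
  rw [e, add_smul]
  abel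

theorem T_zero (lam : ℝ) : TT G G' B lam 0 = fun _ => 0 := by
  funext V
  refine ContinuousLinearMap.ext fun ψ => ?_
  show (0 : L2 (Site d)) - ((((0 : ℕ) : ℝ) * lam : ℝ) : ℂ) • ψ = 0
  simp

end data

/-- `N` positive fields of sum at most one -/
structure InK (N : ℕ) (a : ℕ → OF d) : Prop where
  fld : ∀ n, ∃ C, Fld C (a n)
  sym : ∀ n, Sym (a n)
  pos : ∀ n V f, 0 ≤ (⟪a n V f, f⟫_ℂ).re
  sum : ∀ V f, ∑ n ∈ Finset.range N, (⟪a n V f, f⟫_ℂ).re ≤ ‖f‖ ^ 2

theorem re_sumF (N : ℕ) (a : ℕ → OF d) (V : Site d → ℝ) (f : L2 (Site d)) :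
    (⟪sumF N a V f, f⟫_ℂ).re = ∑ n ∈ Finset.range N, (⟪a n V f, f⟫_ℂ).re := by
  rw [sumF_apply, sum_inner, Complex.re_sum]

theorem InK.contr {N : ℕ} {a : ℕ → OF d} (h : InK N a) {n : ℕ} (hn : n < N) : Fld 1 (a n) := by
  obtain ⟨C, hC⟩ := h.fld n
  refine ⟨fun V ψ => ?_, hC.meas, hC.cov⟩
  rw [one_mul]
  refine norm_contr (a n V) (h.sym n V) (h.pos n V) (fun f => ?_) ψ
  refine le_trans ?_ (h.sum V f)
  exact Finset.single_le_sum (f := fun n => (⟪a n V f, f⟫_ℂ).re) (fun i _ => h.pos i V f)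
    (Finset.mem_range.2 hn)

theorem InK.sum_contr {N : ℕ} {a : ℕ → OF d} (h : InK N a) : Fld 1 (sumF N a) := by
  obtain ⟨C, hC⟩ := fld_sumF N a h.fld
  refine ⟨fun V ψ => ?_, hC.meas, hC.cov⟩
  rw [one_mul]
  refine norm_contr (sumF N a V) (sym_sumF N a h.sym V) (fun f => ?_) (fun f => ?_) ψ
  · rw [re_sumF]; exact Finset.sum_nonneg fun i _ => h.pos i V f
  · rw [re_sumF]; exact h.sum V f

/-- the remainder `b = 1 - ∑ a_n` -/
noncomputable def rem (N : ℕ) (a : ℕ → OF d) : OF d := subF (idF 1) (sumF N a)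

theorem rem_apply (N : ℕ) (a : ℕ → OF d) (V : Site d → ℝ) (f : L2 (Site d)) :
    rem N a V f = f - sumF N a V f := by
  show ((1 : ℝ) : ℂ) • f - sumF N a V f = f - sumF N a V f
  rw [Complex.ofReal_one, one_smul]

theorem re_rem (N : ℕ) (a : ℕ → OF d) (V : Site d → ℝ) (f : L2 (Site d)) :
    (⟪rem N a V f, f⟫_ℂ).re = ‖f‖ ^ 2 - (⟪sumF N a V f, f⟫_ℂ).re := by
  rw [rem_apply, inner_sub_left, Complex.sub_re, inner_self_eq_norm_sq_to_K]
  norm_cast

theorem InK.sym_rem {N : ℕ} {a : ℕ → OF d} (h : InK N a) : Sym (rem N a) :=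
  (sym_id 1).sub (sym_sumF N a h.sym)

theorem InK.rem_pos {N : ℕ} {a : ℕ → OF d} (h : InK N a) (V : Site d → ℝ) (f : L2 (Site d)) :
    0 ≤ (⟪rem N a V f, f⟫_ℂ).re := by
  rw [re_rem, re_sumF]
  linarith [h.sum V f]

theorem InK.rem_le {N : ℕ} {a : ℕ → OF d} (h : InK N a) (V : Site d → ℝ) (f : L2 (Site d)) :
    (⟪rem N a V f, f⟫_ℂ).re ≤ ‖f‖ ^ 2 := by
  rw [re_rem, re_sumF]
  have : 0 ≤ ∑ n ∈ Finset.range N, (⟪a n V f, f⟫_ℂ).re :=
    Finset.sum_nonneg fun i _ => h.pos i V f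
  linarith

theorem InK.rem_fld {N : ℕ} {a : ℕ → OF d} (h : InK N a) : Fld 1 (rem N a) := by
  have h1 := (fld_id (d := d) 1).sub h.sum_contr
  refine ⟨fun V ψ => ?_, h1.meas, h1.cov⟩
  rw [one_mul]
  exact norm_contr (rem N a V) (h.sym_rem V) (h.rem_pos V) (h.rem_le V) ψ

theorem InK.rem_sq {N : ℕ} {a : ℕ → OF d} (h : InK N a) (V : Site d → ℝ) (f : L2 (Site d)) :
    ‖rem N a V f‖ ^ 2 ≤ (⟪rem N a V f, f⟫_ℂ).re :=
  pos_contr (rem N a V) (h.sym_rem V) (h.rem_pos V) (h.rem_le V) f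

theorem InK.sum_sq {N : ℕ} {a : ℕ → OF d} (h : InK N a) (V : Site d → ℝ) (f : L2 (Site d)) :
    ‖sumF N a V f‖ ^ 2 ≤ (⟪sumF N a V f, f⟫_ℂ).re := by
  refine pos_contr (sumF N a V) (sym_sumF N a h.sym V) (fun f => ?_) (fun f => ?_) f
  · rw [re_sumF]; exact Finset.sum_nonneg fun i _ => h.pos i V f
  · rw [re_sumF]; exact h.sum V f

section func

variable (ν : Measure ℝ) [IsProbabilityMeasure ν]

/-- Hopf's functional -/
noncomputable def gg (G G' B : OF d) (lam : ℝ) (N : ℕ) (a : ℕ → OF d) : ℝ :=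
  ∑ n ∈ Finset.range N, (EE ν (a n) (TT G G' B lam (n + 1))).re

variable {ν}
variable {G G' B : OF d} {β lam : ℝ}

theorem gg_bdd (h : Data G G' B β) (N : ℕ) :
    BddAbove {r | ∃ a : ℕ → OF d, InK N a ∧ gg ν G G' B lam N a = r} := by
  refine ⟨∑ n ∈ Finset.range N, (((n + 1 : ℕ) : ℝ) * (β * β) + |((n + 1 : ℕ) : ℝ) * lam|), ?_⟩
  rintro r ⟨a, ha, rfl⟩
  refine Finset.sum_le_sum fun n hn => ?_
  have h1 := EE_bound (ν := ν) (ha.contr (Finset.mem_range.1 hn)) (h.fT lam (n + 1))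
  rw [one_mul] at h1
  exact (Complex.re_le_norm _).trans h1

theorem inK_zero (N : ℕ) : InK N (fun _ _ => 0 : ℕ → OF d) := by
  refine ⟨fun n => ⟨0, fld_zero⟩, fun n V f g => by simp, fun n V f => by simp, fun V f => ?_⟩
  simp

/-- the shifted family -/
noncomputable def sh (G G' : OF d) (M : ℕ) (a : ℕ → OF d) (n : ℕ) : OF d :=
  if n < M then mulF G (mulF (a (n + 1)) G') else fun _ => 0

theorem sh_inner (h : Data G G' B β) (M : ℕ) (a : ℕ → OF d) (n : ℕ) (V : Site d → ℝ)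
    (f : L2 (Site d)) (hn : n < M) :
    ⟪sh G G' M a n V f, f⟫_ℂ = ⟪a (n + 1) V (G' V f), G' V f⟫_ℂ := by
  unfold sh
  rw [if_pos hn]
  show ⟪G V (a (n + 1) V (G' V f)), f⟫_ℂ = _
  rw [h.aG]

theorem norm_G' (h : Data G G' B β) (V : Site d → ℝ) (f : L2 (Site d)) : ‖G' V f‖ = ‖f‖ := by
  have e : ⟪G' V f, G' V f⟫_ℂ = ⟪f, f⟫_ℂ := by
    rw [h.aG.symm, h.inv']
  rw [inner_self_eq_norm_sq_to_K, inner_self_eq_norm_sq_to_K] at e
  have h2 : ‖G' V f‖ ^ 2 = ‖f‖ ^ 2 := by exact_mod_cast e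
  exact (sq_eq_sq₀ (norm_nonneg _) (norm_nonneg _)).1 h2

theorem inK_sh (h : Data G G' B β) {M : ℕ} {a : ℕ → OF d} (ha : InK (M + 1) a) :
    InK (M + 1) (sh G G' M a) := by
  have hpos : ∀ n V f, 0 ≤ (⟪sh G G' M a n V f, f⟫_ℂ).re := by
    intro n V f
    by_cases hn : n < M
    · rw [sh_inner h M a n V f hn]
      exact ha.pos _ _ _
    · unfold sh
      rw [if_neg hn]
      simp
  refine ⟨fun n => ?_, fun n => ?_, hpos, fun V f => ?_⟩
  · by_cases hn : n < M
    · unfold sh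
      rw [if_pos hn]
      obtain ⟨C, hC⟩ := ha.fld (n + 1)
      have hC' : Fld (max C 0) (a (n + 1)) := hC.mono (le_max_left _ _)
      exact ⟨_, h.fG.mul zero_le_one (hC'.mul (le_max_right _ _) h.fG')⟩
    · unfold sh
      rw [if_neg hn]
      exact ⟨0, fld_zero⟩
  · by_cases hn : n < M
    · unfold sh
      rw [if_pos hn]
      have := h.aG.mul ((ha.sym (n + 1)).adj.mul h.aG.symm)
      intro V f g
      exact this V f g
    · unfold sh
      rw [if_neg hn]
      intro V f g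
      simp
  · rw [Finset.sum_range_succ]
    have e1 : (⟪sh G G' M a M V f, f⟫_ℂ).re = 0 := by
      unfold sh
      rw [if_neg (lt_irrefl M)]
      simp
    rw [e1, add_zero]
    have e2 : ∑ n ∈ Finset.range M, (⟪sh G G' M a n V f, f⟫_ℂ).re =
        ∑ n ∈ Finset.range M, (⟪a (n + 1) V (G' V f), G' V f⟫_ℂ).re :=
      Finset.sum_congr rfl fun n hn => by rw [sh_inner h M a n V f (Finset.mem_range.1 hn)]
    rw [e2]
    have e3 := ha.sum V (G' V f)
    rw [Finset.sum_range_succ', norm_G' h] at e3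
    linarith [ha.pos 0 V (G' V f)]

/-- the shift changes the functional by the first term -/
theorem gg_sh (h : Data G G' B β) {M : ℕ} {a : ℕ → OF d} (ha : InK (M + 1) a) :
    gg ν G G' B lam (M + 1) a - gg ν G G' B lam (M + 1) (sh G G' M a) =
      (EE ν (sumF (M + 1) a) (subF (mulF B B) (idF lam))).re := by
  have fPl := h.fP.sub (fld_id (d := d) lam)
  have hterm : ∀ n < M + 1, (EE ν (a n) (TT G G' B lam (n + 1))).re =
      (EE ν (a n) (subF (mulF B B) (idF lam))).re +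
        (EE ν (a n) (mulF G' (mulF (TT G G' B lam n) G))).re := by
    intro n hn
    have hc := ha.contr hn
    have hT0 : 0 ≤ (n : ℝ) * (β * β) + |(n : ℝ) * lam| := by
      have := h.β0
      positivity
    rw [h.T_succ, EE_add_right hc fPl (h.fG'.mul zero_le_one ((h.fT lam n).mul hT0 h.fG)),
      Complex.add_re]
  have hsum : (EE ν (sumF (M + 1) a) (subF (mulF B B) (idF lam))).re =
      ∑ n ∈ Finset.range (M + 1), (EE ν (a n) (subF (mulF B B) (idF lam))).re := by
    rw [EE_sumF ha.fld fPl, Complex.re_sum]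
  have hz : (EE ν (a 0) (mulF G' (mulF (TT G G' B lam 0) G))).re = 0 := by
    unfold EE
    have : ∀ V, ⟪vec (a 0) V, vec (mulF G' (mulF (TT G G' B lam 0) G)) V⟫_ℂ = 0 := by
      intro V
      have e : vec (mulF G' (mulF (TT G G' B lam 0) G)) V = 0 := by
        unfold vec
        rw [mulF_apply, mulF_apply, T_zero]
        simp
      rw [e, inner_zero_right]
    simp [this]
  have hsh : gg ν G G' B lam (M + 1) (sh G G' M a) =
      ∑ n ∈ Finset.range M, (EE ν (a (n + 1)) (mulF G' (mulF (TT G G' B lam (n + 1)) G))).re := by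
    unfold gg
    rw [Finset.sum_range_succ]
    have e1 : (EE ν (sh G G' M a M) (TT G G' B lam (M + 1))).re = 0 := by
      unfold EE
      have : ∀ V, ⟪vec (sh G G' M a M) V, vec (TT G G' B lam (M + 1)) V⟫_ℂ = 0 := by
        intro V
        have e : vec (sh G G' M a M) V = 0 := by
          unfold vec sh
          rw [if_neg (lt_irrefl M)]
          simp
        rw [e, inner_zero_left]
      simp [this]
    rw [e1, add_zero]
    refine Finset.sum_congr rfl fun n hn => ?_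
    have hn' := Finset.mem_range.1 hn
    have hT0 : 0 ≤ ((n + 1 : ℕ) : ℝ) * (β * β) + |((n + 1 : ℕ) : ℝ) * lam| := by
      have := h.β0
      positivity
    unfold sh
    rw [if_pos hn']
    exact EE_conj zero_le_one zero_le_one zero_le_one hT0 h.fG h.fG' h.aG
      (ha.contr (Nat.succ_lt_succ hn')) (ha.sym _) (h.fT lam _) (h.sT lam _)
  rw [hsh, hsum]
  unfold gg
  have e5 : ∑ n ∈ Finset.range (M + 1), (EE ν (a n) (TT G G' B lam (n + 1))).re =
      ∑ n ∈ Finset.range (M + 1), ((EE ν (a n) (subF (mulF B B) (idF lam))).re +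
        (EE ν (a n) (mulF G' (mulF (TT G G' B lam n) G))).re) :=
    Finset.sum_congr rfl fun n hn => hterm n (Finset.mem_range.1 hn)
  rw [e5, Finset.sum_add_distrib]
  have e6 : ∑ n ∈ Finset.range (M + 1), (EE ν (a n) (mulF G' (mulF (TT G G' B lam n) G))).re =
      ∑ n ∈ Finset.range M,
        (EE ν (a (n + 1)) (mulF G' (mulF (TT G G' B lam (n + 1)) G))).re := by
    rw [Finset.sum_range_succ', hz, add_zero]
  rw [e6]
  ring

/-- the perturbed family -/
theorem inK_pert {N : ℕ} {a : ℕ → OF d} (ha : InK N a) {n₀ : ℕ} (hn₀ : n₀ < N)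
    {D : Set (Site d → ℝ)} (hD : MeasurableSet D) :
    InK N (Function.update a n₀ (addF (a n₀) (mulF (rem N a) (mulF (yF D) (rem N a))))) := by
  set b := rem N a with hb
  set w := mulF b (mulF (yF D) b) with hw
  have wi : ∀ V f, ⟪w V f, f⟫_ℂ = ⟪yF D V (b V f), b V f⟫_ℂ := by
    intro V f
    show ⟪b V (yF D V (b V f)), f⟫_ℂ = _
    rw [hb, ha.sym_rem V]
  have wpos : ∀ V f, 0 ≤ (⟪w V f, f⟫_ℂ).re := by
    intro V f
    rw [wi]
    exact pos_yF D V _
  have wfld : Fld (1 * (1 * 1)) w := ha.rem_fld.mul zero_le_one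
    ((fld_yF hD).mul zero_le_one ha.rem_fld)
  have wsym : Sym w := by
    have := ha.sym_rem.adj.mul ((sym_yF D).adj.mul ha.sym_rem.adj)
    intro V f g
    exact this V f g
  refine ⟨fun n => ?_, fun n => ?_, fun n V f => ?_, fun V f => ?_⟩
  · by_cases hn : n = n₀
    · subst hn
      rw [Function.update_self]
      obtain ⟨C, hC⟩ := ha.fld n
      exact ⟨_, hC.add wfld⟩
    · rw [Function.update_of_ne hn]
      exact ha.fld n
  · by_cases hn : n = n₀
    · subst hn
      rw [Function.update_self]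
      exact (ha.sym n).add wsym
    · rw [Function.update_of_ne hn]
      exact ha.sym n
  · by_cases hn : n = n₀
    · subst hn
      rw [Function.update_self, addF_apply, inner_add_left, Complex.add_re]
      exact add_nonneg (ha.pos n V f) (wpos V f)
    · rw [Function.update_of_ne hn]
      exact ha.pos n V f
  · have e1 : ∀ n, (⟪Function.update a n₀ (addF (a n₀) w) n V f, f⟫_ℂ).re =
        (⟪a n V f, f⟫_ℂ).re + if n = n₀ then (⟪w V f, f⟫_ℂ).re else 0 := by
      intro n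
      by_cases hn : n = n₀
      · subst hn
        rw [Function.update_self, addF_apply, inner_add_left, Complex.add_re, if_pos rfl]
      · rw [Function.update_of_ne hn, if_neg hn, add_zero]
    simp only [e1]
    rw [Finset.sum_add_distrib, Finset.sum_ite_eq' (Finset.range N) n₀,
      if_pos (Finset.mem_range.2 hn₀), wi]
    have e2 := yF_le D V (b V f)
    have e3 := ha.rem_sq V f
    rw [← hb] at e3
    have e4 := re_rem N a V f
    rw [← hb, re_sumF] at e4
    linarith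

theorem gg_pert (h : Data G G' B β) {N : ℕ} {a : ℕ → OF d} (ha : InK N a) {n₀ : ℕ}
    (hn₀ : n₀ < N) {D : Set (Site d → ℝ)} (hD : MeasurableSet D) :
    gg ν G G' B lam N
        (Function.update a n₀ (addF (a n₀) (mulF (rem N a) (mulF (yF D) (rem N a))))) =
      gg ν G G' B lam N a + ∫ V, indf D V 0 *
        (⟪TT G G' B lam (n₀ + 1) V (rem N a V (dl 0)), rem N a V (dl 0)⟫_ℂ).re ∂(PP d ν) := by
  have hT0 : 0 ≤ ((n₀ + 1 : ℕ) : ℝ) * (β * β) + |((n₀ + 1 : ℕ) : ℝ) * lam| := by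
    have := h.β0
    positivity
  have hp := EE_pert (ν := ν) zero_le_one hT0 ha.rem_fld ha.sym_rem (h.fT lam (n₀ + 1))
    (h.sT lam (n₀ + 1)) hD
  set w := mulF (rem N a) (mulF (yF D) (rem N a)) with hw
  have wfld : Fld (1 * (1 * 1)) w := ha.rem_fld.mul zero_le_one
    ((fld_yF hD).mul zero_le_one ha.rem_fld)
  rw [← hp]
  unfold gg
  have e1 : ∀ n, (EE ν (Function.update a n₀ (addF (a n₀) w) n) (TT G G' B lam (n + 1))).re =
      (EE ν (a n) (TT G G' B lam (n + 1))).re +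
        if n = n₀ then (EE ν w (TT G G' B lam (n₀ + 1))).re else 0 := by
    intro n
    by_cases hn : n = n₀
    · subst hn
      rw [Function.update_self, if_pos rfl, EE_add_left (ha.contr hn₀) wfld (h.fT lam _),
        Complex.add_re]
    · rw [Function.update_of_ne hn, if_neg hn, add_zero]
  simp only [e1]
  rw [Finset.sum_add_distrib, Finset.sum_ite_eq' (Finset.range N) n₀,
    if_pos (Finset.mem_range.2 hn₀)]

end func

end Pool.Agent.R988.NQ
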