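import Pool.Agent.R988.NQ.Fld
import Pool.Agent.H5R2.NB.MOM

/-! # A maximal inequality for covariant fields (Hopf's argument without commutativity) -/

set_option autoImplicit false

open MeasureTheory Filter Topology
open scoped BigOperators ENNReal NNReal InnerProductSpace ComplexConjugate

namespace Pool.Agent.R988.NQ

open Pool.Agent.H5R2.NB

/-! ### one operator -/

section one

variable {X : Type} [NormedAddCommGroup X] [InnerProductSpace ℂ X]

theorem pos_contr (B : X →L[ℂ] X) (hs : ∀ f g, ⟪B f, g⟫_ℂ = ⟪f, B g⟫_ℂ)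
    (h0 : ∀ f, 0 ≤ (⟪B f, f⟫_ℂ).re) (h1 : ∀ f, (⟪B f, f⟫_ℂ).re ≤ ‖f‖ ^ 2) (f : X) :
    ‖B f‖ ^ 2 ≤ (⟪B f, f⟫_ℂ).re := by
  have e1 : (⟪B f, B f⟫_ℂ).re = ‖B f‖ ^ 2 := by
    rw [inner_self_eq_norm_sq_to_K]
    norm_cast
  have a1 := h1 (B f)
  have a2 := h0 (f - B f)
  have e2 : ⟪B (f - B f), f - B f⟫_ℂ = ⟪B f, f⟫_ℂ - ⟪B f, B f⟫_ℂ - ⟪B (B f), f⟫_ℂ
      + ⟪B (B f), B f⟫_ℂ := by
    rw [map_sub, inner_sub_left, inner_sub_right, inner_sub_right]
    ring
  have e3 : ⟪B (B f), f⟫_ℂ = ⟪B f, B f⟫_ℂ := hs _ _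
  rw [e2, e3, Complex.add_re, Complex.sub_re, Complex.sub_re, e1] at a2
  linarith

theorem norm_contr (B : X →L[ℂ] X) (hs : ∀ f g, ⟪B f, g⟫_ℂ = ⟪f, B g⟫_ℂ)
    (h0 : ∀ f, 0 ≤ (⟪B f, f⟫_ℂ).re) (h1 : ∀ f, (⟪B f, f⟫_ℂ).re ≤ ‖f‖ ^ 2) (f : X) :
    ‖B f‖ ≤ ‖f‖ := by
  have := (pos_contr B hs h0 h1 f).trans (h1 f)
  exact (sq_le_sq₀ (norm_nonneg _) (norm_nonneg _)).1 this

end one

variable {d : ℕ}

/-! ### multiplication by an indicator -/

/-- strong measurability coordinate by coordinate -/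
theorem sm_of_coord {Ω : Type} [MeasurableSpace Ω] (f : Ω → L2 (Site d))
    (h : ∀ x, Measurable fun V => (f V) x) : StronglyMeasurable f := by
  have hs : ∀ s : Finset (Site d), StronglyMeasurable fun V =>
      ∑ x ∈ s, lp.single (E := fun _ : Site d => ℂ) 2 x ((f V) x) := by
    intro s
    refine Finset.stronglyMeasurable_fun_sum s fun x _ => ?_
    have e : (fun V => lp.single (E := fun _ : Site d => ℂ) 2 x ((f V) x)) =
        fun V => ((f V) x) • (dl x : L2 (Site d)) := by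
      funext V
      unfold dl
      rw [← lp.single_smul, smul_eq_mul, mul_one]
    rw [e]
    exact (h x).stronglyMeasurable.smul_const _
  refine stronglyMeasurable_of_tendsto (atTop : Filter (Finset (Site d))) hs ?_
  rw [tendsto_pi_nhds]
  intro V
  exact lp.hasSum_single (E := fun _ : Site d => ℂ) (p := 2) (by norm_num) (f V)

open Classical in
/-- the indicator of `D` along the shifts of the potential -/
noncomputable def indf (D : Set (Site d → ℝ)) (V : Site d → ℝ) (x : Site d) : ℝ :=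
  if (fun y => V (y + x)) ∈ D then 1 else 0

theorem indf_abs (D : Set (Site d → ℝ)) (V : Site d → ℝ) (x : Site d) : |indf D V x| ≤ 1 := by
  unfold indf
  split_ifs <;> simp

theorem indf_nonneg (D : Set (Site d → ℝ)) (V : Site d → ℝ) (x : Site d) : 0 ≤ indf D V x := by
  unfold indf
  split_ifs <;> simp

/-- the field of multiplications by `indf` -/
noncomputable def yF (D : Set (Site d → ℝ)) : OF d := fun V =>
  MOM.mulop (indf D V) 1 (indf_abs D V)

theorem yF_apply (D : Set (Site d → ℝ)) (V : Site d → ℝ) (ψ : L2 (Site d)) (x : Site d) :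
    (yF D V ψ) x = (indf D V x : ℂ) * ψ x := rfl

theorem meas_indf {D : Set (Site d → ℝ)} (hD : MeasurableSet D) (x : Site d) :
    Measurable fun V => indf D V x := by
  unfold indf
  exact Measurable.ite ((RES.meas_shift x) hD) measurable_const measurable_const

theorem fld_yF {D : Set (Site d → ℝ)} (hD : MeasurableSet D) : Fld (1 : ℝ) (yF D) := by
  refine ⟨fun V ψ => ?_, fun f hf => ?_, fun z S hS V ψ => ?_⟩
  · exact MOM.mulop_norm_le _ _ _ _
  · refine sm_of_coord _ fun x => ?_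
    simp only [yF_apply]
    refine Measurable.mul (Complex.measurable_ofReal.comp (meas_indf hD x)) ?_
    exact ((STAT.cont_eval x).comp_stronglyMeasurable hf).measurable
  · ext x
    rw [yF_apply, hS, hS, yF_apply]
    congr 2
    unfold indf
    have e : (fun y => (fun y' => V (y' + z)) (y + x)) = fun y => V (y + (x + z)) := by
      funext y
      show V (y + x + z) = V (y + (x + z))
      rw [add_assoc]
    rw [e]

theorem inner_yF (D : Set (Site d → ℝ)) (V : Site d → ℝ) (f g : L2 (Site d)) :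
    ⟪yF D V f, g⟫_ℂ = ∑' x, (indf D V x : ℂ) * (conj (f x) * g x) := by
  rw [lp.inner_eq_tsum]
  refine tsum_congr fun x => ?_
  rw [yF_apply, RCLike.inner_apply, map_mul, Complex.conj_ofReal]
  ring

theorem sym_yF (D : Set (Site d → ℝ)) : Sym (yF D) := by
  intro V f g
  rw [inner_yF, lp.inner_eq_tsum]
  refine tsum_congr fun x => ?_
  rw [yF_apply, RCLike.inner_apply]
  ring

theorem pos_yF (D : Set (Site d → ℝ)) (V : Site d → ℝ) (f : L2 (Site d)) :
    0 ≤ (⟪yF D V f, f⟫_ℂ).re := by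
  have hs : Summable fun x => ⟪(yF D V f) x, f x⟫_ℂ := lp.summable_inner _ _
  rw [lp.inner_eq_tsum, ← Complex.reCLM_apply, ContinuousLinearMap.map_tsum _ hs]
  refine tsum_nonneg fun x => ?_
  rw [Complex.reCLM_apply, yF_apply, RCLike.inner_apply, map_mul, Complex.conj_ofReal]
  have e : f x * ((indf D V x : ℂ) * conj (f x)) = ((indf D V x * ‖f x‖ ^ 2 : ℝ) : ℂ) := by
    push_cast
    rw [← Complex.mul_conj']
    ring
  rw [e, Complex.ofReal_re]
  exact mul_nonneg (indf_nonneg D V x) (sq_nonneg _)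

theorem yF_le (D : Set (Site d → ℝ)) (V : Site d → ℝ) (f : L2 (Site d)) :
    (⟪yF D V f, f⟫_ℂ).re ≤ ‖f‖ ^ 2 := by
  refine (Complex.re_le_norm _).trans ((norm_inner_le_norm _ _).trans ?_)
  rw [sq]
  refine mul_le_mul_of_nonneg_right ?_ (norm_nonneg _)
  have := MOM.mulop_norm_le (indf D V) 1 (indf_abs D V) f
  rwa [one_mul] at this

theorem yF_dl (D : Set (Site d → ℝ)) (V : Site d → ℝ) :
    yF D V (dl 0) = (indf D V 0 : ℂ) • dl 0 := by
  ext x
  rw [yF_apply]
  show _ = (indf D V 0 : ℂ) * (dl (0 : Site d)) x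
  by_cases hx : x = 0
  · subst hx; rfl
  · have : (dl (0 : Site d)) x = 0 := by
      unfold dl
      exact lp.single_apply_ne 2 0 _ hx
    rw [this, mul_zero, mul_zero]

open Classical in
theorem indf_zero (D : Set (Site d → ℝ)) (V : Site d → ℝ) :
    indf D V 0 = if V ∈ D then 1 else 0 := by
  unfold indf
  have e : (fun y => V (y + 0)) = V := by funext y; rw [add_zero]
  rw [e]

/-! ### expectations -/

section expect

variable (ν : Measure ℝ) [IsProbabilityMeasure ν]

/-- the expectation of `⟨A δ₀, B δ₀⟩` -/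
noncomputable def EE (A B : OF d) : ℂ := ∫ V, ⟪vec A V, vec B V⟫_ℂ ∂(PP d ν)

variable {ν}

theorem integ {A B : OF d} {C D : ℝ} (hA : Fld C A) (hB : Fld D B) :
    Integrable (fun V => ⟪vec A V, vec B V⟫_ℂ) (PP d ν) := by
  refine Integrable.of_bound (hA.sm.inner hB.sm).aestronglyMeasurable (C * D)
    (Eventually.of_forall fun V => ?_)
  refine (norm_inner_le_norm _ _).trans ?_
  have h0 : 0 ≤ C := (norm_nonneg _).trans (hA.nb V)
  exact mul_le_mul (hA.nb V) (hB.nb V) (norm_nonneg _) h0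

theorem EE_bound {A B : OF d} {C D : ℝ} (hA : Fld C A) (hB : Fld D B) :
    ‖EE ν A B‖ ≤ C * D := by
  have h := norm_integral_le_of_norm_le_const (μ := PP d ν) (C := C * D)
    (f := fun V => ⟪vec A V, vec B V⟫_ℂ) (Eventually.of_forall fun V => by
      refine (norm_inner_le_norm _ _).trans ?_
      have h0 : 0 ≤ C := (norm_nonneg _).trans (hA.nb V)
      exact mul_le_mul (hA.nb V) (hB.nb V) (norm_nonneg _) h0)
  simpa [EE] using h

theorem EE_add_right {A B B' : OF d} {C D D' : ℝ} (hA : Fld C A) (hB : Fld D B)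
    (hB' : Fld D' B') : EE ν A (addF B B') = EE ν A B + EE ν A B' := by
  unfold EE
  rw [← integral_add (integ hA hB) (integ hA hB')]
  refine integral_congr_ae (Eventually.of_forall fun V => ?_)
  show ⟪vec A V, vec (addF B B') V⟫_ℂ = _
  unfold vec
  rw [addF_apply, inner_add_right]

theorem EE_sub_right {A B B' : OF d} {C D D' : ℝ} (hA : Fld C A) (hB : Fld D B)
    (hB' : Fld D' B') : EE ν A (subF B B') = EE ν A B - EE ν A B' := by
  unfold EE
  rw [← integral_sub (integ hA hB) (integ hA hB')]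
  refine integral_congr_ae (Eventually.of_forall fun V => ?_)
  show ⟪vec A V, vec (subF B B') V⟫_ℂ = _
  unfold vec
  rw [subF_apply, inner_sub_right]

theorem EE_add_left {A A' B : OF d} {C C' D : ℝ} (hA : Fld C A) (hA' : Fld C' A')
    (hB : Fld D B) : EE ν (addF A A') B = EE ν A B + EE ν A' B := by
  unfold EE
  rw [← integral_add (integ hA hB) (integ hA' hB)]
  refine integral_congr_ae (Eventually.of_forall fun V => ?_)
  show ⟪vec (addF A A') V, vec B V⟫_ℂ = _
  unfold vec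
  rw [addF_apply, inner_add_left]

theorem EE_sub_left {A A' B : OF d} {C C' D : ℝ} (hA : Fld C A) (hA' : Fld C' A')
    (hB : Fld D B) : EE ν (subF A A') B = EE ν A B - EE ν A' B := by
  unfold EE
  rw [← integral_sub (integ hA hB) (integ hA' hB)]
  refine integral_congr_ae (Eventually.of_forall fun V => ?_)
  show ⟪vec (subF A A') V, vec B V⟫_ℂ = _
  unfold vec
  rw [subF_apply, inner_sub_left]

/-- sum of finitely many fields -/
noncomputable def sumF (N : ℕ) (a : ℕ → OF d) : OF d := fun V => ∑ n ∈ Finset.range N, a n V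

theorem sumF_apply (N : ℕ) (a : ℕ → OF d) (V : Site d → ℝ) (ψ : L2 (Site d)) :
    sumF N a V ψ = ∑ n ∈ Finset.range N, a n V ψ := by
  unfold sumF
  rw [ContinuousLinearMap.sum_apply]

theorem fld_sumF (N : ℕ) (a : ℕ → OF d) (h : ∀ n, ∃ C, Fld C (a n)) :
    ∃ C, Fld C (sumF N a) := by
  induction N with
  | zero =>
    refine ⟨0, ?_⟩
    have : sumF 0 a = fun _ => 0 := by
      funext V
      simp [sumF]
    rw [this]
    exact fld_zero
  | succ N ih =>
    obtain ⟨C, hC⟩ := ih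
    obtain ⟨D, hD⟩ := h N
    refine ⟨C + D, ?_⟩
    have : sumF (N + 1) a = addF (sumF N a) (a N) := by
      funext V
      simp [sumF, addF, Finset.sum_range_succ]
    rw [this]
    exact hC.add hD

theorem EE_sumF {N : ℕ} {a : ℕ → OF d} (h : ∀ n, ∃ C, Fld C (a n)) {B : OF d} {D : ℝ}
    (hB : Fld D B) : EE ν (sumF N a) B = ∑ n ∈ Finset.range N, EE ν (a n) B := by
  induction N with
  | zero =>
    simp only [Finset.range_zero, Finset.sum_empty]
    unfold EE
    have : ∀ V, ⟪vec (sumF 0 a) V, vec B V⟫_ℂ = 0 := by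
      intro V
      have : vec (sumF 0 a) V = 0 := by simp [vec, sumF]
      rw [this, inner_zero_left]
    simp [this]
  | succ N ih =>
    obtain ⟨C, hC⟩ := fld_sumF N a h
    obtain ⟨C', hC'⟩ := h N
    have : sumF (N + 1) a = addF (sumF N a) (a N) := by
      funext V
      simp [sumF, addF, Finset.sum_range_succ]
    rw [this, EE_add_left hC hC' hB, ih, Finset.sum_range_succ]

theorem sym_sumF (N : ℕ) (a : ℕ → OF d) (h : ∀ n, Sym (a n)) : Sym (sumF N a) := by
  intro V f g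
  rw [sumF_apply, sumF_apply, sum_inner, inner_sum]
  exact Finset.sum_congr rfl fun n _ => h n V f g

/-- conjugation of a field, trace form -/
theorem EE_conj {G G' A T : OF d} {g g' α τ : ℝ} (hg : 0 ≤ g) (hg' : 0 ≤ g') (hα : 0 ≤ α)
    (hτ : 0 ≤ τ) (hG : Fld g G) (hG' : Fld g' G') (aG : Adj G G')
    (hA : Fld α A) (sA : Sym A) (hT : Fld τ T) (sT : Sym T) :
    (EE ν (mulF G (mulF A G')) T).re = (EE ν A (mulF G' (mulF T G))).re := by
  have h := trace (ν := ν) (hG.mul hg hA) (hA.mul hα hG') (hT.mul hτ hG) (hG'.mul hg' hT)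
    (aG.mul sA.adj) (sT.adj.mul aG)
  have e1 : ∫ V, ⟪vec (mulF G A) V, vec (mulF T G) V⟫_ℂ ∂(PP d ν) =
      EE ν A (mulF G' (mulF T G)) := by
    unfold EE
    refine integral_congr_ae (Eventually.of_forall fun V => ?_)
    show ⟪G V (A V (dl 0)), T V (G V (dl 0))⟫_ℂ = ⟪A V (dl 0), G' V (T V (G V (dl 0)))⟫_ℂ
    rw [aG]
  have e2 : ∫ V, ⟪vec (mulF G' T) V, vec (mulF A G') V⟫_ℂ ∂(PP d ν) =
      conj (EE ν (mulF G (mulF A G')) T) := by
    unfold EE
    rw [← integral_conj]
    refine integral_congr_ae (Eventually.of_forall fun V => ?_)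
    show ⟪G' V (T V (dl 0)), A V (G' V (dl 0))⟫_ℂ =
      conj ⟪G V (A V (G' V (dl 0))), T V (dl 0)⟫_ℂ
    rw [aG.symm, inner_conj_symm]
  rw [e1, e2] at h
  rw [h, Complex.conj_re]

/-- the perturbation term -/
theorem EE_pert {b T : OF d} {β τ : ℝ} (hβ : 0 ≤ β) (hτ : 0 ≤ τ) (hb : Fld β b) (sb : Sym b)
    (hT : Fld τ T) (sT : Sym T) {D : Set (Site d → ℝ)} (hD : MeasurableSet D) :
    (EE ν (mulF b (mulF (yF D) b)) T).re =
      ∫ V, indf D V 0 * (⟪T V (b V (dl 0)), b V (dl 0)⟫_ℂ).re ∂(PP d ν) := by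
  have hy := fld_yF hD
  have h := trace (ν := ν) (hy.mul zero_le_one hb) (hb.mul hβ hy) (hb.mul hβ hT) (hT.mul hτ hb)
    ((sym_yF D).adj.mul sb.adj) (sb.adj.mul sT.adj)
  have e1 : ∫ V, ⟪vec (mulF (yF D) b) V, vec (mulF b T) V⟫_ℂ ∂(PP d ν) =
      EE ν (mulF b (mulF (yF D) b)) T := by
    unfold EE
    refine integral_congr_ae (Eventually.of_forall fun V => ?_)
    show ⟪yF D V (b V (dl 0)), b V (T V (dl 0))⟫_ℂ =
      ⟪b V (yF D V (b V (dl 0))), T V (dl 0)⟫_ℂ
    rw [sb V (yF D V (b V (dl 0)))]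
  rw [← e1, h]
  have hi := integ (ν := ν) (hT.mul hτ hb) (hb.mul hβ hy)
  have e3 := integral_re hi
  have e4 : ∀ z : ℂ, RCLike.re z = z.re := fun z => rfl
  simp only [e4] at e3
  rw [← e3]
  refine integral_congr_ae (Eventually.of_forall fun V => ?_)
  show (⟪T V (b V (dl 0)), b V (yF D V (dl 0))⟫_ℂ).re = _
  rw [yF_dl, map_smul, inner_smul_right, Complex.re_ofReal_mul]

end expect

end Pool.Agent.R988.NQ
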