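import Pool.Agent.R988.NQ.Hopf

/-! # The maximal inequality -/

set_option autoImplicit false

open MeasureTheory Filter Topology
open scoped BigOperators ENNReal NNReal InnerProductSpace ComplexConjugate

namespace Pool.Agent.R988.NQ

open Pool.Agent.H5R2.NB

variable {d : ℕ}

/-- the quadratic form of `S n` at `δ₀` -/
noncomputable def qq (G G' B : OF d) (n : ℕ) (V : Site d → ℝ) : ℝ :=
  (⟪SS G G' B n V (dl 0), dl 0⟫_ℂ).re

section form

variable {X : Type} [NormedAddCommGroup X] [InnerProductSpace ℂ X]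

theorem re_self (f : X) : (⟪f, f⟫_ℂ).re = ‖f‖ ^ 2 := by
  rw [inner_self_eq_norm_sq_to_K]
  norm_cast

theorem form_two (S : X →L[ℂ] X) (hs : ∀ f g, ⟪S f, g⟫_ℂ = ⟪f, S g⟫_ℂ)
    (h0 : ∀ f, 0 ≤ (⟪S f, f⟫_ℂ).re) (f g : X) :
    (⟪S (f + g), f + g⟫_ℂ).re ≤ 2 * (⟪S f, f⟫_ℂ).re + 2 * (⟪S g, g⟫_ℂ).re := by
  have h1 := h0 (f - g)
  rw [map_sub, inner_sub_left, inner_sub_right, inner_sub_right] at h1
  rw [map_add, inner_add_left, inner_add_right, inner_add_right]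
  simp only [Complex.add_re, Complex.sub_re] at h1 ⊢
  linarith

end form

section main

variable {ν : Measure ℝ} [IsProbabilityMeasure ν]
variable {G G' B : OF d} {β lam : ℝ}

theorem re_integral {A C : OF d} {a c : ℝ} (hA : Fld a A) (hC : Fld c C) :
    (EE ν A C).re = ∫ V, (⟪vec A V, vec C V⟫_ℂ).re ∂(PP d ν) := by
  have e3 := integral_re (integ (ν := ν) hA hC)
  have e4 : ∀ z : ℂ, RCLike.re z = z.re := fun z => rfl
  simp only [e4] at e3
  rw [e3]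
  rfl

theorem integrable_re {A C : OF d} {a c : ℝ} (hA : Fld a A) (hC : Fld c C) :
    Integrable (fun V => (⟪vec A V, vec C V⟫_ℂ).re) (PP d ν) :=
  (integ hA hC).re

/-- the trace of the positive field `B²` -/
noncomputable def tauB (ν : Measure ℝ) [IsProbabilityMeasure ν] (B : OF d) : ℝ :=
  ∫ V, ‖vec B V‖ ^ 2 ∂(PP d ν)

theorem EE_id (h : Data G G' B β) : (EE ν (idF 1) (mulF B B)).re = tauB ν B := by
  rw [re_integral (fld_id 1) h.fP]
  refine integral_congr_ae (Eventually.of_forall fun V => ?_)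
  show (⟪((1 : ℝ) : ℂ) • (dl 0 : L2 (Site d)), B V (B V (dl 0))⟫_ℂ).re = ‖B V (dl 0)‖ ^ 2
  rw [Complex.ofReal_one, one_smul, ← h.sB V, inner_self_eq_norm_sq_to_K]
  norm_cast

theorem EE_rem_nonneg (h : Data G G' B β) {N : ℕ} {a : ℕ → OF d} (ha : InK N a) :
    0 ≤ (EE ν (rem N a) (mulF B B)).re := by
  have h1 := trace (ν := ν) (h.fB.mul h.β0 ha.rem_fld) (ha.rem_fld.mul zero_le_one h.fB) h.fB h.fB
    (h.sB.adj.mul ha.sym_rem.adj) h.sB.adj
  have e1 : ∫ V, ⟪vec (mulF B (rem N a)) V, vec B V⟫_ℂ ∂(PP d ν) =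
      EE ν (rem N a) (mulF B B) := by
    unfold EE
    refine integral_congr_ae (Eventually.of_forall fun V => ?_)
    show ⟪B V (rem N a V (dl 0)), B V (dl 0)⟫_ℂ = ⟪rem N a V (dl 0), B V (B V (dl 0))⟫_ℂ
    rw [h.sB V]
  rw [← e1, h1]
  have e2 := re_integral (ν := ν) h.fB (ha.rem_fld.mul zero_le_one h.fB)
  unfold EE at e2
  rw [e2]
  refine integral_nonneg fun V => ?_
  show 0 ≤ (⟪B V (dl 0), rem N a V (B V (dl 0))⟫_ℂ).re
  rw [← ha.sym_rem V]
  exact ha.rem_pos V _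

/-- the mass of `∑ a_n` -/
theorem mass_le (h : Data G G' B β) {M : ℕ} {a : ℕ → OF d} (ha : InK (M + 1) a) {δ : ℝ}
    (hδ : -δ ≤ (EE ν (sumF (M + 1) a) (subF (mulF B B) (idF lam))).re) :
    lam * ∫ V, (⟪sumF (M + 1) a V (dl 0), dl 0⟫_ℂ).re ∂(PP d ν) ≤ δ + tauB ν B := by
  have f1 := fld_id (d := d) 1
  have fl := fld_id (d := d) lam
  have e1 := EE_sub_right (ν := ν) ha.sum_contr h.fP fl
  have e2 := EE_sub_left (ν := ν) f1 ha.sum_contr h.fP
  have e3 : (EE ν (sumF (M + 1) a) (idF lam)).re =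
      lam * ∫ V, (⟪sumF (M + 1) a V (dl 0), dl 0⟫_ℂ).re ∂(PP d ν) := by
    rw [re_integral ha.sum_contr fl, ← integral_const_mul]
    refine integral_congr_ae (Eventually.of_forall fun V => ?_)
    show (⟪sumF (M + 1) a V (dl 0), ((lam : ℝ) : ℂ) • (dl 0 : L2 (Site d))⟫_ℂ).re = _
    rw [inner_smul_right, Complex.re_ofReal_mul]
  have e4 := EE_rem_nonneg (ν := ν) h ha
  unfold rem at e4
  rw [e2, Complex.sub_re, EE_id h] at e4
  rw [e1, Complex.sub_re, e3] at hδ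
  linarith

/-- the quadratic form of `T (n+1)` at `b δ₀` -/
noncomputable def hT (G G' B : OF d) (lam : ℝ) (b : OF d) (n : ℕ) (V : Site d → ℝ) : ℝ :=
  (⟪vec (mulF (TT G G' B lam (n + 1)) b) V, vec b V⟫_ℂ).re

theorem hT_int (h : Data G G' B β) {b : OF d} (hb : Fld 1 b) (n : ℕ) :
    Integrable (hT G G' B lam b n) (PP d ν) := by
  have hT0 : 0 ≤ ((n + 1 : ℕ) : ℝ) * (β * β) + |((n + 1 : ℕ) : ℝ) * lam| := by
    have := h.β0
    positivity
  exact integrable_re ((h.fT lam (n + 1)).mul hT0 hb) hb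

theorem hT_meas (h : Data G G' B β) {b : OF d} (hb : Fld 1 b) (n : ℕ) :
    Measurable (hT G G' B lam b n) := by
  have hT0 : 0 ≤ ((n + 1 : ℕ) : ℝ) * (β * β) + |((n + 1 : ℕ) : ℝ) * lam| := by
    have := h.β0
    positivity
  have s1 := ((h.fT lam (n + 1)).mul hT0 hb).sm
  have s2 := hb.sm
  have s3 : StronglyMeasurable (fun V => ⟪vec (mulF (TT G G' B lam (n + 1)) b) V, vec b V⟫_ℂ) :=
    s1.inner s2
  have s4 := Complex.measurable_re.comp s3.measurable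
  exact s4

/-- pathwise bound -/
theorem path_bound (h : Data G G' B β) (hlam : 0 < lam) {M : ℕ} {a : ℕ → OF d}
    (ha : InK (M + 1) a) (V : Site d → ℝ) (n : ℕ) (hn : n < M + 1) :
    qq G G' B (n + 1) V / ((n + 1 : ℕ) : ℝ) ≤ 2 * lam +
      2 * ∑ k ∈ Finset.range (M + 1), max (hT G G' B lam (rem (M + 1) a) k V) 0 +
      2 * β ^ 2 * (⟪sumF (M + 1) a V (dl 0), dl 0⟫_ℂ).re := by
  have hn1 : (0 : ℝ) < ((n + 1 : ℕ) : ℝ) := by positivity
  have hn2 : (1 : ℝ) ≤ ((n + 1 : ℕ) : ℝ) := by exact_mod_cast Nat.le_add_left 1 n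
  obtain ⟨bd, hbd⟩ : ∃ f : L2 (Site d), f = rem (M + 1) a V (dl 0) := ⟨_, rfl⟩
  obtain ⟨c, hc⟩ : ∃ f : L2 (Site d), f = sumF (M + 1) a V (dl 0) := ⟨_, rfl⟩
  obtain ⟨S, hS⟩ : ∃ A : L2 (Site d) →L[ℂ] L2 (Site d), A = SS G G' B (n + 1) V := ⟨_, rfl⟩
  have hbc : bd + c = dl 0 := by
    rw [hbd, rem_apply, hc]
    abel
  have hhe : ∀ k, hT G G' B lam (rem (M + 1) a) k V =
      (⟪TT G G' B lam (k + 1) V (rem (M + 1) a V (dl 0)), rem (M + 1) a V (dl 0)⟫_ℂ).re :=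
    fun k => rfl
  have t1 : qq G G' B (n + 1) V ≤ 2 * (⟪S bd, bd⟫_ℂ).re + 2 * (⟪S c, c⟫_ℂ).re := by
    have h5 := form_two S (by rw [hS]; exact h.sS (n + 1) V) (by rw [hS]; exact h.posS (n + 1) V)
      bd c
    rw [hbc] at h5
    rw [hS] at h5 ⊢
    exact h5
  have t2 : (⟪S bd, bd⟫_ℂ).re ≤
      max (hT G G' B lam (rem (M + 1) a) n V) 0 + ((n + 1 : ℕ) : ℝ) * lam := by
    have e1 : (⟪S bd, bd⟫_ℂ).re = hT G G' B lam (rem (M + 1) a) n V +
        ((n + 1 : ℕ) : ℝ) * lam * ‖bd‖ ^ 2 := by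
      have e0 : TT G G' B lam (n + 1) V (rem (M + 1) a V (dl 0)) =
        S bd - ((((n + 1 : ℕ) : ℝ) * lam : ℝ) : ℂ) • bd := by
        rw [hS, hbd]
        rfl
      rw [hhe, e0, ← hbd, inner_sub_left, Complex.sub_re, inner_smul_left, Complex.conj_ofReal,
        Complex.re_ofReal_mul, re_self]
      ring
    have e2 : ‖bd‖ ^ 2 ≤ 1 := by
      have h5 : ‖bd‖ ≤ 1 := by
        rw [hbd]
        exact ha.rem_fld.nb V
      exact pow_le_one₀ (norm_nonneg _) h5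
    rw [e1]
    have e3 : ((n + 1 : ℕ) : ℝ) * lam * ‖bd‖ ^ 2 ≤ ((n + 1 : ℕ) : ℝ) * lam := by
      have : 0 ≤ ((n + 1 : ℕ) : ℝ) * lam := by positivity
      nlinarith
    linarith [le_max_left (hT G G' B lam (rem (M + 1) a) n V) 0]
  have t3 : (⟪S c, c⟫_ℂ).re ≤ ((n + 1 : ℕ) : ℝ) * (β ^ 2 * (⟪c, dl 0⟫_ℂ).re) := by
    have e1 : (⟪S c, c⟫_ℂ).re ≤ ‖S c‖ * ‖c‖ :=
      (Complex.re_le_norm _).trans (norm_inner_le_norm _ _)
    have e2 : ‖S c‖ ≤ ((n + 1 : ℕ) : ℝ) * (β * β) * ‖c‖ := by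
      rw [hS]
      exact (h.fS (n + 1)).bd V c
    have e3 : ‖c‖ ^ 2 ≤ (⟪c, dl 0⟫_ℂ).re := by
      rw [hc]
      exact ha.sum_sq V (dl 0)
    have e4 : ‖S c‖ * ‖c‖ ≤ ((n + 1 : ℕ) : ℝ) * (β * β) * ‖c‖ * ‖c‖ :=
      mul_le_mul_of_nonneg_right e2 (norm_nonneg _)
    have e5 : ((n + 1 : ℕ) : ℝ) * (β * β) * ‖c‖ * ‖c‖ =
        ((n + 1 : ℕ) : ℝ) * (β ^ 2 * ‖c‖ ^ 2) := by ring
    have e6 : β ^ 2 * ‖c‖ ^ 2 ≤ β ^ 2 * (⟪c, dl 0⟫_ℂ).re :=
      mul_le_mul_of_nonneg_left e3 (sq_nonneg _)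
    have e7 := mul_le_mul_of_nonneg_left e6 hn1.le
    linarith
  have t4 : max (hT G G' B lam (rem (M + 1) a) n V) 0 ≤
      ∑ k ∈ Finset.range (M + 1), max (hT G G' B lam (rem (M + 1) a) k V) 0 :=
    Finset.single_le_sum (f := fun k => max (hT G G' B lam (rem (M + 1) a) k V) 0)
      (fun k _ => le_max_right _ _) (Finset.mem_range.2 hn)
  have t5 : 0 ≤ ∑ k ∈ Finset.range (M + 1), max (hT G G' B lam (rem (M + 1) a) k V) 0 :=
    Finset.sum_nonneg fun k _ => le_max_right _ _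
  rw [div_le_iff₀ hn1, ← hc]
  have t6 : ∑ k ∈ Finset.range (M + 1), max (hT G G' B lam (rem (M + 1) a) k V) 0 ≤
      (∑ k ∈ Finset.range (M + 1), max (hT G G' B lam (rem (M + 1) a) k V) 0) *
        ((n + 1 : ℕ) : ℝ) :=
    le_mul_of_one_le_right t5 hn2
  nlinarith

theorem c_int {N : ℕ} {a : ℕ → OF d} (ha : InK N a) :
    Integrable (fun V => (⟪sumF N a V (dl 0), dl 0⟫_ℂ).re) (PP d ν) := by
  have := integrable_re (ν := ν) ha.sum_contr (fld_id (d := d) 1)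
  refine this.congr (Eventually.of_forall fun V => ?_)
  show (⟪sumF N a V (dl 0), ((1 : ℝ) : ℂ) • (dl 0 : L2 (Site d))⟫_ℂ).re = _
  rw [Complex.ofReal_one, one_smul]

theorem h_le (h : Data G G' B β) {N : ℕ} {a : ℕ → OF d} (ha : InK N a) {δ : ℝ}
    (hup : ∀ a' : ℕ → OF d, InK N a' → gg ν G G' B lam N a' - gg ν G G' B lam N a ≤ δ)
    {n : ℕ} (hn : n < N) :
    ∫ V, max (hT G G' B lam (rem N a) n V) 0 ∂(PP d ν) ≤ δ := by
  have hD : MeasurableSet {V | 0 < hT G G' B lam (rem N a) n V} :=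
    measurableSet_lt measurable_const (hT_meas h ha.rem_fld n)
  have e1 := gg_pert (ν := ν) (lam := lam) h ha hn hD
  have e2 := hup _ (inK_pert ha hn hD)
  rw [e1] at e2
  have e3 : ∫ V, max (hT G G' B lam (rem N a) n V) 0 ∂(PP d ν) =
      ∫ V, indf {V | 0 < hT G G' B lam (rem N a) n V} V 0 *
        (⟪TT G G' B lam (n + 1) V (rem N a V (dl 0)), rem N a V (dl 0)⟫_ℂ).re ∂(PP d ν) := by
    refine integral_congr_ae (Eventually.of_forall fun V => ?_)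
    show max (hT G G' B lam (rem N a) n V) 0 =
      indf {V | 0 < hT G G' B lam (rem N a) n V} V 0 * hT G G' B lam (rem N a) n V
    rw [indf_zero]
    by_cases hV : 0 < hT G G' B lam (rem N a) n V
    · rw [if_pos (by exact hV), max_eq_left hV.le, one_mul]
    · rw [if_neg (by exact hV), max_eq_right (not_lt.1 hV), zero_mul]
  rw [e3]
  linarith

theorem key_bound (h : Data G G' B β) (hlam : 0 < lam) (M : ℕ) {δ : ℝ} (hδ : 0 < δ) :
    ∫⁻ V, (⨆ n ∈ Finset.range (M + 1),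
      ENNReal.ofReal (qq G G' B (n + 1) V / ((n + 1 : ℕ) : ℝ))) ∂(PP d ν) ≤
    ENNReal.ofReal (2 * lam + 2 * (((M + 1 : ℕ) : ℝ) * δ) +
      2 * β ^ 2 * ((δ + tauB ν B) / lam)) := by
  obtain ⟨a, ha, hup⟩ : ∃ a : ℕ → OF d, InK (M + 1) a ∧ ∀ a' : ℕ → OF d, InK (M + 1) a' →
      gg ν G G' B lam (M + 1) a' - gg ν G G' B lam (M + 1) a ≤ δ := by
    have hbdd := gg_bdd (ν := ν) (lam := lam) h (M + 1)
    have hne : {r | ∃ a : ℕ → OF d, InK (M + 1) a ∧ gg ν G G' B lam (M + 1) a = r}.Nonempty :=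
      ⟨_, _, inK_zero (M + 1), rfl⟩
    obtain ⟨r, ⟨a, ha, rfl⟩, hr⟩ := exists_lt_of_lt_csSup hne (sub_lt_self _ hδ)
    refine ⟨a, ha, fun a' ha' => ?_⟩
    have := le_csSup hbdd ⟨a', ha', rfl⟩
    linarith
  have h1 : -δ ≤ (EE ν (sumF (M + 1) a) (subF (mulF B B) (idF lam))).re := by
    rw [← gg_sh h ha]
    have := hup _ (inK_sh h ha)
    linarith
  have hmass := mass_le h ha h1
  have hmass' : ∫ V, (⟪sumF (M + 1) a V (dl 0), dl 0⟫_ℂ).re ∂(PP d ν) ≤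
      (δ + tauB ν B) / lam := by
    rw [le_div_iff₀ hlam]
    linarith
  have hTb : ∀ n : ℕ, Integrable (hT G G' B lam (rem (M + 1) a) n) (PP d ν) := fun n =>
    hT_int h ha.rem_fld n
  have i1 : Integrable (fun _ : Site d → ℝ => 2 * lam) (PP d ν) := integrable_const _
  have i2 : Integrable (fun V => 2 * ∑ n ∈ Finset.range (M + 1),
      max (hT G G' B lam (rem (M + 1) a) n V) 0) (PP d ν) :=
    (integrable_finsetSum _ fun n _ => (hTb n).pos_part).const_mul 2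
  have i3 : Integrable (fun V => 2 * β ^ 2 *
      (⟪sumF (M + 1) a V (dl 0), dl 0⟫_ℂ).re) (PP d ν) := (c_int ha).const_mul _
  have i12 : Integrable (fun V => 2 * lam + 2 * ∑ n ∈ Finset.range (M + 1),
      max (hT G G' B lam (rem (M + 1) a) n V) 0) (PP d ν) := i1.add i2
  have hRi := i12.add i3
  have hint : ∫ V, (2 * lam + 2 * ∑ n ∈ Finset.range (M + 1),
      max (hT G G' B lam (rem (M + 1) a) n V) 0 +
      2 * β ^ 2 * (⟪sumF (M + 1) a V (dl 0), dl 0⟫_ℂ).re) ∂(PP d ν) ≤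
      2 * lam + 2 * (((M + 1 : ℕ) : ℝ) * δ) + 2 * β ^ 2 * ((δ + tauB ν B) / lam) := by
    have e4 : ∫ _ : Site d → ℝ, 2 * lam ∂(PP d ν) = 2 * lam := by simp
    rw [integral_add i12 i3, integral_add i1 i2, e4, integral_const_mul,
      integral_const_mul, integral_finsetSum _ fun n _ => (hTb n).pos_part]
    have e2 : ∑ n ∈ Finset.range (M + 1),
        ∫ V, max (hT G G' B lam (rem (M + 1) a) n V) 0 ∂(PP d ν) ≤ ((M + 1 : ℕ) : ℝ) * δ := by
      have := Finset.sum_le_card_nsmul (Finset.range (M + 1))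
        (fun n => ∫ V, max (hT G G' B lam (rem (M + 1) a) n V) 0 ∂(PP d ν)) δ
        (fun n hn => h_le h ha hup (Finset.mem_range.1 hn))
      rw [Finset.card_range, nsmul_eq_mul] at this
      exact this
    have e3 := mul_le_mul_of_nonneg_left hmass' (by positivity : 0 ≤ 2 * β ^ 2)
    linarith
  have hR0 : ∀ V, 0 ≤ 2 * lam + 2 * ∑ n ∈ Finset.range (M + 1),
      max (hT G G' B lam (rem (M + 1) a) n V) 0 +
      2 * β ^ 2 * (⟪sumF (M + 1) a V (dl 0), dl 0⟫_ℂ).re := by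
    intro V
    have h5 : 0 ≤ (⟪sumF (M + 1) a V (dl 0), dl 0⟫_ℂ).re :=
      (sq_nonneg _).trans (ha.sum_sq V (dl 0))
    have h6 : 0 ≤ ∑ n ∈ Finset.range (M + 1), max (hT G G' B lam (rem (M + 1) a) n V) 0 :=
      Finset.sum_nonneg fun k _ => le_max_right _ _
    positivity
  calc ∫⁻ V, (⨆ n ∈ Finset.range (M + 1),
        ENNReal.ofReal (qq G G' B (n + 1) V / ((n + 1 : ℕ) : ℝ))) ∂(PP d ν)
      ≤ ∫⁻ V, ENNReal.ofReal (2 * lam + 2 * ∑ n ∈ Finset.range (M + 1),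
          max (hT G G' B lam (rem (M + 1) a) n V) 0 +
          2 * β ^ 2 * (⟪sumF (M + 1) a V (dl 0), dl 0⟫_ℂ).re) ∂(PP d ν) := by
        refine lintegral_mono fun V => iSup₂_le fun n hn => ?_
        exact ENNReal.ofReal_le_ofReal (path_bound h hlam ha V n (Finset.mem_range.1 hn))
    _ = ENNReal.ofReal (∫ V, (2 * lam + 2 * ∑ n ∈ Finset.range (M + 1),
          max (hT G G' B lam (rem (M + 1) a) n V) 0 +
          2 * β ^ 2 * (⟪sumF (M + 1) a V (dl 0), dl 0⟫_ℂ).re) ∂(PP d ν)) :=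
        (ofReal_integral_eq_lintegral_ofReal hRi (Eventually.of_forall hR0)).symm
    _ ≤ _ := ENNReal.ofReal_le_ofReal hint

theorem maximal_fin (h : Data G G' B β) (hlam : 0 < lam) (M : ℕ) :
    ∫⁻ V, (⨆ n ∈ Finset.range (M + 1), ENNReal.ofReal (qq G G' B (n + 1) V / ((n + 1 : ℕ) : ℝ)))
        ∂(PP d ν) ≤
      ENNReal.ofReal (2 * lam + 2 * β ^ 2 * (tauB ν B / lam)) := by
  -- `δ → 0`
  have hlim : Tendsto (fun δ : ℝ => ENNReal.ofReal (2 * lam + 2 * (((M + 1 : ℕ) : ℝ) * δ) +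
        2 * β ^ 2 * ((δ + tauB ν B) / lam))) (𝓝[>] 0)
      (𝓝 (ENNReal.ofReal (2 * lam + 2 * β ^ 2 * (tauB ν B / lam)))) := by
    have hc : Continuous (fun δ : ℝ => 2 * lam + 2 * (((M + 1 : ℕ) : ℝ) * δ) +
        2 * β ^ 2 * ((δ + tauB ν B) / lam)) := by fun_prop
    have := (ENNReal.continuous_ofReal.comp hc).tendsto 0
    simp only [Function.comp, mul_zero, add_zero, zero_add] at this
    exact this.mono_left nhdsWithin_le_nhds
  refine ge_of_tendsto hlim ?_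
  filter_upwards [self_mem_nhdsWithin] with δ hδ
  exact key_bound h hlam M hδ

theorem meas_qq (h : Data G G' B β) (n : ℕ) : Measurable (qq G G' B n) := by
  have s1 := (h.fS n).sm
  have s2 : StronglyMeasurable (fun _ : Site d → ℝ => (dl 0 : L2 (Site d))) :=
    stronglyMeasurable_const
  exact Complex.measurable_re.comp (s1.inner s2).measurable

/-- the maximal inequality -/
theorem maximal (h : Data G G' B β) (hlam : 0 < lam) :
    ∫⁻ V, (⨆ n : ℕ, ENNReal.ofReal (qq G G' B (n + 1) V / ((n + 1 : ℕ) : ℝ))) ∂(PP d ν) ≤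
      ENNReal.ofReal (2 * lam + 2 * β ^ 2 * (tauB ν B / lam)) := by
  have e : ∀ V, (⨆ n : ℕ, ENNReal.ofReal (qq G G' B (n + 1) V / ((n + 1 : ℕ) : ℝ))) =
      ⨆ M : ℕ, ⨆ n ∈ Finset.range (M + 1),
        ENNReal.ofReal (qq G G' B (n + 1) V / ((n + 1 : ℕ) : ℝ)) := by
    intro V
    apply le_antisymm
    · refine iSup_le fun n => ?_
      refine le_iSup_of_le n ?_
      exact le_iSup₂_of_le n (Finset.mem_range.2 (Nat.lt_succ_self n)) le_rfl
    · refine iSup_le fun M => iSup₂_le fun n _ => ?_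
      exact le_iSup (fun n : ℕ => ENNReal.ofReal (qq G G' B (n + 1) V / ((n + 1 : ℕ) : ℝ))) n
  simp only [e]
  rw [lintegral_iSup]
  · exact iSup_le fun M => maximal_fin h hlam M
  · intro M
    refine Measurable.biSup _ (Finset.countable_toSet _) fun n _ => ?_
    exact ENNReal.measurable_ofReal.comp ((meas_qq h (n + 1)).div_const _)
  · intro M M' hMM V
    refine iSup₂_le fun n hn => ?_
    refine le_iSup₂_of_le n ?_ le_rfl
    exact Finset.mem_range.2 ((Finset.mem_range.1 hn).trans_le (Nat.succ_le_succ hMM))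

end main

end Pool.Agent.R988.NQ
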