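import Pool.Agent.R988.NQ.Fld
import Pool.Agent.H5R2.NB.ALL

/-! # Second moments of the position for general initial states -/

set_option autoImplicit false

open MeasureTheory Filter Topology
open scoped BigOperators ENNReal NNReal InnerProductSpace ComplexConjugate

namespace Pool.Agent.R988.NQ

open Pool.Agent.H5R2.NB
open Pool.Agent.H5R2.NB.MOM

variable {d : ℕ}

/-- the second moment of the `j`-th coordinate -/
noncomputable def m2 (j : Fin d) (ψ : L2 (Site d)) : ℝ≥0∞ :=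
  ∑' x : Site d, ENNReal.ofReal ((x j : ℝ) ^ 2) * ‖ψ x‖ₑ ^ 2

theorem isSol2 (c : ℝ) (V : Site d → ℝ) (W : UG (L2 (Site d))) (hW : IsGrp c V W) (j : Fin d)
    (R : ℕ) (Sp Sm : L2 (Site d) →L[ℂ] L2 (Site d))
    (hp : IsShift (Pi.single j 1) Sp) (hm : IsShift (-Pi.single j 1) Sm) (ψ : L2 (Site d)) :
    IsSol c V (fun t => mulop (xi j R) R (xi_abs j R) (W.U t ψ))
      (fun t => vR c j R Sp Sm (W.U t ψ)) := by
  refine ⟨fun T => ⟨R * ‖ψ‖, fun t _ => ?_⟩, fun t x => ?_⟩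
  · have h := mulop_norm_le (xi j R) R (xi_abs j R) (W.U t ψ)
    rwa [W.norm'] at h
  · have h := ((hW ψ).2 t x).const_mul (xi j R x : ℂ)
    have e : (fun s => (mulop (xi j R) R (xi_abs j R) (W.U s ψ)) x) =
        fun s => (xi j R x : ℂ) * (W.U s ψ) x := by
      funext s
      rfl
    rw [e]
    refine h.congr_deriv ?_
    have e2 : (fun y => (mulop (xi j R) R (xi_abs j R) (W.U t ψ)) y) =
        fun y => (xi j R y : ℂ) * (W.U t ψ) y := by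
      funext y
      rfl
    have e3 : ((0 : L2 (Site d)) x) = 0 := rfl
    rw [e2, hop_comm, vR_apply c j R Sp Sm hp hm, mulop_apply, e3]
    ring

theorem mulop_enorm (j : Fin d) (R : ℕ) (ψ : L2 (Site d)) :
    ‖mulop (xi j R) R (xi_abs j R) ψ‖ₑ ^ 2 =
      ∑' x : Site d, ENNReal.ofReal ((xi j R x) ^ 2) * ‖ψ x‖ₑ ^ 2 := by
  rw [← enorm_sq]
  refine tsum_congr fun x => ?_
  rw [mulop_apply, enorm_mul, mul_pow]
  congr 1
  rw [← ofReal_norm, Complex.norm_real, Real.norm_eq_abs, ← ENNReal.ofReal_pow (abs_nonneg _),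
    sq_abs]

theorem xi_le (j : Fin d) (R : ℕ) (x : Site d) : |xi j R x| ≤ |(x j : ℝ)| := by
  have hR0 : (0 : ℝ) ≤ R := Nat.cast_nonneg R
  unfold xi
  rw [abs_le]
  constructor
  · rcases le_total (R : ℝ) (x j : ℝ) with h3 | h3
    · rw [min_eq_left h3]
      refine le_max_of_le_right ?_
      have := neg_abs_le (x j : ℝ)
      linarith [abs_nonneg (x j : ℝ)]
    · rw [min_eq_right h3]
      exact le_max_of_le_right (neg_abs_le _)
  · refine max_le (by linarith [abs_nonneg (x j : ℝ)]) ?_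
    exact (min_le_right _ _).trans (le_abs_self _)

theorem sq_add_le (a b : ℝ≥0∞) : (a + b) ^ 2 ≤ 2 * a ^ 2 + 2 * b ^ 2 := by
  by_cases ha : a = ∞
  · subst ha; simp
  by_cases hb : b = ∞
  · subst hb; simp
  lift a to ℝ≥0 using ha
  lift b to ℝ≥0 using hb
  have h : (a + b) ^ 2 ≤ 2 * a ^ 2 + 2 * b ^ 2 := by
    have h1 : ((a : ℝ) + b) ^ 2 ≤ 2 * (a : ℝ) ^ 2 + 2 * (b : ℝ) ^ 2 := by
      nlinarith [sq_nonneg ((a : ℝ) - b)]
    exact_mod_cast h1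
  exact_mod_cast h

/-- growth of the second moment -/
theorem mom_le (c : ℝ) (V : Site d → ℝ) (W : UG (L2 (Site d))) (hW : IsGrp c V W) (j : Fin d)
    (v : L2 (Site d) →L[ℂ] L2 (Site d)) (hv : IsVel c j v) (ψ : L2 (Site d)) (t : ℝ) :
    m2 j (W.U t ψ) ≤ 2 * m2 j ψ +
      2 * ‖∫ s in (0 : ℝ)..t, W.U (-s) (v (W.U s ψ))‖ₑ ^ 2 := by
  obtain ⟨Sp, hp⟩ := (t_OPS d).1 (Pi.single j 1)
  obtain ⟨Sm, hm⟩ := (t_OPS d).1 (-Pi.single j 1)
  have hcw : Continuous fun s => W.U s ψ := W.cont' _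
  have key : ∀ R : ℕ, ‖mulop (xi j R) R (xi_abs j R) (W.U t ψ)‖ₑ ≤
      ‖mulop (xi j R) R (xi_abs j R) ψ‖ₑ +
      ‖∫ s in (0 : ℝ)..t, W.U (-s) (vR c j R Sp Sm (W.U s ψ))‖ₑ := by
    intro R
    have hch : Continuous fun s => vR c j R Sp Sm (W.U s ψ) :=
      (vR c j R Sp Sm).continuous.comp hcw
    have hU := ALL.a_UN d c V W hW _ _ hch (isSol2 c V W hW j R Sp Sm hp hm ψ) t
    have e1 : ∫ s in (0 : ℝ)..t, W.U (t - s) (vR c j R Sp Sm (W.U s ψ)) =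
        W.U t (∫ s in (0 : ℝ)..t, W.U (-s) (vR c j R Sp Sm (W.U s ψ))) := by
      rw [← ContinuousLinearMap.intervalIntegral_comp_comm _
        ((cont_comp W _ hch).intervalIntegrable 0 t)]
      refine intervalIntegral.integral_congr fun s _ => ?_
      show W.U (t - s) _ = W.U t (W.U (-s) _)
      rw [← W.add', sub_eq_add_neg]
    rw [hU, e1]
    refine (enorm_add_le _ _).trans ?_
    rw [← ofReal_norm, ← ofReal_norm, W.norm', W.norm', ofReal_norm, ofReal_norm, W.zero']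
  have hR : Tendsto (fun R : ℕ => ‖∫ s in (0 : ℝ)..t,
      W.U (-s) (vR c j R Sp Sm (W.U s ψ))‖ₑ ^ 2) atTop
      (𝓝 (‖∫ s in (0 : ℝ)..t, W.U (-s) (v (W.U s ψ))‖ₑ ^ 2)) := by
    have h1 : Tendsto (fun R : ℕ => ∫ s in (0 : ℝ)..t,
        W.U (-s) (vR c j R Sp Sm (W.U s ψ))) atTop
        (𝓝 (∫ s in (0 : ℝ)..t, W.U (-s) (v (W.U s ψ)))) := by
      refine intervalIntegral.tendsto_integral_filter_of_dominated_convergence
        (bound := fun _ => |c| * (‖Sp‖ + ‖Sm‖) * ‖ψ‖) ?_ ?_ ?_ ?_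
      · refine Eventually.of_forall fun R => ?_
        exact (cont_comp W _ ((vR c j R Sp Sm).continuous.comp hcw)).aestronglyMeasurable
      · refine Eventually.of_forall fun R => ae_of_all _ fun s _ => ?_
        rw [W.norm']
        have := vR_norm_le c j R Sp Sm (W.U s ψ)
        rwa [W.norm'] at this
      · exact intervalIntegrable_const
      · refine ae_of_all _ fun s _ => ?_
        exact ((W.U (-s)).continuous.tendsto _).comp (vR_tendsto c j Sp Sm v hp hm hv _)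
    exact ENNReal.Tendsto.pow ((continuous_enorm.tendsto _).comp h1)
  have hR' : Tendsto (fun R : ℕ => 2 * m2 j ψ + 2 * ‖∫ s in (0 : ℝ)..t,
      W.U (-s) (vR c j R Sp Sm (W.U s ψ))‖ₑ ^ 2) atTop
      (𝓝 (2 * m2 j ψ + 2 * ‖∫ s in (0 : ℝ)..t, W.U (-s) (v (W.U s ψ))‖ₑ ^ 2)) :=
    tendsto_const_nhds.add (ENNReal.Tendsto.const_mul hR (Or.inr (by norm_num)))
  unfold m2
  rw [ENNReal.tsum_eq_iSup_sum]
  refine iSup_le fun F => ?_
  refine ge_of_tendsto hR' ?_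
  have hev : ∀ᶠ R : ℕ in atTop, ∀ x ∈ F, xi j R x = x j :=
    (Finset.eventually_all F).mpr fun x _ => xi_eventually j x
  filter_upwards [hev] with R hR
  calc ∑ x ∈ F, ENNReal.ofReal ((x j : ℝ) ^ 2) * ‖(W.U t ψ) x‖ₑ ^ 2
      = ∑ x ∈ F, ENNReal.ofReal ((xi j R x) ^ 2) * ‖(W.U t ψ) x‖ₑ ^ 2 :=
        Finset.sum_congr rfl fun x hx => by rw [hR x hx]
    _ ≤ ∑' x, ENNReal.ofReal ((xi j R x) ^ 2) * ‖(W.U t ψ) x‖ₑ ^ 2 := ENNReal.sum_le_tsum F
    _ = ‖mulop (xi j R) R (xi_abs j R) (W.U t ψ)‖ₑ ^ 2 := (mulop_enorm j R _).symm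
    _ ≤ (‖mulop (xi j R) R (xi_abs j R) ψ‖ₑ +
      ‖∫ s in (0 : ℝ)..t, W.U (-s) (vR c j R Sp Sm (W.U s ψ))‖ₑ) ^ 2 :=
        pow_le_pow_left' (key R) 2
    _ ≤ 2 * ‖mulop (xi j R) R (xi_abs j R) ψ‖ₑ ^ 2 +
      2 * ‖∫ s in (0 : ℝ)..t, W.U (-s) (vR c j R Sp Sm (W.U s ψ))‖ₑ ^ 2 := sq_add_le _ _
    _ ≤ 2 * m2 j ψ +
      2 * ‖∫ s in (0 : ℝ)..t, W.U (-s) (vR c j R Sp Sm (W.U s ψ))‖ₑ ^ 2 := by
        gcongr
        rw [mulop_enorm]
        unfold m2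
        refine ENNReal.tsum_le_tsum fun x => ?_
        refine mul_le_mul' (ENNReal.ofReal_le_ofReal (sq_le_sq.mpr (xi_le j R x))) le_rfl

end Pool.Agent.R988.NQ
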