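import Pool.Agent.R988.NQ.Cst

/-! # General bounded covariant fields -/

set_option autoImplicit false

open MeasureTheory Filter Topology Set
open scoped ENNReal NNReal InnerProductSpace ComplexConjugate

namespace Pool.Agent.R988.NQ

open Pool.Agent.H5R2.NB Pool.Agent.H5R2.NBA Pool.Agent.H5R2.NB.MOM

section opf

variable {d : ℕ}

theorem pf_tendsto {F : ℕ → Finset (Site d)} (hF : ∀ x : Site d, ∀ᶠ n in atTop, x ∈ F n)
    (ψ : L2 (Site d)) : Tendsto (fun n => pf (F n) ψ) atTop (𝓝 ψ) := by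
  have hchi : ∀ x : Site d, Tendsto (fun n => chi (F n) x) atTop (𝓝 1) := by
    intro x
    refine tendsto_const_nhds.congr' ?_
    filter_upwards [hF x] with n hn
    unfold chi
    simp [hn]
  refine tendsto_dom _ _ ψ (fun n x => ?_) fun x => ?_
  · rw [pf_apply, norm_mul, Complex.norm_real, Real.norm_eq_abs]
    exact mul_le_of_le_one_left (norm_nonneg _) (chi_abs _ _)
  · have h9 := ((Complex.continuous_ofReal.tendsto _).comp (hchi x)).mul_const (ψ x)
    rw [Complex.ofReal_one, one_mul] at h9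
    exact h9

theorem pf_sum (F : Finset (Site d)) (ψ : L2 (Site d)) :
    pf F ψ = ∑ y ∈ F, (ψ y) • (dl y : L2 (Site d)) := by
  ext x
  have e3 : ∀ u : L2 (Site d), u x = ⟪(dl x : L2 (Site d)), u⟫_ℂ := fun u =>
    (STAT.inner_dl x u).symm
  rw [pf_apply, e3 (∑ y ∈ F, (ψ y) • (dl y : L2 (Site d))), inner_sum]
  simp only [inner_smul_right, STAT.inner_dl]
  have e4 : ∀ z : Site d, (dl z : L2 (Site d)) x = if z = x then 1 else 0 := by
    intro z
    unfold dl
    rw [lp.single_apply, Pi.single_apply]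
    simp [eq_comm]
  simp only [e4, mul_ite, mul_one, mul_zero, Finset.sum_ite_eq']
  unfold chi
  split_ifs with hx
  · simp
  · simp

theorem sm_coord {Ω : Type} [MeasurableSpace Ω] {g : Ω → L2 (Site d)}
    (h : ∀ x : Site d, Measurable fun ω => (g ω) x) : StronglyMeasurable g := by
  obtain ⟨F, hF⟩ := exhaust (d := d)
  refine stronglyMeasurable_of_tendsto (atTop : Filter ℕ) (f := fun n ω => pf (F n) (g ω))
    (fun n => ?_) (tendsto_pi_nhds.2 fun ω => pf_tendsto hF (g ω))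
  simp only [pf_sum]
  exact Finset.stronglyMeasurable_fun_sum _ fun y _ =>
    ((h y).stronglyMeasurable).smul_const (dl y : L2 (Site d))

theorem Fld.smul {A : OF d} {C : ℝ} (hA : Fld C A) (c : ℂ) : Fld (‖c‖ * C) (fun V => c • A V) := by
  refine ⟨fun V ψ => ?_, fun f hf => (hA.meas f hf).const_smul c, fun z S hS V ψ => ?_⟩
  · show ‖c • A V ψ‖ ≤ _
    rw [norm_smul, mul_assoc]
    exact mul_le_mul_of_nonneg_left (hA.bd V ψ) (norm_nonneg _)
  · show c • A (fun y => V (y + z)) (S ψ) = S (c • A V ψ)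
    rw [hA.cov z S hS, map_smul]

/-- the adjoint field -/
noncomputable def adjF (W : OF d) : OF d := fun V => ContinuousLinearMap.adjoint (W V)

theorem adjF_left (W : OF d) (V : Site d → ℝ) (f g : L2 (Site d)) :
    ⟪adjF W V f, g⟫_ℂ = ⟪f, W V g⟫_ℂ := ContinuousLinearMap.adjoint_inner_left _ _ _

theorem adjF_right (W : OF d) (V : Site d → ℝ) (f g : L2 (Site d)) :
    ⟪f, adjF W V g⟫_ℂ = ⟪W V f, g⟫_ℂ := ContinuousLinearMap.adjoint_inner_right _ _ _

theorem flds {W : OF d} {M : ℝ} (hb : ∀ V ψ, ‖W V ψ‖ ≤ M * ‖ψ‖)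
    (hm : ∀ (u : L2 (Site d)) (x : Site d), Measurable fun V => (W V u) x)
    (hc : ∀ (z : Site d) (S : L2 (Site d) →L[ℂ] L2 (Site d)), IsShift z S → ∀ V ψ,
      W (fun y => V (y + z)) (S ψ) = S (W V ψ)) :
    Fld M W ∧ Fld M (adjF W) := by
  have hM : 0 ≤ M := by
    have h1 := hb 0 (dl 0)
    rw [STAT.norm_dl, mul_one] at h1
    exact (norm_nonneg _).trans h1
  have h1 : ∀ j : Site d, StronglyMeasurable fun V => adjF W V (dl j) := by
    intro j
    refine sm_coord fun x => ?_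
    have e : ∀ V, (adjF W V (dl j)) x = conj ((W V (dl x)) j) := by
      intro V
      rw [← STAT.inner_dl x, adjF_right, ← inner_conj_symm, STAT.inner_dl]
    simp only [e]
    exact Complex.continuous_conj.measurable.comp (hm (dl x) j)
  have h2 : ∀ u : L2 (Site d), StronglyMeasurable fun V => W V u := fun u => sm_coord fun x =>
    hm u x
  refine ⟨⟨hb, fun f hf => sm_coord fun x => ?_, hc⟩, ⟨fun V ψ => ?_, fun f hf =>
    sm_coord fun x => ?_, fun z S hS V ψ => ?_⟩⟩
  · have e : ∀ V, (W V (f V)) x = ⟪adjF W V (dl x), f V⟫_ℂ := by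
      intro V
      rw [adjF_left, STAT.inner_dl]
    simp only [e]
    exact ((h1 x).inner hf).measurable
  · have h3 : ‖adjF W V‖ ≤ M := by
      unfold adjF
      rw [LinearIsometryEquiv.norm_map]
      exact ContinuousLinearMap.opNorm_le_bound _ hM (hb V)
    exact (ContinuousLinearMap.le_opNorm _ _).trans
      (mul_le_mul_of_nonneg_right h3 (norm_nonneg _))
  · have e : ∀ V, (adjF W V (f V)) x = ⟪W V (dl x), f V⟫_ℂ := by
      intro V
      rw [← STAT.inner_dl x, adjF_right]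
    simp only [e]
    exact ((h2 (dl x)).inner hf).measurable
  · refine ext_inner_left ℂ fun φ => ?_
    have hT := sO_shift (d := d) (-z)
    have e1 : S (sO (-z) φ) = φ := ZAC.inv1 hS hT φ
    have e2 : ∀ a b : L2 (Site d), ⟪S a, S b⟫_ℂ = ⟪a, b⟫_ℂ := by
      intro a b
      rw [STAT.shift_inner z S (sO (-z)) hS hT, ZAC.inv2 hS hT]
    have e3 : ⟪φ, S (adjF W V ψ)⟫_ℂ = ⟪sO (-z) φ, adjF W V ψ⟫_ℂ := by
      conv_lhs => rw [← e1]
      rw [e2]
    rw [adjF_right, e3, adjF_right]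
    conv_lhs => rw [← e1]
    rw [hc z S hS, e2]

/-- real part -/
noncomputable def reF (W : OF d) : OF d := fun V => (2⁻¹ : ℂ) • addF W (adjF W) V

/-- imaginary part -/
noncomputable def imF (W : OF d) : OF d := fun V => (-(Complex.I * 2⁻¹) : ℂ) • subF W (adjF W) V

theorem re_im (W : OF d) (V : Site d → ℝ) (ψ : L2 (Site d)) :
    W V ψ = reF W V ψ + Complex.I • imF W V ψ := by
  show W V ψ = (2⁻¹ : ℂ) • (W V ψ + adjF W V ψ) +
    Complex.I • ((-(Complex.I * 2⁻¹) : ℂ) • (W V ψ - adjF W V ψ))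
  rw [smul_smul]
  have e : Complex.I * -(Complex.I * 2⁻¹) = (2⁻¹ : ℂ) := by
    rw [mul_neg, ← mul_assoc, Complex.I_mul_I]
    ring
  rw [e]
  module

theorem sym_re (W : OF d) : Sym (reF W) := by
  intro V f g
  show ⟪(2⁻¹ : ℂ) • (W V f + adjF W V f), g⟫_ℂ = ⟪f, (2⁻¹ : ℂ) • (W V g + adjF W V g)⟫_ℂ
  rw [inner_smul_left, inner_smul_right, inner_add_left, inner_add_right, adjF_left, adjF_right,
    add_comm, map_inv₀]
  congr 2
  exact map_ofNat _ 2

theorem sym_im (W : OF d) : Sym (imF W) := by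
  intro V f g
  show ⟪(-(Complex.I * 2⁻¹) : ℂ) • (W V f - adjF W V f), g⟫_ℂ =
    ⟪f, (-(Complex.I * 2⁻¹) : ℂ) • (W V g - adjF W V g)⟫_ℂ
  rw [inner_smul_left, inner_smul_right, inner_sub_left, inner_sub_right, adjF_left, adjF_right]
  have e : conj (-(Complex.I * 2⁻¹) : ℂ) = Complex.I * 2⁻¹ := by
    rw [map_neg, map_mul, Complex.conj_I, map_inv₀, map_ofNat]
    ring
  rw [e]
  ring

end opf

end Pool.Agent.R988.NQ
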