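import Pool.Agent.R988.NQ.Ctr

/-! # Conserved fields preserve orthogonality to the cyclic subspaces of the sites -/

set_option autoImplicit false

open MeasureTheory Filter Topology
open scoped BigOperators ENNReal NNReal InnerProductSpace ComplexConjugate

namespace Pool.Agent.R988.NQ

open Pool.Agent.H5R2.NB Pool.Agent.H5R2.NBA Pool.Agent.H5R2.NB.MOM
open Pool.Agent.Y662.ERG (Obs shf)

section orth

variable {d : ℕ} {c : ℝ} {ev : (Site d → ℝ) → UG (L2 (Site d))}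
variable {ν : Measure ℝ} [IsProbabilityMeasure ν]

/-- Fatou: the limit field is close to the conserved field -/
theorem fatou (hev : ∀ V, IsGrp c V (ev V)) {v : OF d} {M : ℝ} (hO : Obs d v M) {w : OF d}
    {β : ℝ} (hβ : 0 ≤ β) (hw : Fld β w) (sw : Sym w)
    (comm : ∀ᵐ V ∂(PP d ν), ∀ t x, w V ((ev V).U t x) = (ev V).U t (w V x))
    {Nk : ℕ → ℕ} (hNk : Tendsto Nk atTop atTop) {B : OF d}
    (hG : ∀ᵐ V ∂(PP d ν), Good (ev V) (v V) Nk (B V)) :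
    ∫⁻ V, ‖B V (dl 0) - w V (dl 0)‖ₑ ^ 2 ∂(PP d ν) ≤ nn ν (subF v w) := by
  have h1 : ∀ᵐ V ∂(PP d ν), ‖B V (dl 0) - w V (dl 0)‖ₑ ^ 2 =
      liminf (fun k => ‖avP (ev V) (v V) (Nk k) (dl 0) - w V (dl 0)‖ₑ ^ 2) atTop := by
    filter_upwards [hG] with V hV
    refine (Tendsto.liminf_eq ?_).symm
    exact ((ENNReal.continuous_pow 2).tendsto _).comp
      ((continuous_enorm.tendsto _).comp ((hV (dl 0)).1.sub_const (w V (dl 0))))
  rw [lintegral_congr_ae h1]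
  have hm : ∀ k, Measurable fun V => ‖avP (ev V) (v V) (Nk k) (dl 0) - w V (dl 0)‖ₑ ^ 2 :=
    fun k => ((((sm_avO hev hO (Nk k) (fun _ => dl 0) stronglyMeasurable_const).sub
      hw.sm).enorm).pow_const 2)
  refine (lintegral_liminf_le hm).trans ?_
  have h2 : ∀ᶠ k in atTop, ∫⁻ V, ‖avP (ev V) (v V) (Nk k) (dl 0) - w V (dl 0)‖ₑ ^ 2
      ∂(PP d ν) ≤ nn ν (subF v w) := by
    filter_upwards [hNk.eventually_gt_atTop 0] with k hk
    exact contr hev hO hβ hw sw comm (Nk k) hk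
  calc liminf (fun k => ∫⁻ V, ‖avP (ev V) (v V) (Nk k) (dl 0) - w V (dl 0)‖ₑ ^ 2
      ∂(PP d ν)) atTop ≤ liminf (fun _ : ℕ => nn ν (subF v w)) atTop :=
        liminf_le_liminf h2
    _ = _ := by simp

/-- conserved fields which can be approximated by observables preserve orthogonality -/
theorem orth (hev : ∀ V, IsGrp c V (ev V)) (hν : ∀ κ : ℝ, ν {κ} ≠ 1) {w : OF d}
    {β : ℝ} (hβ : 0 ≤ β) (hw : Fld β w) (sw : Sym w)
    (comm : ∀ᵐ V ∂(PP d ν), ∀ t x, w V ((ev V).U t x) = (ev V).U t (w V x))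
    (happ : ∀ ε : ℝ≥0∞, 0 < ε → ∃ (v : OF d) (M : ℝ), Obs d v M ∧ nn ν (subF v w) ≤ ε) :
    ∀ᵐ V ∂(PP d ν), ∀ z : Site d, ∀ φ ∈ HAC (ev V), (∀ t, ⟪φ, (ev V).U t (dl z)⟫_ℂ = 0) →
      ⟪w V φ, (dl z : L2 (Site d))⟫_ℂ = 0 := by
  have hpos : ∀ n : ℕ, (0 : ℝ≥0∞) < (2⁻¹ : ℝ≥0∞) ^ n := fun n => ENNReal.pow_pos (by simp) n
  choose vn Mn hOn hnn using fun n : ℕ => happ ((2⁻¹ : ℝ≥0∞) ^ n) (hpos n)
  have hex : ∀ n, ∃ Nk : ℕ → ℕ, Tendsto Nk atTop atTop ∧ ∀ᵐ V ∂(PP d ν),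
      ∃ B : L2 (Site d) →L[ℂ] L2 (Site d), Good (ev V) (vn n V) Nk B := by
    intro n
    obtain ⟨b, hb, hlim⟩ := Pool.Agent.Y662.ERG.lim2 hev (hOn n) ν
    obtain ⟨a, ha, hG⟩ := hlim id tendsto_id
    exact ⟨id ∘ a, tendsto_id.comp ha.tendsto_atTop, hG.mono fun V ⟨B, hB, _⟩ => ⟨B, hB⟩⟩
  choose Nk hNk hGk using hex
  set W : ℕ → OF d := fun n => wFO ev (vn n) (Nk n) with hW
  have hWG : ∀ n, ∀ᵐ V ∂(PP d ν), Good (ev V) (vn n V) (Nk n) (W n V) := by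
    intro n
    filter_upwards [hGk n] with V ⟨B, hB⟩
    rw [hW]
    show Good (ev V) (vn n V) (Nk n) (wFO ev (vn n) (Nk n) V)
    rw [wFO_eq hB]
    exact hB
  have hWf : ∀ n, Fld (Mn n) (W n) := fun n => fld_wFO hev (hOn n) (hNk n)
  have hWs : ∀ n, Sym (W n) := fun n => sym_wFO (hOn n) (Nk n)
  have hF : ∀ n, ∫⁻ V, ‖W n V (dl 0) - w V (dl 0)‖ₑ ^ 2 ∂(PP d ν) ≤ (2⁻¹ : ℝ≥0∞) ^ n := fun n =>
    (fatou hev (hOn n) hβ hw sw comm (hNk n) (hWG n)).trans (hnn n)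
  have hfm : ∀ n, Measurable fun V => ‖W n V (dl 0) - w V (dl 0)‖ₑ ^ 2 := fun n =>
    (((hWf n).sm.sub hw.sm).enorm).pow_const 2
  have hsum : ∫⁻ V, ∑' n, ‖W n V (dl 0) - w V (dl 0)‖ₑ ^ 2 ∂(PP d ν) ≠ ∞ := by
    rw [lintegral_tsum fun n => (hfm n).aemeasurable]
    refine ne_top_of_le_ne_top ?_ (ENNReal.tsum_le_tsum hF)
    rw [ENNReal.tsum_geometric]
    simp
  have h0 : ∀ᵐ V ∂(PP d ν), Tendsto (fun n => W n V (dl 0)) atTop (𝓝 (w V (dl 0))) := by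
    filter_upwards [ae_lt_top' (AEMeasurable.tsum fun n => (hfm n).aemeasurable) hsum] with V hV
    exact LIMB.tendsto_of_enorm_sq (ENNReal.tendsto_atTop_zero_of_tsum_ne_top hV.ne)
  have hz : ∀ᵐ V ∂(PP d ν), ∀ z : Site d,
      Tendsto (fun n => W n (fun y => V (y + z)) (dl 0)) atTop
        (𝓝 (w (fun y => V (y + z)) (dl 0))) := by
    rw [ae_all_iff]
    intro z
    exact ((t_RES d ν).2 z).quasiMeasurePreserving.ae h0
  have hf1 : ∀ᵐ V ∂(PP d ν), ∀ n, ∀ z : Site d, ∀ φ ∈ HAC (ev V),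
      (∀ t, ⟪φ, (ev V).U t (dl z)⟫_ℂ = 0) → ⟪W n V φ, (dl z : L2 (Site d))⟫_ℂ = 0 := by
    rw [ae_all_iff]
    intro n
    filter_upwards [Pool.Agent.Y662.ERG.f1 hev (hOn n) ν hν (Nk n) (hNk n) (hGk n), hWG n]
      with V h1 h2
    exact h1 (W n V) h2
  filter_upwards [hz, hf1] with V h1 h2 z φ hφ hort
  have hdl : Tendsto (fun n => W n V (dl z)) atTop (𝓝 (w V (dl z))) := by
    obtain ⟨S, hS⟩ := (t_OPS d).1 (-z)
    have g1 := (S.continuous.tendsto _).comp (h1 z)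
    have e : (fun y => (fun y => V (y + z)) (y + -z)) = V := by
      funext y; simp
    have g2 : ∀ {C : ℝ} {A : OF d}, Fld C A → S (A (fun y => V (y + z)) (dl 0)) = A V (dl z) := by
      intro C A hA
      have g3 := hA.cov (-z) S hS (fun y => V (y + z)) (dl 0)
      rw [e, LIMB.shift_dl z S hS] at g3
      exact g3.symm
    rw [g2 hw] at g1
    refine g1.congr fun n => ?_
    exact g2 (hWf n)
  have h3 : Tendsto (fun n => ⟪φ, W n V (dl z)⟫_ℂ) atTop (𝓝 ⟪φ, w V (dl z)⟫_ℂ) :=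
    ((innerSL ℂ φ).continuous.tendsto _).comp hdl
  have h4 : ∀ n, ⟪φ, W n V (dl z)⟫_ℂ = 0 := by
    intro n
    rw [← hWs n V]
    exact h2 n z φ hφ hort
  simp only [h4] at h3
  rw [sw V]
  exact tendsto_nhds_unique h3 tendsto_const_nhds

end orth

end Pool.Agent.R988.NQ
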