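import Pool.Agent.R988.NQ.Quench

/-! # Almost sure convergence of the averaged velocity -/

set_option autoImplicit false

open MeasureTheory Filter Topology
open scoped BigOperators ENNReal NNReal InnerProductSpace ComplexConjugate

namespace Pool.Agent.R988.NQ

open Pool.Agent.H5R2.NB

variable {d : ℕ} {c : ℝ} {ev : (Site d → ℝ) → UG (L2 (Site d))}
variable {ν : Measure ℝ} [IsProbabilityMeasure ν]

/-- mean square convergence implies almost sure convergence, at the origin -/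
theorem quench0 (hev : ∀ V, IsGrp c V (ev V)) {j : Fin d} {v : L2 (Site d) →L[ℂ] L2 (Site d)}
    (hv : IsVel c j v) {w : OF d} {β : ℝ} (hβ : 0 ≤ β) (hw : Fld β w) (sw : Sym w)
    (comm : ∀ V t x, w V ((ev V).U t x) = (ev V).U t (w V x))
    (hlim : Tendsto (fun N : ℕ => ∫⁻ V, ‖avP (ev V) v N (dl 0) - w V (dl 0)‖ₑ ^ 2 ∂(PP d ν))
      atTop (𝓝 0)) :
    ∀ᵐ V ∂(PP d ν), Tendsto (fun N : ℕ => avP (ev V) v N (dl 0)) atTop (𝓝 (w V (dl 0))) := by
  set γ : ℝ := ‖v‖ + β with hγ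
  have hD := fun m : ℕ => data_A hev hv m hβ hw sw
  set R : ℕ → (Site d → ℝ) → ℝ≥0∞ := fun m V => ⨆ n : ℕ, ENNReal.ofReal
    (qq (Uf ev (m : ℝ)) (Uf ev (-(m : ℝ))) (subF (Af ev v m) w) (n + 1) V /
      ((n + 1 : ℕ) : ℝ)) with hR
  have hRm : ∀ m, Measurable (R m) := fun m => Measurable.iSup fun n =>
    ENNReal.measurable_ofReal.comp ((meas_qq (hD m) (n + 1)).div_const _)
  -- the traces tend to zero
  have htau : Tendsto (fun m : ℕ => tauB ν (subF (Af ev v m) w)) atTop (𝓝 0) := by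
    have h1 := (ENNReal.tendsto_toReal (by simp : (0 : ℝ≥0∞) ≠ ∞)).comp hlim
    rw [ENNReal.toReal_zero] at h1
    refine h1.congr fun m => ?_
    show (∫⁻ V, ‖avP (ev V) v m (dl 0) - w V (dl 0)‖ₑ ^ 2 ∂(PP d ν)).toReal =
      ∫ V, ‖vec (subF (Af ev v m) w) V‖ ^ 2 ∂(PP d ν)
    rw [integral_eq_lintegral_of_nonneg_ae (Eventually.of_forall fun V => sq_nonneg _)
      ((hD m).fB.sm.norm.pow 2).aestronglyMeasurable]
    congr 1
    refine lintegral_congr fun V => ?_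
    rw [ENNReal.ofReal_pow (norm_nonneg _), ofReal_norm]
    rfl
  have hsmall : ∀ ε : ℝ, 0 < ε → ∃ m : ℕ, 0 < m ∧
      ∫⁻ V, R m V ∂(PP d ν) ≤ ENNReal.ofReal (3 * ε) := by
    intro ε hε
    have h1 : ∀ᶠ m : ℕ in atTop, 2 * γ ^ 2 * (tauB ν (subF (Af ev v m) w) / ε) < ε := by
      have h2 : Tendsto (fun m : ℕ => 2 * γ ^ 2 * (tauB ν (subF (Af ev v m) w) / ε)) atTop
          (𝓝 0) := by
        have := (htau.div_const ε).const_mul (2 * γ ^ 2)
        simpa using this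
      exact (tendsto_order.1 h2).2 ε hε
    obtain ⟨m, hm, hm0⟩ := (h1.and (eventually_gt_atTop 0)).exists
    refine ⟨m, hm0, (maximal (hD m) hε).trans (ENNReal.ofReal_le_ofReal ?_)⟩
    linarith
  -- the infimum vanishes
  have hinf : ∀ᵐ V ∂(PP d ν), (⨅ m : ℕ, R (m + 1) V) = 0 := by
    have hm : Measurable fun V => ⨅ m : ℕ, R (m + 1) V := Measurable.iInf fun m => hRm (m + 1)
    have h0 : ∫⁻ V, (⨅ m : ℕ, R (m + 1) V) ∂(PP d ν) = 0 := by
      refine le_antisymm ?_ bot_le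
      refine ge_of_tendsto (x := 𝓝[>] (0 : ℝ)) (f := fun ε => ENNReal.ofReal (3 * ε)) ?_ ?_
      · have hc : Continuous fun ε : ℝ => ENNReal.ofReal (3 * ε) :=
          ENNReal.continuous_ofReal.comp (continuous_const.mul continuous_id)
        have := hc.tendsto 0
        rw [mul_zero, ENNReal.ofReal_zero] at this
        exact this.mono_left nhdsWithin_le_nhds
      · filter_upwards [self_mem_nhdsWithin] with ε hε
        obtain ⟨m, hm0, hm1⟩ := hsmall ε hε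
        refine le_trans (lintegral_mono fun V => ?_) hm1
        obtain ⟨k, rfl⟩ : ∃ k, m = k + 1 := ⟨m - 1, by omega⟩
        exact iInf_le (fun m : ℕ => R (m + 1) V) k
    exact (lintegral_eq_zero_iff hm).1 h0
  filter_upwards [hinf] with V hV
  refine tendsto_of_blocks (ev V) v (dl 0) (w V (dl 0)) fun ε hε => ?_
  have h1 : (⨅ m : ℕ, R (m + 1) V) < ENNReal.ofReal (ε ^ 2) := by
    rw [hV]
    exact ENNReal.ofReal_pos.2 (by positivity)
  obtain ⟨k, hk⟩ := iInf_lt_iff.1 h1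
  refine ⟨k + 1, Nat.succ_pos k, fun n hn => ?_⟩
  obtain ⟨n', rfl⟩ : ∃ n', n = n' + 1 := ⟨n - 1, by omega⟩
  have h2 : ENNReal.ofReal (qq (Uf ev ((k + 1 : ℕ) : ℝ)) (Uf ev (-((k + 1 : ℕ) : ℝ)))
      (subF (Af ev v (k + 1)) w) (n' + 1) V / ((n' + 1 : ℕ) : ℝ)) ≤ ENNReal.ofReal (ε ^ 2) :=
    (le_iSup (fun n : ℕ => ENNReal.ofReal (qq (Uf ev ((k + 1 : ℕ) : ℝ))
      (Uf ev (-((k + 1 : ℕ) : ℝ))) (subF (Af ev v (k + 1)) w) (n + 1) V /
        ((n + 1 : ℕ) : ℝ))) n').trans hk.le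
  rw [ENNReal.ofReal_le_ofReal_iff (by positivity)] at h2
  have h3 := block_bound (ev V) v (w V) (comm V) (k + 1) (n' + 1) (Nat.succ_pos k)
    (Nat.succ_pos n') (dl 0)
  have h4 := SS_eq (ev := ev) (m := k + 1) (hD (k + 1)).sB (n' + 1) V (dl 0)
  unfold qq at h2
  rw [h4] at h2
  have h5 : ‖avP (ev V) v ((n' + 1) * (k + 1)) (dl 0) - w V (dl 0)‖ ^ 2 ≤ ε ^ 2 := by
    refine h3.trans (le_trans (le_of_eq ?_) h2)
    rfl
  exact (sq_le_sq₀ (norm_nonneg _) hε.le).1 h5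

/-- mean square convergence implies almost sure strong convergence -/
theorem quench (hev : ∀ V, IsGrp c V (ev V)) {j : Fin d} {v : L2 (Site d) →L[ℂ] L2 (Site d)}
    (hv : IsVel c j v) {w : OF d} {β : ℝ} (hβ : 0 ≤ β) (hw : Fld β w) (sw : Sym w)
    (comm : ∀ V t x, w V ((ev V).U t x) = (ev V).U t (w V x))
    (hlim : Tendsto (fun N : ℕ => ∫⁻ V, ‖avP (ev V) v N (dl 0) - w V (dl 0)‖ₑ ^ 2 ∂(PP d ν))
      atTop (𝓝 0)) :
    ∀ᵐ V ∂(PP d ν), ∀ x, Tendsto (fun N : ℕ => avP (ev V) v N x) atTop (𝓝 (w V x)) := by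
  have h0 := quench0 hev hv hβ hw sw comm hlim
  have hz : ∀ᵐ V ∂(PP d ν), ∀ z : Site d,
      Tendsto (fun N : ℕ => avP (ev fun y => V (y + z)) v N (dl 0)) atTop
        (𝓝 (w (fun y => V (y + z)) (dl 0))) := by
    rw [ae_all_iff]
    intro z
    exact ((t_RES d ν).2 z).quasiMeasurePreserving.ae h0
  filter_upwards [hz] with V hV
  have hdl : ∀ z, Tendsto (fun N : ℕ => avP (ev V) v N (dl z)) atTop (𝓝 (w V (dl z))) := by
    intro z
    obtain ⟨S, hS⟩ := (t_OPS d).1 (-z)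
    have h1 := (S.continuous.tendsto _).comp (hV z)
    have h2 : S (w (fun y => V (y + z)) (dl 0)) = w V (dl z) := by
      have h3 := hw.cov (-z) S hS (fun y => V (y + z)) (dl 0)
      have e : (fun y => (fun y => V (y + z)) (y + -z)) = V := by
        funext y; simp
      rw [e, LIMB.shift_dl z S hS] at h3
      exact h3.symm
    rw [h2] at h1
    refine h1.congr fun N => ?_
    rw [LIMB.avP_shift ev ALL.a_COV hev hv hS]
    rfl
  obtain ⟨B, hB⟩ := LIMB.ext_lim (fun k => LIMB.PL (ev V) v k) (fun k => LIMB.PL (ev V) v k) ‖v‖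
    (norm_nonneg _) (fun k => LIMB.norm_PL (ev V) v k) (fun k => LIMB.norm_PL (ev V) v k)
    (Site d) dl (LIMB.dl_dense d) (fun z => ⟨w V (dl z), hdl z, hdl z⟩)
  have hBw : B = w V := by
    refine ContinuousLinearMap.ext_on (s := Set.range (dl (d := d))) (fun x => LIMB.dl_dense d x) ?_
    rintro _ ⟨z, rfl⟩
    exact tendsto_nhds_unique (hB (dl z)).1 (hdl z)
  intro x
  have := (hB x).1
  rw [hBw] at this
  exact this

/-- real times -/
theorem real_times {X : Type} [NormedAddCommGroup X] [InnerProductSpace ℂ X] [CompleteSpace X]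
    (W : UG X) (v : X →L[ℂ] X) (x : X) (h : Tendsto (fun N : ℕ => avP W v N x) atTop (𝓝 0)) :
    Tendsto (fun t : ℝ => t⁻¹ * ‖∫ s in (0 : ℝ)..t, W.U (-s) (v (W.U s x))‖) atTop (𝓝 0) := by
  have hi : ∀ a b : ℝ, IntervalIntegrable (BP.g W v x) volume a b :=
    fun a b => (BP.g_cont W v x).intervalIntegrable a b
  have hfl : Tendsto (fun t : ℝ => ⌊t⌋₊) atTop atTop := tendsto_nat_floor_atTop
  have h1 := (h.comp hfl).norm
  rw [norm_zero] at h1
  have h2 : Tendsto (fun t : ℝ => ‖avP W v ⌊t⌋₊ x‖ + ‖v‖ * ‖x‖ * t⁻¹) atTop (𝓝 0) := by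
    have := h1.add (tendsto_inv_atTop_zero.const_mul (‖v‖ * ‖x‖))
    simpa using this
  refine squeeze_zero' ?_ ?_ h2
  · filter_upwards [eventually_gt_atTop (0 : ℝ)] with t ht
    positivity
  · filter_upwards [eventually_ge_atTop (1 : ℝ)] with t ht
    have ht0 : 0 < t := by linarith
    set N := ⌊t⌋₊ with hN
    have hNpos : 0 < N := Nat.floor_pos.2 ht
    have hNC : (N : ℂ) ≠ 0 := by exact_mod_cast hNpos.ne'
    have hNt : (N : ℝ) ≤ t := Nat.floor_le (by linarith)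
    have hNt2 : t < N + 1 := Nat.lt_floor_add_one t
    have e1 : ∫ s in (0 : ℝ)..t, W.U (-s) (v (W.U s x)) =
        (N : ℂ) • avP W v N x + ∫ s in (N : ℝ)..t, BP.g W v x s := by
      have a2 : (N : ℂ) • avP W v N x = ∫ s in (0 : ℝ)..(N : ℝ), BP.g W v x s := by
        unfold avP
        rw [smul_smul, mul_inv_cancel₀ hNC, one_smul]
        rfl
      rw [a2, intervalIntegral.integral_add_adjacent_intervals (hi _ _) (hi _ _)]
      rfl
    have e2 : ‖∫ s in (N : ℝ)..t, BP.g W v x s‖ ≤ ‖v‖ * ‖x‖ := by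
      refine (BP.int_norm W v x _ _).trans ?_
      have : |t - N| ≤ 1 := by
        rw [abs_of_nonneg (by linarith)]
        linarith
      calc ‖v‖ * ‖x‖ * |t - N| ≤ ‖v‖ * ‖x‖ * 1 :=
            mul_le_mul_of_nonneg_left this (by positivity)
        _ = _ := mul_one _
    have e3 : ‖∫ s in (0 : ℝ)..t, W.U (-s) (v (W.U s x))‖ ≤
        t * ‖avP W v N x‖ + ‖v‖ * ‖x‖ := by
      rw [e1]
      refine (norm_add_le _ _).trans ?_
      have : ‖(N : ℂ) • avP W v N x‖ ≤ t * ‖avP W v N x‖ := by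
        rw [norm_smul, Complex.norm_natCast]
        exact mul_le_mul_of_nonneg_right hNt (norm_nonneg _)
      linarith
    calc t⁻¹ * ‖∫ s in (0 : ℝ)..t, W.U (-s) (v (W.U s x))‖
        ≤ t⁻¹ * (t * ‖avP W v N x‖ + ‖v‖ * ‖x‖) :=
          mul_le_mul_of_nonneg_left e3 (by positivity)
      _ = _ := by field_simp

/-- the annealed statement with the zero limit -/
theorem annealed (hev : ∀ V, IsGrp c V (ev V)) {C : ℝ≥0} (hν : ν ≤ C • volume) {j : Fin d}
    {v : L2 (Site d) →L[ℂ] L2 (Site d)} (hv : IsVel c j v) :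
    Tendsto (fun N : ℕ => ∫⁻ V, ‖avP (ev V) v N (dl 0)‖ₑ ^ 2 ∂(PP d ν)) atTop (𝓝 0) := by
  obtain ⟨Nk, b, hNk, hb, hae⟩ := ALL.a_LIM d c ev hev ν j v hv
  have hz := ALL.a_ZERO d c ev hev ν C hν j v hv Nk hNk (by
    filter_upwards [hae] with V hV
    obtain ⟨B, hB, _⟩ := hV
    exact ⟨B, hB⟩)
  have hb0 : ∀ᵐ V ∂(PP d ν), b V = 0 := by
    filter_upwards [hae, hz] with V hV hV2
    obtain ⟨B, hB, hB2⟩ := hV
    rw [← hB2]
    exact hV2 B hB
  refine hb.congr fun N => ?_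
  refine lintegral_congr_ae ?_
  filter_upwards [hb0] with V hV
  rw [hV, sub_zero]

/-- almost surely the averaged velocity tends strongly to zero -/
theorem velocity_zero (hev : ∀ V, IsGrp c V (ev V)) {C : ℝ≥0} (hν : ν ≤ C • volume) {j : Fin d}
    {v : L2 (Site d) →L[ℂ] L2 (Site d)} (hv : IsVel c j v) :
    ∀ᵐ V ∂(PP d ν), ∀ x, Tendsto (fun t : ℝ => t⁻¹ *
      ‖∫ s in (0 : ℝ)..t, (ev V).U (-s) (v ((ev V).U s x))‖) atTop (𝓝 0) := by
  have h := quench (ν := ν) hev hv le_rfl (fld_zero (d := d)) (fun V f g => by simp)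
    (fun V t x => by simp) (by simpa using annealed hev hν hv)
  filter_upwards [h] with V hV x
  refine real_times (ev V) v x ?_
  simpa using hV x

end Pool.Agent.R988.NQ
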