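import Pool.Agent.R988.NQ.WF
import Pool.Agent.Y662.ERG.Dos

/-! # Almost sure convergence of the averages of covariant local observables -/

set_option autoImplicit false

open MeasureTheory Filter Topology
open scoped BigOperators ENNReal NNReal InnerProductSpace ComplexConjugate

namespace Pool.Agent.R988.NQ

open Pool.Agent.H5R2.NB Pool.Agent.H5R2.NBA
open Pool.Agent.Y662.ERG (Obs shf)

section obs

variable {d : ℕ} {c : ℝ} {ev : (Site d → ℝ) → UG (L2 (Site d))}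
variable {v : (Site d → ℝ) → L2 (Site d) →L[ℂ] L2 (Site d)} {M : ℝ}

theorem sm_avO (hev : ∀ V, IsGrp c V (ev V)) (hO : Obs d v M) (m : ℕ)
    (f : (Site d → ℝ) → L2 (Site d)) (hf : StronglyMeasurable f) :
    StronglyMeasurable fun V => avP (ev V) (v V) m (f V) := by
  have h3 := Pool.Agent.Y662.ERG.cont_int hev hO (m : ℝ)
  have h4 : StronglyMeasurable fun V =>
      ∫ s in (0 : ℝ)..(m : ℝ), (ev V).U (-s) (v V ((ev V).U s (f V))) :=
    h3.comp_stronglyMeasurable (stronglyMeasurable_id.prodMk hf)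
  exact h4.const_smul ((m : ℂ)⁻¹)

theorem sm_avMO (hev : ∀ V, IsGrp c V (ev V)) (hO : Obs d v M) (m : ℕ)
    (f : (Site d → ℝ) → L2 (Site d)) (hf : StronglyMeasurable f) :
    StronglyMeasurable fun V => avM (ev V) (v V) m (f V) := by
  have h3 := Pool.Agent.Y662.ERG.cont_intM hev hO (m : ℝ)
  have h4 : StronglyMeasurable fun V =>
      ∫ s in (0 : ℝ)..(m : ℝ), (ev V).U s (v V ((ev V).U (-s) (f V))) :=
    h3.comp_stronglyMeasurable (stronglyMeasurable_id.prodMk hf)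
  exact h4.const_smul ((m : ℂ)⁻¹)

/-- the averaged observable as a field -/
noncomputable def AfO (ev : (Site d → ℝ) → UG (L2 (Site d)))
    (v : (Site d → ℝ) → L2 (Site d) →L[ℂ] L2 (Site d)) (m : ℕ) : OF d :=
  fun V => LIMB.PL (ev V) (v V) m

theorem fld_AO (hev : ∀ V, IsGrp c V (ev V)) (hO : Obs d v M) (m : ℕ) :
    Fld M (AfO ev v m) := by
  refine ⟨fun V ψ => ?_, fun f hf => sm_avO hev hO m f hf, fun z S hS V ψ => ?_⟩
  · refine (LIMB.norm_PL (ev V) (v V) m ψ).trans ?_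
    exact mul_le_mul_of_nonneg_right (hO.opn V) (norm_nonneg _)
  · show avP (ev fun y => V (y + z)) (v fun y => V (y + z)) m (S ψ) = S (avP (ev V) (v V) m ψ)
    obtain ⟨T, hT⟩ := (t_OPS d).1 (-z)
    rw [Pool.Agent.Y662.ERG.avP_conj hev hO hS hT, ZAC.inv2 hS hT]

theorem sym_AO (hO : Obs d v M) (m : ℕ) : Sym (AfO ev v m) := by
  intro V f g
  have hs := hO.symm V
  show ⟪avP (ev V) (v V) m f, g⟫_ℂ = ⟪f, avP (ev V) (v V) m g⟫_ℂ
  have hg : ∀ s : ℝ, ⟪BP.g (ev V) (v V) f s, g⟫_ℂ = ⟪f, BP.g (ev V) (v V) g s⟫_ℂ := fun s =>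
    STAT.XX_symm (ev V) (v V) hs s f g
  have h1 : ∀ a b : L2 (Site d), ⟪a, ∫ s in (0 : ℝ)..(m : ℝ), BP.g (ev V) (v V) b s⟫_ℂ =
      ∫ s in (0 : ℝ)..(m : ℝ), ⟪a, BP.g (ev V) (v V) b s⟫_ℂ := by
    intro a b
    have := (innerSL ℂ a).intervalIntegral_comp_comm
      ((BP.g_cont (ev V) (v V) b).intervalIntegrable (μ := volume) 0 (m : ℝ))
    simpa using this.symm
  have h2 : ⟪∫ s in (0 : ℝ)..(m : ℝ), BP.g (ev V) (v V) f s, g⟫_ℂ =
      ⟪f, ∫ s in (0 : ℝ)..(m : ℝ), BP.g (ev V) (v V) g s⟫_ℂ := by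
    rw [← inner_conj_symm, h1, h1, intervalIntegral.integral_of_le (Nat.cast_nonneg m),
      intervalIntegral.integral_of_le (Nat.cast_nonneg m), ← integral_conj]
    refine integral_congr_ae (Eventually.of_forall fun s => ?_)
    show conj ⟪g, BP.g (ev V) (v V) f s⟫_ℂ = ⟪f, BP.g (ev V) (v V) g s⟫_ℂ
    rw [inner_conj_symm, hg]
  show ⟪((m : ℂ)⁻¹) • ∫ s in (0 : ℝ)..(m : ℝ), BP.g (ev V) (v V) f s, g⟫_ℂ =
    ⟪f, ((m : ℂ)⁻¹) • ∫ s in (0 : ℝ)..(m : ℝ), BP.g (ev V) (v V) g s⟫_ℂ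
  rw [inner_smul_left, inner_smul_right, h2, map_inv₀, Complex.conj_natCast]

theorem data_AO (hev : ∀ V, IsGrp c V (ev V)) (hO : Obs d v M) (m : ℕ) {w : OF d} {β : ℝ}
    (hβ : 0 ≤ β) (hw : Fld β w) (sw : Sym w) :
    Data (Uf ev (m : ℝ)) (Uf ev (-(m : ℝ))) (subF (AfO ev v m) w) (M + β) := by
  refine ⟨fld_U hev _, fld_U hev _, adj_U _, fun V f => ?_, fun V f => ?_,
    add_nonneg hO.nn hβ, (fld_AO hev hO m).sub hw, (sym_AO hO m).sub sw⟩
  · show (ev V).U (-(m : ℝ)) ((ev V).U (m : ℝ) f) = f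
    rw [← (ev V).add', neg_add_cancel, (ev V).zero']
  · show (ev V).U (m : ℝ) ((ev V).U (-(m : ℝ)) f) = f
    rw [← (ev V).add', add_neg_cancel, (ev V).zero']

variable {ν : Measure ℝ} [IsProbabilityMeasure ν]

/-- mean square convergence implies almost sure convergence, at the origin -/
theorem quench0O (hev : ∀ V, IsGrp c V (ev V)) (hO : Obs d v M)
    {w : OF d} {β : ℝ} (hβ : 0 ≤ β) (hw : Fld β w) (sw : Sym w)
    (comm : ∀ V t x, w V ((ev V).U t x) = (ev V).U t (w V x))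
    (hlim : Tendsto (fun N : ℕ => ∫⁻ V, ‖avP (ev V) (v V) N (dl 0) - w V (dl 0)‖ₑ ^ 2 ∂(PP d ν))
      atTop (𝓝 0)) :
    ∀ᵐ V ∂(PP d ν), Tendsto (fun N : ℕ => avP (ev V) (v V) N (dl 0)) atTop
      (𝓝 (w V (dl 0))) := by
  set γ : ℝ := M + β with hγ
  have hD := fun m : ℕ => data_AO hev hO m hβ hw sw
  set R : ℕ → (Site d → ℝ) → ℝ≥0∞ := fun m V => ⨆ n : ℕ, ENNReal.ofReal
    (qq (Uf ev (m : ℝ)) (Uf ev (-(m : ℝ))) (subF (AfO ev v m) w) (n + 1) V /
      ((n + 1 : ℕ) : ℝ)) with hR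
  have hRm : ∀ m, Measurable (R m) := fun m => Measurable.iSup fun n =>
    ENNReal.measurable_ofReal.comp ((meas_qq (hD m) (n + 1)).div_const _)
  -- the traces tend to zero
  have htau : Tendsto (fun m : ℕ => tauB ν (subF (AfO ev v m) w)) atTop (𝓝 0) := by
    have h1 := (ENNReal.tendsto_toReal (by simp : (0 : ℝ≥0∞) ≠ ∞)).comp hlim
    rw [ENNReal.toReal_zero] at h1
    refine h1.congr fun m => ?_
    show (∫⁻ V, ‖avP (ev V) (v V) m (dl 0) - w V (dl 0)‖ₑ ^ 2 ∂(PP d ν)).toReal =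
      ∫ V, ‖vec (subF (AfO ev v m) w) V‖ ^ 2 ∂(PP d ν)
    rw [integral_eq_lintegral_of_nonneg_ae (Eventually.of_forall fun V => sq_nonneg _)
      ((hD m).fB.sm.norm.pow 2).aestronglyMeasurable]
    congr 1
    refine lintegral_congr fun V => ?_
    rw [ENNReal.ofReal_pow (norm_nonneg _), ofReal_norm]
    rfl
  have hsmall : ∀ ε : ℝ, 0 < ε → ∃ m : ℕ, 0 < m ∧
      ∫⁻ V, R m V ∂(PP d ν) ≤ ENNReal.ofReal (3 * ε) := by
    intro ε hε
    have h1 : ∀ᶠ m : ℕ in atTop, 2 * γ ^ 2 * (tauB ν (subF (AfO ev v m) w) / ε) < ε := by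
      have h2 : Tendsto (fun m : ℕ => 2 * γ ^ 2 * (tauB ν (subF (AfO ev v m) w) / ε)) atTop
          (𝓝 0) := by
        have := (htau.div_const ε).const_mul (2 * γ ^ 2)
        simpa using this
      exact (tendsto_order.1 h2).2 ε hε
    obtain ⟨m, hm, hm0⟩ := (h1.and (eventually_gt_atTop 0)).exists
    refine ⟨m, hm0, (maximal (hD m) hε).trans (ENNReal.ofReal_le_ofReal ?_)⟩
    linarith
  -- the infimum vanishes
  have hinf : ∀ᵐ V ∂(PP d ν), (⨅ m : ℕ, R (m + 1) V) = 0 := by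
    have hm : Measurable fun V => ⨅ m : ℕ, R (m + 1) V := Measurable.iInf fun m => hRm (m + 1)
    have h0 : ∫⁻ V, (⨅ m : ℕ, R (m + 1) V) ∂(PP d ν) = 0 := by
      refine le_antisymm ?_ bot_le
      refine ge_of_tendsto (x := 𝓝[>] (0 : ℝ)) (f := fun ε => ENNReal.ofReal (3 * ε)) ?_ ?_
      · have hc : Continuous fun ε : ℝ => ENNReal.ofReal (3 * ε) :=
          ENNReal.continuous_ofReal.comp (continuous_const.mul continuous_id)
        have := hc.tendsto 0
        rw [mul_zero, ENNReal.ofReal_zero] at this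
        exact this.mono_left nhdsWithin_le_nhds
      · filter_upwards [self_mem_nhdsWithin] with ε hε
        obtain ⟨m, hm0, hm1⟩ := hsmall ε hε
        refine le_trans (lintegral_mono fun V => ?_) hm1
        obtain ⟨k, rfl⟩ : ∃ k, m = k + 1 := ⟨m - 1, by omega⟩
        exact iInf_le (fun m : ℕ => R (m + 1) V) k
    exact (lintegral_eq_zero_iff hm).1 h0
  filter_upwards [hinf] with V hV
  refine tendsto_of_blocks (ev V) (v V) (dl 0) (w V (dl 0)) fun ε hε => ?_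
  have h1 : (⨅ m : ℕ, R (m + 1) V) < ENNReal.ofReal (ε ^ 2) := by
    rw [hV]
    exact ENNReal.ofReal_pos.2 (by positivity)
  obtain ⟨k, hk⟩ := iInf_lt_iff.1 h1
  refine ⟨k + 1, Nat.succ_pos k, fun n hn => ?_⟩
  obtain ⟨n', rfl⟩ : ∃ n', n = n' + 1 := ⟨n - 1, by omega⟩
  have h2 : ENNReal.ofReal (qq (Uf ev ((k + 1 : ℕ) : ℝ)) (Uf ev (-((k + 1 : ℕ) : ℝ)))
      (subF (AfO ev v (k + 1)) w) (n' + 1) V / ((n' + 1 : ℕ) : ℝ)) ≤ ENNReal.ofReal (ε ^ 2) :=
    (le_iSup (fun n : ℕ => ENNReal.ofReal (qq (Uf ev ((k + 1 : ℕ) : ℝ))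
      (Uf ev (-((k + 1 : ℕ) : ℝ))) (subF (AfO ev v (k + 1)) w) (n + 1) V /
        ((n + 1 : ℕ) : ℝ))) n').trans hk.le
  rw [ENNReal.ofReal_le_ofReal_iff (by positivity)] at h2
  have h3 := block_bound (ev V) (v V) (w V) (comm V) (k + 1) (n' + 1) (Nat.succ_pos k)
    (Nat.succ_pos n') (dl 0)
  have h4 := SS_eq (ev := ev) (m := k + 1) (hD (k + 1)).sB (n' + 1) V (dl 0)
  unfold qq at h2
  rw [h4] at h2
  have h5 : ‖avP (ev V) (v V) ((n' + 1) * (k + 1)) (dl 0) - w V (dl 0)‖ ^ 2 ≤ ε ^ 2 := by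
    refine h3.trans (le_trans (le_of_eq ?_) h2)
    rfl
  exact (sq_le_sq₀ (norm_nonneg _) hε.le).1 h5

/-- mean square convergence implies almost sure strong convergence -/
theorem quenchO (hev : ∀ V, IsGrp c V (ev V)) (hO : Obs d v M)
    {w : OF d} {β : ℝ} (hβ : 0 ≤ β) (hw : Fld β w) (sw : Sym w)
    (comm : ∀ V t x, w V ((ev V).U t x) = (ev V).U t (w V x))
    (hlim : Tendsto (fun N : ℕ => ∫⁻ V, ‖avP (ev V) (v V) N (dl 0) - w V (dl 0)‖ₑ ^ 2 ∂(PP d ν))
      atTop (𝓝 0)) :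
    ∀ᵐ V ∂(PP d ν), ∀ x, Tendsto (fun N : ℕ => avP (ev V) (v V) N x) atTop (𝓝 (w V x)) := by
  have h0 := quench0O hev hO hβ hw sw comm hlim
  have hz : ∀ᵐ V ∂(PP d ν), ∀ z : Site d,
      Tendsto (fun N : ℕ => avP (ev fun y => V (y + z)) (v fun y => V (y + z)) N (dl 0)) atTop
        (𝓝 (w (fun y => V (y + z)) (dl 0))) := by
    rw [ae_all_iff]
    intro z
    exact ((t_RES d ν).2 z).quasiMeasurePreserving.ae h0
  filter_upwards [hz] with V hV
  have hdl : ∀ z, Tendsto (fun N : ℕ => avP (ev V) (v V) N (dl z)) atTop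
      (𝓝 (w V (dl z))) := by
    intro z
    obtain ⟨S, hS⟩ := (t_OPS d).1 (-z)
    obtain ⟨T, hT⟩ := (t_OPS d).1 (-(-z))
    have h1 := (S.continuous.tendsto _).comp (hV z)
    have e : (fun y => (fun y => V (y + z)) (y + -z)) = V := by
      funext y; simp
    have h2 : S (w (fun y => V (y + z)) (dl 0)) = w V (dl z) := by
      have h3 := hw.cov (-z) S hS (fun y => V (y + z)) (dl 0)
      rw [e, LIMB.shift_dl z S hS] at h3
      exact h3.symm
    rw [h2] at h1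
    refine h1.congr fun N => ?_
    have h4 := Pool.Agent.Y662.ERG.avP_conj hev hO hS hT (fun y => V (y + z)) N (dl z)
    rw [e] at h4
    have h5 : T (dl z) = dl 0 := by
      rw [← LIMB.shift_dl z S hS]
      exact ZAC.inv2 hS hT (dl 0)
    rw [h5] at h4
    exact h4.symm
  obtain ⟨B, hB⟩ := LIMB.ext_lim (fun k => LIMB.PL (ev V) (v V) k)
    (fun k => LIMB.PL (ev V) (v V) k) ‖v V‖
    (norm_nonneg _) (fun k => LIMB.norm_PL (ev V) (v V) k)
    (fun k => LIMB.norm_PL (ev V) (v V) k)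
    (Site d) dl (LIMB.dl_dense d) (fun z => ⟨w V (dl z), hdl z, hdl z⟩)
  have hBw : B = w V := by
    refine ContinuousLinearMap.ext_on (s := Set.range (dl (d := d))) (fun x => LIMB.dl_dense d x) ?_
    rintro _ ⟨z, rfl⟩
    exact tendsto_nhds_unique (hB (dl z)).1 (hdl z)
  intro x
  have := (hB x).1
  rw [hBw] at this
  exact this

/-! ### the limit field -/

open Classical in
/-- the limit of the averages along `Nk` where it exists, zero elsewhere -/
noncomputable def wFO (ev : (Site d → ℝ) → UG (L2 (Site d)))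
    (v : (Site d → ℝ) → L2 (Site d) →L[ℂ] L2 (Site d)) (Nk : ℕ → ℕ) : OF d := fun V =>
  if h : ∃ B : L2 (Site d) →L[ℂ] L2 (Site d), Good (ev V) (v V) Nk B
    then Classical.choose h else 0

theorem wFO_eq {Nk : ℕ → ℕ} {V : Site d → ℝ}
    {B : L2 (Site d) →L[ℂ] L2 (Site d)} (h : Good (ev V) (v V) Nk B) : wFO ev v Nk V = B := by
  have h1 : ∃ B : L2 (Site d) →L[ℂ] L2 (Site d), Good (ev V) (v V) Nk B := ⟨B, h⟩
  unfold wFO
  rw [dif_pos h1]
  exact good_uniq (Classical.choose_spec h1) h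

theorem wFO_zero {Nk : ℕ → ℕ} {V : Site d → ℝ}
    (h : ¬ ∃ B : L2 (Site d) →L[ℂ] L2 (Site d), Good (ev V) (v V) Nk B) :
    wFO ev v Nk V = 0 := by
  unfold wFO
  rw [dif_neg h]

/-- where the averages converge -/
theorem meas_goodO (hev : ∀ V, IsGrp c V (ev V)) (hO : Obs d v M)
    (Nk : ℕ → ℕ) : MeasurableSet {V : Site d → ℝ | ∃ B : L2 (Site d) →L[ℂ] L2 (Site d),
      Good (ev V) (v V) Nk B} := by
  have e : {V : Site d → ℝ | ∃ B : L2 (Site d) →L[ℂ] L2 (Site d), Good (ev V) (v V) Nk B} =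
      ⋂ z : Site d, ({V | ∃ y, Tendsto (fun k => avP (ev V) (v V) (Nk k) (dl z)) atTop (𝓝 y)} ∩
        {V | Tendsto (fun k => ‖avP (ev V) (v V) (Nk k) (dl z) -
          avM (ev V) (v V) (Nk k) (dl z)‖) atTop (𝓝 0)}) := by
    ext V
    simp only [Set.mem_setOf_eq, Set.mem_iInter, Set.mem_inter_iff]
    constructor
    · rintro ⟨B, hB⟩ z
      refine ⟨⟨B (dl z), (hB (dl z)).1⟩, ?_⟩
      have := ((hB (dl z)).1.sub (hB (dl z)).2).norm
      rwa [sub_self, norm_zero] at this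
    · intro h
      obtain ⟨B, hB⟩ := LIMB.ext_lim (fun k => LIMB.PL (ev V) (v V) (Nk k))
        (fun k => LIMB.ML (ev V) (v V) (Nk k)) ‖v V‖
        (norm_nonneg _) (fun k => LIMB.norm_PL (ev V) (v V) (Nk k))
        (fun k => LIMB.norm_ML (ev V) (v V) (Nk k))
        (Site d) dl (LIMB.dl_dense d) (fun z => by
          obtain ⟨⟨y, hy⟩, h2⟩ := h z
          refine ⟨y, hy, ?_⟩
          have h3 := hy.sub (tendsto_zero_iff_norm_tendsto_zero.2 h2)
          rw [sub_zero] at h3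
          refine h3.congr fun k => ?_
          rw [sub_sub_cancel]
          rfl)
      exact ⟨B, hB⟩
  rw [e]
  refine MeasurableSet.iInter fun z => MeasurableSet.inter ?_ ?_
  · refine StronglyMeasurable.measurableSet_exists_tendsto fun k => ?_
    exact sm_avO hev hO (Nk k) _ stronglyMeasurable_const
  · refine measurableSet_tendsto (𝓝 0) fun k => ?_
    have s1 := sm_avO hev hO (Nk k) (fun _ => dl z) stronglyMeasurable_const
    have s2 := sm_avMO hev hO (Nk k) (fun _ => dl z) stronglyMeasurable_const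
    exact (s1.sub s2).norm.measurable

theorem fld_wFO (hev : ∀ V, IsGrp c V (ev V)) (hO : Obs d v M)
    {Nk : ℕ → ℕ} (hNk : Tendsto Nk atTop atTop) : Fld M (wFO ev v Nk) := by
  refine ⟨fun V ψ => ?_, fun f hf => ?_, fun z S hS V ψ => ?_⟩
  · by_cases h : ∃ B : L2 (Site d) →L[ℂ] L2 (Site d), Good (ev V) (v V) Nk B
    · obtain ⟨B, hB⟩ := h
      rw [wFO_eq hB]
      refine ((t_BP (Site d) (ev V) (v V) Nk hNk B hB).1 ψ).trans ?_
      exact mul_le_mul_of_nonneg_right (hO.opn V) (norm_nonneg _)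
    · rw [wFO_zero h]
      simp only [ContinuousLinearMap.zero_apply, norm_zero]
      exact mul_nonneg hO.nn (norm_nonneg _)
  · have hm := meas_goodO hev hO Nk
    refine stronglyMeasurable_of_tendsto (atTop : Filter ℕ)
      (f := fun k V => Set.indicator {V : Site d → ℝ | ∃ B : L2 (Site d) →L[ℂ] L2 (Site d),
        Good (ev V) (v V) Nk B} (fun V => avP (ev V) (v V) (Nk k) (f V)) V)
      (fun k => (sm_avO hev hO (Nk k) f hf).indicator hm) ?_
    rw [tendsto_pi_nhds]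
    intro V
    by_cases h : ∃ B : L2 (Site d) →L[ℂ] L2 (Site d), Good (ev V) (v V) Nk B
    · have h' : V ∈ {V : Site d → ℝ | ∃ B : L2 (Site d) →L[ℂ] L2 (Site d),
        Good (ev V) (v V) Nk B} := h
      simp only [Set.indicator_of_mem h']
      obtain ⟨B, hB⟩ := h
      rw [wFO_eq hB]
      exact (hB (f V)).1
    · have h' : V ∉ {V : Site d → ℝ | ∃ B : L2 (Site d) →L[ℂ] L2 (Site d),
        Good (ev V) (v V) Nk B} := h
      simp only [Set.indicator_of_notMem h']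
      rw [wFO_zero h]
      simp
  · obtain ⟨T, hT⟩ := (t_OPS d).1 (-z)
    by_cases h : ∃ B : L2 (Site d) →L[ℂ] L2 (Site d), Good (ev V) (v V) Nk B
    · obtain ⟨B, hB⟩ := h
      rw [wFO_eq hB, wFO_eq (Pool.Agent.Y662.ERG.good_conj hev hO hS hT V Nk B hB)]
      show S (B (T (S ψ))) = S (B ψ)
      rw [ZAC.inv2 hS hT]
    · have h2 : ¬ ∃ B : L2 (Site d) →L[ℂ] L2 (Site d),
          Good (ev fun y => V (y + z)) (v fun y => V (y + z)) Nk B := by
        rintro ⟨B, hB⟩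
        have hS' : IsShift (-(-z)) S := by rw [neg_neg]; exact hS
        have h3 := Pool.Agent.Y662.ERG.good_conj hev hO hT hS' (fun y => V (y + z)) Nk B hB
        have e : (fun y => (fun y => V (y + z)) (y + -z)) = V := by
          funext y; simp
        rw [e] at h3
        exact h ⟨_, h3⟩
      rw [wFO_zero h, wFO_zero h2]
      simp

theorem sym_wFO (hO : Obs d v M) (Nk : ℕ → ℕ) : Sym (wFO ev v Nk) := by
  intro V f g
  by_cases h : ∃ B : L2 (Site d) →L[ℂ] L2 (Site d), Good (ev V) (v V) Nk B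
  · obtain ⟨B, hB⟩ := h
    rw [wFO_eq hB]
    exact W6.B_symm (ev V) (v V) (hO.symm V) Nk B hB f g
  · rw [wFO_zero h]
    simp

theorem comm_wFO {Nk : ℕ → ℕ} (hNk : Tendsto Nk atTop atTop) (V : Site d → ℝ) (t : ℝ)
    (x : L2 (Site d)) :
    wFO ev v Nk V ((ev V).U t x) = (ev V).U t (wFO ev v Nk V x) := by
  by_cases h : ∃ B : L2 (Site d) →L[ℂ] L2 (Site d), Good (ev V) (v V) Nk B
  · obtain ⟨B, hB⟩ := h
    rw [wFO_eq hB]
    exact (t_BP (Site d) (ev V) (v V) Nk hNk B hB).2 t x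
  · rw [wFO_zero h]
    simp

/-- from convergence along subsequences to almost sure convergence -/
theorem quench_off {o : ℝ} (hev : ∀ ω : Site d → ℝ, IsGrp c (fun x => o + ω x) (ev ω))
    (hO : Obs d v M) {Bop : (Site d → ℝ) → L2 (Site d) →L[ℂ] L2 (Site d)}
    (hlim : ∀ Mk : ℕ → ℕ, Tendsto Mk atTop atTop → ∃ a : ℕ → ℕ, StrictMono a ∧
        ∀ᵐ ω ∂(PP d ν), Good (ev ω) (v ω) (Mk ∘ a) (Bop ω)) :
    ∀ᵐ ω ∂(PP d ν), ∀ x, Tendsto (fun N : ℕ => avP (ev ω) (v ω) N x) atTop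
      (𝓝 (Bop ω x)) := by
  have hev' : ∀ V, IsGrp c V (ev (shf o V)) := by
    intro V
    have h := hev (shf o V)
    have e : (fun x => o + shf o V x) = V := by
      funext x
      unfold shf
      ring
    rwa [e] at h
  set e : (Site d → ℝ) ≃ᵐ (Site d → ℝ) := MeasurableEquiv.addLeft (fun _ : Site d => o) with he
  have hei : ∀ ω, e ω = fun x => o + ω x := fun ω => rfl
  have hse : ∀ ω, shf o (e ω) = ω := by
    intro ω
    rw [hei]
    funext x
    unfold shf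
    ring
  have hg : Measurable (fun r : ℝ => o + r) := by fun_prop
  have hpm : IsProbabilityMeasure (ν.map fun r : ℝ => o + r) :=
    Measure.isProbabilityMeasure_map hg.aemeasurable
  have hmap : (PP d ν).map e = PP d (ν.map fun r : ℝ => o + r) := by
    unfold PP
    exact Measure.infinitePi_map_pi (μ := fun _ : Site d => ν) (fun _ => hg)
  obtain ⟨a, ha, hG⟩ := hlim id tendsto_id
  have hNk : Tendsto (id ∘ a) atTop atTop := tendsto_id.comp ha.tendsto_atTop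
  set w : OF d := wFO (fun V => ev (shf o V)) (fun V => v (shf o V)) (id ∘ a) with hw
  have hwB : ∀ᵐ ω ∂(PP d ν), w (e ω) = Bop ω := by
    filter_upwards [hG] with ω hω
    rw [hw]
    refine wFO_eq (ev := fun V => ev (shf o V)) (v := fun V => v (shf o V)) ?_
    show Good (ev (shf o (e ω))) (v (shf o (e ω))) (id ∘ a) (Bop ω)
    rw [hse]
    exact hω
  have hfi := (Pool.Agent.Y662.ERG.fin_int hev hO hlim (fun _ => dl 0) 1
    aestronglyMeasurable_const (fun _ => (Pool.Agent.H5R2.NB.STAT.norm_dl _).le)).2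
  have hlim' : Tendsto (fun N : ℕ => ∫⁻ V, ‖avP (ev (shf o V)) (v (shf o V)) N (dl 0) -
      w V (dl 0)‖ₑ ^ 2 ∂(PP d (ν.map fun r : ℝ => o + r))) atTop (𝓝 0) := by
    refine hfi.congr fun N => ?_
    rw [← hmap, lintegral_map_equiv]
    refine lintegral_congr_ae ?_
    filter_upwards [hwB] with ω hω
    rw [hse, hω]
  have hq := quenchO (ν := ν.map fun r : ℝ => o + r) hev' (hO.off o) hO.nn
    (fld_wFO hev' (hO.off o) hNk) (sym_wFO (hO.off o) _) (comm_wFO hNk) hlim'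
  rw [← hmap, e.measurableEmbedding.ae_map_iff] at hq
  filter_upwards [hq, hwB] with ω h1 h2
  intro x
  have h3 := h1 x
  have h4 : wFO (fun V => ev (shf o V)) (fun V => v (shf o V)) (id ∘ a) (e ω) = Bop ω := h2
  rw [h4, hse] at h3
  exact h3

end obs

end Pool.Agent.R988.NQ
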