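import Pool.Agent.R988.NQ.Maximal
import Pool.Agent.H5R2.NB.ALL

/-! # Almost sure convergence of the averaged velocity from convergence in mean square -/

set_option autoImplicit false

open MeasureTheory Filter Topology
open scoped BigOperators ENNReal NNReal InnerProductSpace ComplexConjugate

namespace Pool.Agent.R988.NQ

open Pool.Agent.H5R2.NB

/-! ### one group -/

section one

variable {X : Type} [NormedAddCommGroup X] [InnerProductSpace ℂ X] [CompleteSpace X]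

theorem avP_block (W : UG X) (v : X →L[ℂ] X) (m n : ℕ) (hm : 0 < m) (hn : 0 < n) (x : X) :
    avP W v (n * m) x = ((n : ℂ)⁻¹) • ∑ k ∈ Finset.range n,
      W.U (-(((k * m : ℕ) : ℝ))) (avP W v m (W.U (((k * m : ℕ) : ℝ)) x)) := by
  have hmC : (m : ℂ) ≠ 0 := by exact_mod_cast hm.ne'
  have hi : ∀ a b : ℝ, IntervalIntegrable (BP.g W v x) volume a b :=
    fun a b => (BP.g_cont W v x).intervalIntegrable a b
  have hsum := intervalIntegral.sum_integral_adjacent_intervals (μ := volume)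
    (f := BP.g W v x) (a := fun k : ℕ => (((k * m : ℕ) : ℝ))) (n := n) (fun k _ => hi _ _)
  have hterm : ∀ k : ℕ, ∫ s in (((k * m : ℕ) : ℝ))..((((k + 1) * m : ℕ) : ℝ)), BP.g W v x s =
      (m : ℂ) • W.U (-(((k * m : ℕ) : ℝ))) (avP W v m (W.U (((k * m : ℕ) : ℝ)) x)) := by
    intro k
    set a : ℝ := ((k * m : ℕ) : ℝ) with ha
    have e1 : avP W v m (W.U a x) = ((m : ℂ)⁻¹) • ∫ s in (0 : ℝ)..(m : ℝ),
        BP.g W v (W.U a x) s := rfl
    have e2 : ∫ s in (0 : ℝ)..(m : ℝ), BP.g W v (W.U a x) s =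
        W.U a (∫ s in (0 : ℝ)..(m : ℝ), BP.g W v x (s + a)) := by
      have hh : IntervalIntegrable (fun s => BP.g W v x (s + a)) volume 0 (m : ℝ) :=
        ((BP.g_cont W v x).comp (continuous_add_const a)).intervalIntegrable _ _
      rw [← ContinuousLinearMap.intervalIntegral_comp_comm _ hh]
      exact intervalIntegral.integral_congr fun s _ => BP.g_shift W v x a s
    rw [e1, e2, map_smul, smul_smul, mul_inv_cancel₀ hmC, one_smul, ← W.add', neg_add_cancel, W.zero',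
      intervalIntegral.integral_comp_add_right (fun s => BP.g W v x s) a]
    congr 1
    · simp
    · rw [ha]
      push_cast
      ring
  have h0 : avP W v (n * m) x = (((n * m : ℕ) : ℂ)⁻¹) • ∫ s in (0 : ℝ)..(((n * m : ℕ) : ℝ)),
      BP.g W v x s := rfl
  rw [h0]
  have h1 : ∫ s in (0 : ℝ)..(((n * m : ℕ) : ℝ)), BP.g W v x s =
      ∑ k ∈ Finset.range n, (m : ℂ) • W.U (-(((k * m : ℕ) : ℝ)))
        (avP W v m (W.U (((k * m : ℕ) : ℝ)) x)) := by
    rw [← Finset.sum_congr rfl fun k _ => hterm k]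
    rw [hsum]
    simp
  rw [h1, ← Finset.smul_sum, smul_smul]
  congr 1
  push_cast
  rw [mul_inv, mul_assoc, inv_mul_cancel₀ hmC, mul_one]

theorem block_bound (W : UG X) (v w : X →L[ℂ] X) (hw : ∀ t x, w (W.U t x) = W.U t (w x))
    (m n : ℕ) (hm : 0 < m) (hn : 0 < n) (x : X) :
    ‖avP W v (n * m) x - w x‖ ^ 2 ≤
      (∑ k ∈ Finset.range n, ‖avP W v m (W.U (((k * m : ℕ) : ℝ)) x) -
        w (W.U (((k * m : ℕ) : ℝ)) x)‖ ^ 2) / n := by
  have hnR : (0 : ℝ) < n := by exact_mod_cast hn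
  have hnC : (n : ℂ) ≠ 0 := by exact_mod_cast hn.ne'
  have e1 : avP W v (n * m) x - w x = ((n : ℂ)⁻¹) • ∑ k ∈ Finset.range n,
      W.U (-(((k * m : ℕ) : ℝ))) (avP W v m (W.U (((k * m : ℕ) : ℝ)) x) -
        w (W.U (((k * m : ℕ) : ℝ)) x)) := by
    have e2 : w x = ((n : ℂ)⁻¹) • ∑ k ∈ Finset.range n,
        W.U (-(((k * m : ℕ) : ℝ))) (w (W.U (((k * m : ℕ) : ℝ)) x)) := by
      have e3 : ∀ k ∈ Finset.range n,
          W.U (-(((k * m : ℕ) : ℝ))) (w (W.U (((k * m : ℕ) : ℝ)) x)) = w x := by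
        intro k _
        rw [hw, ← W.add', neg_add_cancel, W.zero']
      rw [Finset.sum_congr rfl e3, Finset.sum_const, Finset.card_range, ← Nat.cast_smul_eq_nsmul ℂ,
        smul_smul, inv_mul_cancel₀ hnC, one_smul]
    rw [avP_block W v m n hm hn x]
    conv_lhs => rw [e2]
    rw [← smul_sub, ← Finset.sum_sub_distrib]
    simp only [map_sub]
  have e4 : ‖avP W v (n * m) x - w x‖ ≤ (n : ℝ)⁻¹ * ∑ k ∈ Finset.range n,
      ‖avP W v m (W.U (((k * m : ℕ) : ℝ)) x) - w (W.U (((k * m : ℕ) : ℝ)) x)‖ := by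
    rw [e1, norm_smul, norm_inv, Complex.norm_natCast]
    refine mul_le_mul_of_nonneg_left ?_ (by positivity)
    refine (norm_sum_le _ _).trans (le_of_eq ?_)
    exact Finset.sum_congr rfl fun k _ => W.norm' _ _
  have e5 := sq_sum_le_card_mul_sum_sq (s := Finset.range n)
    (f := fun k => ‖avP W v m (W.U (((k * m : ℕ) : ℝ)) x) - w (W.U (((k * m : ℕ) : ℝ)) x)‖)
  rw [Finset.card_range] at e5
  have e6 := pow_le_pow_left₀ (norm_nonneg _) e4 2
  refine e6.trans ?_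
  rw [mul_pow, le_div_iff₀ hnR]
  calc (n : ℝ)⁻¹ ^ 2 * (∑ k ∈ Finset.range n,
        ‖avP W v m (W.U (((k * m : ℕ) : ℝ)) x) - w (W.U (((k * m : ℕ) : ℝ)) x)‖) ^ 2 * n
      ≤ (n : ℝ)⁻¹ ^ 2 * (n * ∑ k ∈ Finset.range n,
        ‖avP W v m (W.U (((k * m : ℕ) : ℝ)) x) - w (W.U (((k * m : ℕ) : ℝ)) x)‖ ^ 2) * n := by
        gcongr
    _ = _ := by
        field_simp

/-- from the blocks to all times -/
theorem tendsto_of_blocks (W : UG X) (v : X →L[ℂ] X) (x y : X)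
    (h : ∀ ε : ℝ, 0 < ε → ∃ m : ℕ, 0 < m ∧ ∀ n : ℕ, 0 < n → ‖avP W v (n * m) x - y‖ ≤ ε) :
    Tendsto (fun N : ℕ => avP W v N x) atTop (𝓝 y) := by
  rw [Metric.tendsto_atTop]
  intro ε hε
  obtain ⟨m, hm, hmn⟩ := h (ε / 2) (by positivity)
  set C : ℝ := (‖v‖ * ‖x‖ + ‖y‖) * m with hC
  have hC0 : 0 ≤ C := by positivity
  obtain ⟨N₀, hN₀⟩ := exists_nat_gt (4 * C / ε)
  refine ⟨max m (N₀ + 1), fun N hN => ?_⟩
  have hNm : m ≤ N := (le_max_left _ _).trans hN
  have hN1 : N₀ + 1 ≤ N := (le_max_right _ _).trans hN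
  have hNpos : (0 : ℝ) < N := by
    have : 0 < N := lt_of_lt_of_le (Nat.succ_pos _) hN1
    exact_mod_cast this
  have hNC : (N : ℂ) ≠ 0 := by exact_mod_cast hNpos.ne'
  set n := N / m with hn
  have hn0 : 0 < n := Nat.div_pos hNm hm
  have hnm : n * m ≤ N := Nat.div_mul_le_self N m
  have hnm2 : N < (n + 1) * m := by
    have h1 := Nat.div_add_mod N m
    have h2 := Nat.mod_lt N hm
    calc N = m * (N / m) + N % m := h1.symm
      _ < m * (N / m) + m := by omega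
      _ = (n + 1) * m := by rw [hn]; ring
  have hnm3 : N - n * m ≤ m := by
    have : (n + 1) * m = n * m + m := by ring
    omega
  have hnmC : ((n * m : ℕ) : ℂ) ≠ 0 := by exact_mod_cast (Nat.mul_pos hn0 hm).ne'
  have hi : ∀ a b : ℝ, IntervalIntegrable (BP.g W v x) volume a b :=
    fun a b => (BP.g_cont W v x).intervalIntegrable a b
  have e1 : (N : ℂ) • (avP W v N x - y) = ((n * m : ℕ) : ℂ) • (avP W v (n * m) x - y) +
      ((∫ s in (((n * m : ℕ) : ℝ))..(N : ℝ), BP.g W v x s) - ((N - n * m : ℕ) : ℂ) • y) := by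
    have a1 : (N : ℂ) • avP W v N x = ∫ s in (0 : ℝ)..(N : ℝ), BP.g W v x s := by
      unfold avP
      rw [smul_smul, mul_inv_cancel₀ hNC, one_smul]
      rfl
    have a2 : ((n * m : ℕ) : ℂ) • avP W v (n * m) x =
        ∫ s in (0 : ℝ)..(((n * m : ℕ) : ℝ)), BP.g W v x s := by
      unfold avP
      rw [smul_smul, mul_inv_cancel₀ hnmC, one_smul]
      rfl
    have a3 : (N : ℂ) = ((n * m : ℕ) : ℂ) + ((N - n * m : ℕ) : ℂ) := by
      rw [← Nat.cast_add, Nat.add_sub_cancel' hnm]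
    rw [smul_sub, smul_sub, a1, a2,
      ← intervalIntegral.integral_add_adjacent_intervals (hi 0 (((n * m : ℕ) : ℝ))) (hi _ _)]
    conv_lhs => rw [a3]
    rw [add_smul]
    abel
  have e2 : ‖∫ s in (((n * m : ℕ) : ℝ))..(N : ℝ), BP.g W v x s‖ ≤ ‖v‖ * ‖x‖ * m := by
    refine (BP.int_norm W v x _ _).trans ?_
    have : |(N : ℝ) - ((n * m : ℕ) : ℝ)| ≤ m := by
      have b1 : (0 : ℝ) ≤ (N : ℝ) - ((n * m : ℕ) : ℝ) := by
        have : ((n * m : ℕ) : ℝ) ≤ N := by exact_mod_cast hnm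
        linarith
      rw [abs_of_nonneg b1]
      have b2 : (N : ℝ) ≤ ((n * m : ℕ) : ℝ) + m := by
        have : N ≤ n * m + m := by omega
        exact_mod_cast this
      linarith
    exact mul_le_mul_of_nonneg_left this (by positivity)
  have e3 : ‖((N - n * m : ℕ) : ℂ) • y‖ ≤ m * ‖y‖ := by
    rw [norm_smul, Complex.norm_natCast]
    have : ((N - n * m : ℕ) : ℝ) ≤ m := by exact_mod_cast hnm3
    exact mul_le_mul_of_nonneg_right this (norm_nonneg _)
  have e4 : (N : ℝ) * ‖avP W v N x - y‖ ≤ N * (ε / 2) + C := by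
    have b0 : (N : ℝ) * ‖avP W v N x - y‖ = ‖(N : ℂ) • (avP W v N x - y)‖ := by
      rw [norm_smul, Complex.norm_natCast]
    rw [b0, e1]
    refine (norm_add_le _ _).trans ?_
    have b1 : ‖((n * m : ℕ) : ℂ) • (avP W v (n * m) x - y)‖ ≤ N * (ε / 2) := by
      rw [norm_smul, Complex.norm_natCast]
      have : ((n * m : ℕ) : ℝ) ≤ N := by exact_mod_cast hnm
      exact mul_le_mul this (hmn n hn0) (norm_nonneg _) (Nat.cast_nonneg _)
    have b2 : ‖(∫ s in (((n * m : ℕ) : ℝ))..(N : ℝ), BP.g W v x s) -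
        ((N - n * m : ℕ) : ℂ) • y‖ ≤ C := by
      refine (norm_sub_le _ _).trans ?_
      rw [hC, add_mul]
      linarith
    linarith
  have e5 : C < N * (ε / 4) := by
    have b1 : (N₀ : ℝ) < N := by exact_mod_cast hN1
    have b2 : 4 * C / ε < N := hN₀.trans b1
    rw [div_lt_iff₀ hε] at b2
    linarith
  rw [dist_eq_norm]
  have e6 : (N : ℝ) * ‖avP W v N x - y‖ < N * ε := by nlinarith
  exact lt_of_mul_lt_mul_left e6 hNpos.le

end one

/-! ### the random potential -/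

section random

variable {d : ℕ} {c : ℝ} {ev : (Site d → ℝ) → UG (L2 (Site d))}

theorem sm_U (hev : ∀ V, IsGrp c V (ev V)) (t : ℝ) (f : (Site d → ℝ) → L2 (Site d))
    (hf : StronglyMeasurable f) : StronglyMeasurable fun V => (ev V).U t (f V) := by
  have h := ALL.a_CV d c ev hev
  have h1 : Continuous fun p : (Site d → ℝ) × L2 (Site d) => (ev p.1).U t p.2 :=
    h.comp (continuous_fst.prodMk (continuous_const.prodMk continuous_snd))
  exact h1.comp_stronglyMeasurable (stronglyMeasurable_id.prodMk hf)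

theorem sm_av (hev : ∀ V, IsGrp c V (ev V)) (v : L2 (Site d) →L[ℂ] L2 (Site d)) (m : ℕ)
    (f : (Site d → ℝ) → L2 (Site d))
    (hf : StronglyMeasurable f) : StronglyMeasurable fun V => avP (ev V) v m (f V) := by
  have h := ALL.a_CV d c ev hev
  have h1 : Continuous (fun p : ((Site d → ℝ) × L2 (Site d)) × ℝ =>
      (ev p.1.1).U p.2 p.1.2) :=
    h.comp (by fun_prop : Continuous fun p : ((Site d → ℝ) × L2 (Site d)) × ℝ =>
      ((p.1.1, p.2, p.1.2) : (Site d → ℝ) × ℝ × L2 (Site d)))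
  have h2 : Continuous (fun p : ((Site d → ℝ) × L2 (Site d)) × ℝ =>
      (ev p.1.1).U (-p.2) (v ((ev p.1.1).U p.2 p.1.2))) :=
    h.comp ((continuous_fst.comp continuous_fst).prodMk (continuous_snd.neg.prodMk
      (v.continuous.comp h1)))
  have h3 : Continuous fun p : (Site d → ℝ) × L2 (Site d) =>
      ∫ s in (0 : ℝ)..(m : ℝ), (ev p.1).U (-s) (v ((ev p.1).U s p.2)) :=
    intervalIntegral.continuous_parametric_intervalIntegral_of_continuous'
      (f := fun (p : (Site d → ℝ) × L2 (Site d)) (s : ℝ) =>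
        (ev p.1).U (-s) (v ((ev p.1).U s p.2))) h2 0 _
  have h4 : StronglyMeasurable fun V =>
      ∫ s in (0 : ℝ)..(m : ℝ), (ev V).U (-s) (v ((ev V).U s (f V))) :=
    h3.comp_stronglyMeasurable (stronglyMeasurable_id.prodMk hf)
  exact h4.const_smul ((m : ℂ)⁻¹)

/-- the evolution as a field -/
noncomputable def Uf (ev : (Site d → ℝ) → UG (L2 (Site d))) (t : ℝ) : OF d := fun V => (ev V).U t

/-- the averaged velocity as a field -/
noncomputable def Af (ev : (Site d → ℝ) → UG (L2 (Site d))) (v : L2 (Site d) →L[ℂ] L2 (Site d))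
    (m : ℕ) : OF d := fun V => LIMB.PL (ev V) v m

theorem fld_U (hev : ∀ V, IsGrp c V (ev V)) (t : ℝ) : Fld 1 (Uf ev t) := by
  refine ⟨fun V ψ => ?_, fun f hf => sm_U hev t f hf, fun z S hS V ψ => ?_⟩
  · rw [one_mul]
    exact ((ev V).norm' t ψ).le
  · exact ALL.a_COV d c ev hev z S hS V t ψ

theorem adj_U (t : ℝ) : Adj (Uf ev t) (Uf ev (-t)) := by
  intro V f g
  show ⟪(ev V).U t f, g⟫_ℂ = ⟪f, (ev V).U (-t) g⟫_ℂ
  rw [STAT.inner_adj (ev V) (-t) f g, neg_neg]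

theorem fld_A (hev : ∀ V, IsGrp c V (ev V)) {j : Fin d} {v : L2 (Site d) →L[ℂ] L2 (Site d)}
    (hv : IsVel c j v) (m : ℕ) : Fld ‖v‖ (Af ev v m) := by
  refine ⟨fun V ψ => LIMB.norm_PL (ev V) v m ψ, fun f hf => sm_av hev v m f hf,
    fun z S hS V ψ => ?_⟩
  show avP (ev fun y => V (y + z)) v m (S ψ) = S (avP (ev V) v m ψ)
  unfold avP
  have e := ContinuousLinearMap.intervalIntegral_comp_comm S
    ((LIMB.cont_P (ev V) v ψ).intervalIntegrable (μ := volume) (0 : ℝ) (m : ℝ))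
  rw [map_smul]
  congr 1
  refine Eq.trans ?_ e
  refine intervalIntegral.integral_congr fun s _ => ?_
  have hC := ALL.a_COV d c ev hev z S hS V
  show (ev fun y => V (y + z)).U (-s) (v ((ev fun y => V (y + z)).U s (S ψ))) =
    S ((ev V).U (-s) (v ((ev V).U s ψ)))
  rw [← hC, ← LIMB.vel_shift hv hS, ← hC]

theorem sym_A {j : Fin d} {v : L2 (Site d) →L[ℂ] L2 (Site d)}
    (hv : IsVel c j v) (m : ℕ) : Sym (Af ev v m) := by
  intro V f g
  have hs := STAT.vel_symm t_OPS c j v hv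
  show ⟪avP (ev V) v m f, g⟫_ℂ = ⟪f, avP (ev V) v m g⟫_ℂ
  have hg : ∀ s : ℝ, ⟪BP.g (ev V) v f s, g⟫_ℂ = ⟪f, BP.g (ev V) v g s⟫_ℂ := fun s =>
    STAT.XX_symm (ev V) v hs s f g
  have h1 : ∀ a b : L2 (Site d), ⟪a, ∫ s in (0 : ℝ)..(m : ℝ), BP.g (ev V) v b s⟫_ℂ =
      ∫ s in (0 : ℝ)..(m : ℝ), ⟪a, BP.g (ev V) v b s⟫_ℂ := by
    intro a b
    have := (innerSL ℂ a).intervalIntegral_comp_comm
      ((BP.g_cont (ev V) v b).intervalIntegrable (μ := volume) 0 (m : ℝ))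
    simpa using this.symm
  have h2 : ⟪∫ s in (0 : ℝ)..(m : ℝ), BP.g (ev V) v f s, g⟫_ℂ =
      ⟪f, ∫ s in (0 : ℝ)..(m : ℝ), BP.g (ev V) v g s⟫_ℂ := by
    rw [← inner_conj_symm, h1, h1, intervalIntegral.integral_of_le (Nat.cast_nonneg m),
      intervalIntegral.integral_of_le (Nat.cast_nonneg m), ← integral_conj]
    refine integral_congr_ae (Eventually.of_forall fun s => ?_)
    show conj ⟪g, BP.g (ev V) v f s⟫_ℂ = ⟪f, BP.g (ev V) v g s⟫_ℂ
    rw [inner_conj_symm, hg]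
  show ⟪((m : ℂ)⁻¹) • ∫ s in (0 : ℝ)..(m : ℝ), BP.g (ev V) v f s, g⟫_ℂ =
    ⟪f, ((m : ℂ)⁻¹) • ∫ s in (0 : ℝ)..(m : ℝ), BP.g (ev V) v g s⟫_ℂ
  rw [inner_smul_left, inner_smul_right, h2, map_inv₀, Complex.conj_natCast]

theorem data_A (hev : ∀ V, IsGrp c V (ev V)) {j : Fin d} {v : L2 (Site d) →L[ℂ] L2 (Site d)}
    (hv : IsVel c j v) (m : ℕ) {w : OF d} {β : ℝ} (hβ : 0 ≤ β) (hw : Fld β w) (sw : Sym w) :
    Data (Uf ev (m : ℝ)) (Uf ev (-(m : ℝ))) (subF (Af ev v m) w) (‖v‖ + β) := by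
  refine ⟨fld_U hev _, fld_U hev _, adj_U _, fun V f => ?_, fun V f => ?_, by positivity,
    (fld_A hev hv m).sub hw, (sym_A hv m).sub sw⟩
  · show (ev V).U (-(m : ℝ)) ((ev V).U (m : ℝ) f) = f
    rw [← (ev V).add', neg_add_cancel, (ev V).zero']
  · show (ev V).U (m : ℝ) ((ev V).U (-(m : ℝ)) f) = f
    rw [← (ev V).add', add_neg_cancel, (ev V).zero']

/-- the quadratic form of the sums -/
theorem SS_eq {m : ℕ} {B : OF d} (sB : Sym B) (n : ℕ) (V : Site d → ℝ) (f : L2 (Site d)) :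
    (⟪SS (Uf ev (m : ℝ)) (Uf ev (-(m : ℝ))) B n V f, f⟫_ℂ).re =
      ∑ k ∈ Finset.range n, ‖B V ((ev V).U (((k * m : ℕ) : ℝ)) f)‖ ^ 2 := by
  induction n generalizing f with
  | zero => simp [SS]
  | succ n ih =>
    show (⟪B V (B V f) + (ev V).U (-(m : ℝ))
      (SS (Uf ev (m : ℝ)) (Uf ev (-(m : ℝ))) B n V ((ev V).U (m : ℝ) f)), f⟫_ℂ).re = _
    rw [inner_add_left, Complex.add_re, sB V (B V f) f, re_self]
    have e1 : ⟪(ev V).U (-(m : ℝ)) (SS (Uf ev (m : ℝ)) (Uf ev (-(m : ℝ))) B n V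
        ((ev V).U (m : ℝ) f)), f⟫_ℂ = ⟪SS (Uf ev (m : ℝ)) (Uf ev (-(m : ℝ))) B n V
        ((ev V).U (m : ℝ) f), (ev V).U (m : ℝ) f⟫_ℂ := by
      have := (adj_U (ev := ev) (m : ℝ)).symm V (SS (Uf ev (m : ℝ)) (Uf ev (-(m : ℝ))) B n V
        ((ev V).U (m : ℝ) f)) f
      exact this
    rw [e1, ih, Finset.sum_range_succ']
    rw [add_comm]
    congr 1
    · refine Finset.sum_congr rfl fun k _ => ?_
      rw [← (ev V).add']
      congr 4
      push_cast
      ring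
    · rw [zero_mul, Nat.cast_zero, (ev V).zero']

end random

end Pool.Agent.R988.NQ
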