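import Pool.Agent.R988.NQ.QAll
import Pool.Agent.R988.NQ.Mom2
import Pool.Agent.H5R2.NBA.ALL

/-! # The asymptotic velocity as a covariant field, arbitrary laws -/

set_option autoImplicit false

open MeasureTheory Filter Topology
open scoped BigOperators ENNReal NNReal InnerProductSpace ComplexConjugate

namespace Pool.Agent.R988.NQ

open Pool.Agent.H5R2.NB Pool.Agent.H5R2.NBA

section gen

variable {d : ℕ} {c : ℝ} {ev : (Site d → ℝ) → UG (L2 (Site d))}

open Classical in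
/-- the limit of the averages along `Nk` where it exists, zero elsewhere -/
noncomputable def wF (ev : (Site d → ℝ) → UG (L2 (Site d))) (v : L2 (Site d) →L[ℂ] L2 (Site d))
    (Nk : ℕ → ℕ) : OF d := fun V =>
  if h : ∃ B : L2 (Site d) →L[ℂ] L2 (Site d), Good (ev V) v Nk B then Classical.choose h else 0

theorem good_uniq {W : UG (L2 (Site d))} {v : L2 (Site d) →L[ℂ] L2 (Site d)} {Nk : ℕ → ℕ}
    {B B' : L2 (Site d) →L[ℂ] L2 (Site d)} (h : Good W v Nk B) (h' : Good W v Nk B') : B = B' :=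
  ContinuousLinearMap.ext fun x => tendsto_nhds_unique (h x).1 (h' x).1

theorem wF_eq {v : L2 (Site d) →L[ℂ] L2 (Site d)} {Nk : ℕ → ℕ} {V : Site d → ℝ}
    {B : L2 (Site d) →L[ℂ] L2 (Site d)} (h : Good (ev V) v Nk B) : wF ev v Nk V = B := by
  have h1 : ∃ B : L2 (Site d) →L[ℂ] L2 (Site d), Good (ev V) v Nk B := ⟨B, h⟩
  unfold wF
  rw [dif_pos h1]
  exact good_uniq (Classical.choose_spec h1) h

theorem wF_zero {v : L2 (Site d) →L[ℂ] L2 (Site d)} {Nk : ℕ → ℕ} {V : Site d → ℝ}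
    (h : ¬ ∃ B : L2 (Site d) →L[ℂ] L2 (Site d), Good (ev V) v Nk B) : wF ev v Nk V = 0 := by
  unfold wF
  rw [dif_neg h]

/-- where the averages converge -/
theorem meas_good (hev : ∀ V, IsGrp c V (ev V)) (v : L2 (Site d) →L[ℂ] L2 (Site d))
    (Nk : ℕ → ℕ) : MeasurableSet {V : Site d → ℝ | ∃ B : L2 (Site d) →L[ℂ] L2 (Site d),
      Good (ev V) v Nk B} := by
  have e : {V : Site d → ℝ | ∃ B : L2 (Site d) →L[ℂ] L2 (Site d), Good (ev V) v Nk B} =
      ⋂ z : Site d, ({V | ∃ y, Tendsto (fun k => avP (ev V) v (Nk k) (dl z)) atTop (𝓝 y)} ∩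
        {V | Tendsto (fun k => ‖avP (ev V) v (Nk k) (dl z) - avM (ev V) v (Nk k) (dl z)‖) atTop
          (𝓝 0)}) := by
    ext V
    simp only [Set.mem_setOf_eq, Set.mem_iInter, Set.mem_inter_iff]
    constructor
    · rintro ⟨B, hB⟩ z
      refine ⟨⟨B (dl z), (hB (dl z)).1⟩, ?_⟩
      have := ((hB (dl z)).1.sub (hB (dl z)).2).norm
      rwa [sub_self, norm_zero] at this
    · intro h
      obtain ⟨B, hB⟩ := LIMB.ext_lim (fun k => LIMB.PL (ev V) v (Nk k))
        (fun k => LIMB.ML (ev V) v (Nk k)) ‖v‖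
        (norm_nonneg _) (fun k => LIMB.norm_PL (ev V) v (Nk k))
        (fun k => LIMB.norm_ML (ev V) v (Nk k))
        (Site d) dl (LIMB.dl_dense d) (fun z => by
          obtain ⟨⟨y, hy⟩, h2⟩ := h z
          refine ⟨y, hy, ?_⟩
          have h3 := hy.sub (tendsto_zero_iff_norm_tendsto_zero.2 h2)
          rw [sub_zero] at h3
          refine h3.congr fun k => ?_
          rw [sub_sub_cancel]
          rfl)
      exact ⟨B, hB⟩
  rw [e]
  refine MeasurableSet.iInter fun z => MeasurableSet.inter ?_ ?_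
  · refine StronglyMeasurable.measurableSet_exists_tendsto fun k => ?_
    exact sm_av hev v (Nk k) _ stronglyMeasurable_const
  · refine measurableSet_tendsto (𝓝 0) fun k => ?_
    have s1 := sm_av hev v (Nk k) (fun _ => dl z) stronglyMeasurable_const
    have s2 : Continuous fun V => avM (ev V) v (Nk k) (dl z) := by
      have hU := ALL.a_CV d c ev hev
      suffices key : Continuous fun V : Site d → ℝ =>
          ∫ s in (0 : ℝ)..((Nk k : ℕ) : ℝ), (ev V).U s (v ((ev V).U (-s) (dl z))) from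
        key.const_smul (((Nk k : ℕ) : ℂ)⁻¹)
      refine intervalIntegral.continuous_parametric_intervalIntegral_of_continuous'
        (f := fun (V : Site d → ℝ) (s : ℝ) => (ev V).U s (v ((ev V).U (-s) (dl z)))) ?_ _ _
      have g1 : Continuous fun p : (Site d → ℝ) × ℝ => (ev p.1).U (-p.2) (dl z) :=
        hU.comp (by fun_prop : Continuous fun p : (Site d → ℝ) × ℝ =>
          ((p.1, -p.2, dl z) : (Site d → ℝ) × ℝ × L2 (Site d)))
      exact hU.comp (continuous_fst.prodMk (continuous_snd.prodMk (v.continuous.comp g1)))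
    exact (s1.sub s2.stronglyMeasurable).norm.measurable

theorem fld_wF (hev : ∀ V, IsGrp c V (ev V)) {j : Fin d} {v : L2 (Site d) →L[ℂ] L2 (Site d)}
    (hv : IsVel c j v) {Nk : ℕ → ℕ} (hNk : Tendsto Nk atTop atTop) :
    Fld ‖v‖ (wF ev v Nk) := by
  refine ⟨fun V ψ => ?_, fun f hf => ?_, fun z S hS V ψ => ?_⟩
  · by_cases h : ∃ B : L2 (Site d) →L[ℂ] L2 (Site d), Good (ev V) v Nk B
    · obtain ⟨B, hB⟩ := h
      rw [wF_eq hB]
      exact (t_BP (Site d) (ev V) v Nk hNk B hB).1 ψ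
    · rw [wF_zero h]
      simp only [ContinuousLinearMap.zero_apply, norm_zero]
      positivity
  · have hm := meas_good hev v Nk
    refine stronglyMeasurable_of_tendsto (atTop : Filter ℕ)
      (f := fun k V => Set.indicator {V : Site d → ℝ | ∃ B : L2 (Site d) →L[ℂ] L2 (Site d),
        Good (ev V) v Nk B} (fun V => avP (ev V) v (Nk k) (f V)) V)
      (fun k => (sm_av hev v (Nk k) f hf).indicator hm) ?_
    rw [tendsto_pi_nhds]
    intro V
    by_cases h : ∃ B : L2 (Site d) →L[ℂ] L2 (Site d), Good (ev V) v Nk B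
    · have h' : V ∈ {V : Site d → ℝ | ∃ B : L2 (Site d) →L[ℂ] L2 (Site d),
        Good (ev V) v Nk B} := h
      simp only [Set.indicator_of_mem h']
      obtain ⟨B, hB⟩ := h
      rw [wF_eq hB]
      exact (hB (f V)).1
    · have h' : V ∉ {V : Site d → ℝ | ∃ B : L2 (Site d) →L[ℂ] L2 (Site d),
        Good (ev V) v Nk B} := h
      simp only [Set.indicator_of_notMem h']
      rw [wF_zero h]
      simp
  · obtain ⟨T, hT⟩ := (t_OPS d).1 (-z)
    by_cases h : ∃ B : L2 (Site d) →L[ℂ] L2 (Site d), Good (ev V) v Nk B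
    · obtain ⟨B, hB⟩ := h
      rw [wF_eq hB, wF_eq (ZAC.good_conj hev hv hS hT V Nk B hB)]
      show S (B (T (S ψ))) = S (B ψ)
      rw [ZAC.inv2 hS hT]
    · have h2 : ¬ ∃ B : L2 (Site d) →L[ℂ] L2 (Site d),
          Good (ev fun y => V (y + z)) v Nk B := by
        rintro ⟨B, hB⟩
        have hS' : IsShift (-(-z)) S := by rw [neg_neg]; exact hS
        have h3 := ZAC.good_conj hev hv hT hS' (fun y => V (y + z)) Nk B hB
        have e : (fun y => (fun y => V (y + z)) (y + -z)) = V := by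
          funext y; simp
        rw [e] at h3
        exact h ⟨_, h3⟩
      rw [wF_zero h, wF_zero h2]
      simp

theorem sym_wF {j : Fin d} {v : L2 (Site d) →L[ℂ] L2 (Site d)}
    (hv : IsVel c j v) (Nk : ℕ → ℕ) : Sym (wF ev v Nk) := by
  intro V f g
  by_cases h : ∃ B : L2 (Site d) →L[ℂ] L2 (Site d), Good (ev V) v Nk B
  · obtain ⟨B, hB⟩ := h
    rw [wF_eq hB]
    exact AB.B_symm (ev V) v (STAT.vel_symm t_OPS c j v hv) Nk B hB f g
  · rw [wF_zero h]
    simp

theorem comm_wF {v : L2 (Site d) →L[ℂ] L2 (Site d)}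
    {Nk : ℕ → ℕ} (hNk : Tendsto Nk atTop atTop) (V : Site d → ℝ) (t : ℝ) (x : L2 (Site d)) :
    wF ev v Nk V ((ev V).U t x) = (ev V).U t (wF ev v Nk V x) := by
  by_cases h : ∃ B : L2 (Site d) →L[ℂ] L2 (Site d), Good (ev V) v Nk B
  · obtain ⟨B, hB⟩ := h
    rw [wF_eq hB]
    exact (t_BP (Site d) (ev V) v Nk hNk B hB).2 t x
  · rw [wF_zero h]
    simp

variable {ν : Measure ℝ} [IsProbabilityMeasure ν]

/-- existence of the asymptotic velocity, almost surely, arbitrary law; it vanishes on the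
absolutely continuous subspace when the law is not a point mass -/
theorem asymptotic (hev : ∀ V, IsGrp c V (ev V)) {j : Fin d}
    {v : L2 (Site d) →L[ℂ] L2 (Site d)} (hv : IsVel c j v) :
    ∀ᵐ V ∂(PP d ν), ∃ B : L2 (Site d) →L[ℂ] L2 (Site d),
      (∀ x, Tendsto (fun N : ℕ => avP (ev V) v N x) atTop (𝓝 (B x))) ∧
      ((∀ κ : ℝ, ν {κ} ≠ 1) → ∀ ψ ∈ HAC (ev V), B ψ = 0) := by
  obtain ⟨Nk, b, hNk, hb, hae⟩ := ALL.a_LIM d c ev hev ν j v hv
  have hae' : ∀ᵐ V ∂(PP d ν), ∃ B : L2 (Site d) →L[ℂ] L2 (Site d), Good (ev V) v Nk B := by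
    filter_upwards [hae] with V hV
    obtain ⟨B, hB, _⟩ := hV
    exact ⟨B, hB⟩
  have hlim : Tendsto (fun N : ℕ => ∫⁻ V, ‖avP (ev V) v N (dl 0) - wF ev v Nk V (dl 0)‖ₑ ^ 2
      ∂(PP d ν)) atTop (𝓝 0) := by
    refine hb.congr fun N => ?_
    refine lintegral_congr_ae ?_
    filter_upwards [hae] with V hV
    obtain ⟨B, hB, hB2⟩ := hV
    rw [wF_eq hB, hB2]
  have hq := quench (ν := ν) hev hv (norm_nonneg v) (fld_wF hev hv hNk) (sym_wF hv Nk)
    (comm_wF hNk) hlim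
  by_cases hν : ∀ κ : ℝ, ν {κ} ≠ 1
  · have hz := Pool.Agent.H5R2.NBA.ALL.a_ZAC d c ev hev ν hν j v hv Nk hNk hae'
    filter_upwards [hq, hz, hae'] with V h1 h2 h3
    obtain ⟨B, hB⟩ := h3
    refine ⟨B, fun x => ?_, fun _ => h2 B hB⟩
    have := h1 x
    rwa [wF_eq hB] at this
  · filter_upwards [hq] with V h1
    exact ⟨_, h1, fun h => absurd h hν⟩

/-- real times -/
theorem real_times' {X : Type} [NormedAddCommGroup X] [InnerProductSpace ℂ X] [CompleteSpace X]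
    (W : UG X) (v : X →L[ℂ] X) (x y : X)
    (h : Tendsto (fun N : ℕ => avP W v N x) atTop (𝓝 y)) :
    Tendsto (fun t : ℝ => ((t : ℂ)⁻¹) • ∫ s in (0 : ℝ)..t, W.U (-s) (v (W.U s x))) atTop
      (𝓝 y) := by
  have hi : ∀ a b : ℝ, IntervalIntegrable (BP.g W v x) volume a b :=
    fun a b => (BP.g_cont W v x).intervalIntegrable a b
  have hfl : Tendsto (fun t : ℝ => ⌊t⌋₊) atTop atTop := tendsto_nat_floor_atTop
  have h1 := h.comp hfl
  have hq : Tendsto (fun t : ℝ => (((⌊t⌋₊ : ℕ) : ℝ) / t)) atTop (𝓝 1) :=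
    tendsto_nat_floor_div_atTop
  have hqC : Tendsto (fun t : ℝ => ((((⌊t⌋₊ : ℕ) : ℝ) / t : ℝ) : ℂ)) atTop (𝓝 1) := by
    have := (Complex.continuous_ofReal.tendsto 1).comp hq
    rw [Complex.ofReal_one] at this
    exact this
  have h2 := hqC.smul h1
  rw [one_smul] at h2
  have h3 : Tendsto (fun t : ℝ => ((t : ℂ)⁻¹) • ∫ s in ((⌊t⌋₊ : ℕ) : ℝ)..t, BP.g W v x s) atTop
      (𝓝 0) := by
    rw [tendsto_zero_iff_norm_tendsto_zero]
    have h4 : Tendsto (fun t : ℝ => t⁻¹ * (‖v‖ * ‖x‖)) atTop (𝓝 0) := by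
      have := tendsto_inv_atTop_zero.mul_const (‖v‖ * ‖x‖)
      simpa using this
    refine squeeze_zero' (Eventually.of_forall fun t => norm_nonneg _) ?_ h4
    filter_upwards [eventually_ge_atTop (1 : ℝ)] with t ht
    have ht0 : 0 < t := by linarith
    rw [norm_smul, norm_inv, Complex.norm_real, Real.norm_eq_abs, abs_of_pos ht0]
    refine mul_le_mul_of_nonneg_left ?_ (by positivity)
    refine (BP.int_norm W v x _ _).trans ?_
    have h5 : |t - ((⌊t⌋₊ : ℕ) : ℝ)| ≤ 1 := by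
      rw [abs_of_nonneg (by linarith [Nat.floor_le (by linarith : 0 ≤ t)])]
      linarith [Nat.lt_floor_add_one t]
    calc ‖v‖ * ‖x‖ * |t - ((⌊t⌋₊ : ℕ) : ℝ)| ≤ ‖v‖ * ‖x‖ * 1 :=
          mul_le_mul_of_nonneg_left h5 (by positivity)
      _ = _ := mul_one _
  have h6 := h2.add h3
  rw [add_zero] at h6
  refine h6.congr' ?_
  filter_upwards [eventually_ge_atTop (1 : ℝ)] with t ht
  have ht0 : 0 < t := by linarith
  have hNpos : 0 < ⌊t⌋₊ := Nat.floor_pos.2 ht
  have hNC : ((⌊t⌋₊ : ℕ) : ℂ) ≠ 0 := by exact_mod_cast hNpos.ne'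
  have a2 : ((⌊t⌋₊ : ℕ) : ℂ) • avP W v ⌊t⌋₊ x =
      ∫ s in (0 : ℝ)..(((⌊t⌋₊ : ℕ) : ℝ)), BP.g W v x s := by
    unfold avP
    rw [smul_smul, mul_inv_cancel₀ hNC, one_smul]
    rfl
  have a3 : ∫ s in (0 : ℝ)..t, W.U (-s) (v (W.U s x)) =
      ((⌊t⌋₊ : ℕ) : ℂ) • avP W v ⌊t⌋₊ x + ∫ s in ((⌊t⌋₊ : ℕ) : ℝ)..t, BP.g W v x s := by
    rw [a2, intervalIntegral.integral_add_adjacent_intervals (hi _ _) (hi _ _)]
    rfl
  rw [a3, smul_add, smul_smul]
  congr 1
  simp only [Function.comp]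
  congr 1
  push_cast
  rw [div_eq_mul_inv, mul_comm]

end gen

end Pool.Agent.R988.NQ
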